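import Mathlib

set_option autoImplicit false

/-! The chain of bases of a lattice in `ℝ × ℝ` crossing the river. -/

namespace Pool.Agent.Lib.MP_6dddb9_nt

/-- A basis `(x, e)` with `x` totally positive, `e` positive in the first place and negative in
the second place, together with irrationality of the spanned lattice. -/
@[ext]
structure Chain where
  x : ℝ × ℝ
  e : ℝ × ℝ
  hx1 : 0 < x.1
  hx2 : 0 < x.2
  he1 : 0 < e.1
  he2 : e.2 < 0
  nd1 : ∀ m n : ℤ, (m : ℝ) * x.1 + n * e.1 = 0 → m = 0 ∧ n = 0
  nd2 : ∀ m n : ℤ, (m : ℝ) * x.2 + n * e.2 = 0 → m = 0 ∧ n = 0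

namespace Chain

theorem ne2 (c : Chain) : c.x.2 + c.e.2 ≠ 0 := by
  intro h
  have := c.nd2 1 1 (by push_cast; linarith)
  omega

theorem ne1 (c : Chain) : c.x.1 ≠ c.e.1 := by
  intro h
  have := c.nd1 1 (-1) (by push_cast; linarith)
  omega

/-- Forward step. -/
noncomputable def T (c : Chain) : Chain :=
  if h : c.x.2 + c.e.2 < 0 then
    { x := c.x
      e := c.x + c.e
      hx1 := c.hx1
      hx2 := c.hx2
      he1 := by
        have := c.hx1; have := c.he1
        simp only [Prod.fst_add]; linarith
      he2 := by simpa using h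
      nd1 := fun m n h => by
        have := c.nd1 (m + n) n (by
          simp only [Prod.fst_add] at h; push_cast; linarith)
        omega
      nd2 := fun m n h => by
        have := c.nd2 (m + n) n (by
          simp only [Prod.snd_add] at h; push_cast; linarith)
        omega }
  else
    { x := c.x + c.e
      e := c.e
      hx1 := by
        have := c.hx1; have := c.he1
        simp only [Prod.fst_add]; linarith
      hx2 := by
        have h1 := c.ne2
        simp only [Prod.snd_add]
        exact lt_of_le_of_ne (not_lt.1 h) h1.symm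
      he1 := c.he1
      he2 := c.he2
      nd1 := fun m n h => by
        have := c.nd1 m (m + n) (by
          simp only [Prod.fst_add] at h; push_cast; linarith)
        omega
      nd2 := fun m n h => by
        have := c.nd2 m (m + n) (by
          simp only [Prod.snd_add] at h; push_cast; linarith)
        omega }

/-- Backward step. -/
noncomputable def S (c : Chain) : Chain :=
  if h : c.x.1 < c.e.1 then
    { x := c.x
      e := c.e - c.x
      hx1 := c.hx1
      hx2 := c.hx2
      he1 := by simp only [Prod.fst_sub]; linarith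
      he2 := by
        have := c.hx2; have := c.he2
        simp only [Prod.snd_sub]; linarith
      nd1 := fun m n h => by
        have := c.nd1 (m - n) n (by
          simp only [Prod.fst_sub] at h; push_cast; linarith)
        omega
      nd2 := fun m n h => by
        have := c.nd2 (m - n) n (by
          simp only [Prod.snd_sub] at h; push_cast; linarith)
        omega }
  else
    { x := c.x - c.e
      e := c.e
      hx1 := by
        have h1 := c.ne1
        simp only [Prod.fst_sub]
        have := lt_of_le_of_ne (not_lt.1 h) h1.symm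
        linarith
      hx2 := by
        have := c.hx2; have := c.he2
        simp only [Prod.snd_sub]; linarith
      he1 := c.he1
      he2 := c.he2
      nd1 := fun m n h => by
        have := c.nd1 m (n - m) (by
          simp only [Prod.fst_sub] at h; push_cast; linarith)
        omega
      nd2 := fun m n h => by
        have := c.nd2 m (n - m) (by
          simp only [Prod.snd_sub] at h; push_cast; linarith)
        omega }

theorem T_of_lt (c : Chain) (h : c.x.2 + c.e.2 < 0) : (T c).x = c.x ∧ (T c).e = c.x + c.e := by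
  unfold T; rw [dif_pos h]; exact ⟨rfl, rfl⟩

theorem T_of_gt (c : Chain) (h : 0 < c.x.2 + c.e.2) : (T c).x = c.x + c.e ∧ (T c).e = c.e := by
  unfold T; rw [dif_neg (not_lt.2 h.le)]; exact ⟨rfl, rfl⟩

theorem S_of_lt (c : Chain) (h : c.x.1 < c.e.1) : (S c).x = c.x ∧ (S c).e = c.e - c.x := by
  unfold S; rw [dif_pos h]; exact ⟨rfl, rfl⟩

theorem S_of_gt (c : Chain) (h : c.e.1 < c.x.1) : (S c).x = c.x - c.e ∧ (S c).e = c.e := by
  unfold S; rw [dif_neg (not_lt.2 h.le)]; exact ⟨rfl, rfl⟩

theorem T_cases (c : Chain) :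
    (c.x.2 + c.e.2 < 0 ∧ (T c).x = c.x ∧ (T c).e = c.x + c.e) ∨
    (0 < c.x.2 + c.e.2 ∧ (T c).x = c.x + c.e ∧ (T c).e = c.e) := by
  rcases lt_or_gt_of_ne c.ne2 with h | h
  · exact Or.inl ⟨h, T_of_lt c h⟩
  · exact Or.inr ⟨h, T_of_gt c h⟩

theorem S_cases (c : Chain) :
    (c.x.1 < c.e.1 ∧ (S c).x = c.x ∧ (S c).e = c.e - c.x) ∨
    (c.e.1 < c.x.1 ∧ (S c).x = c.x - c.e ∧ (S c).e = c.e) := by
  rcases lt_or_gt_of_ne c.ne1 with h | h
  · exact Or.inl ⟨h, S_of_lt c h⟩
  · exact Or.inr ⟨h, S_of_gt c h⟩

theorem T_S (c : Chain) : T (S c) = c := by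
  rcases S_cases c with ⟨h, h1, h2⟩ | ⟨h, h1, h2⟩
  · have h3 : (S c).x.2 + (S c).e.2 < 0 := by
      rw [h1, h2]
      have := c.he2
      simp only [Prod.snd_sub]; linarith
    obtain ⟨h4, h5⟩ := T_of_lt _ h3
    apply Chain.ext
    · rw [h4, h1]
    · rw [h5, h1, h2]; ring
  · have h3 : 0 < (S c).x.2 + (S c).e.2 := by
      rw [h1, h2]
      have := c.hx2
      simp only [Prod.snd_sub]; linarith
    obtain ⟨h4, h5⟩ := T_of_gt _ h3
    apply Chain.ext
    · rw [h4, h1, h2]; ring
    · rw [h5, h2]

theorem S_T (c : Chain) : S (T c) = c := by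
  rcases T_cases c with ⟨h, h1, h2⟩ | ⟨h, h1, h2⟩
  · have h3 : (T c).x.1 < (T c).e.1 := by
      rw [h1, h2]
      have := c.he1
      simp only [Prod.fst_add]; linarith
    obtain ⟨h4, h5⟩ := S_of_lt _ h3
    apply Chain.ext
    · rw [h4, h1]
    · rw [h5, h1, h2]; ring
  · have h3 : (T c).e.1 < (T c).x.1 := by
      rw [h1, h2]
      have := c.hx1
      simp only [Prod.fst_add]; linarith
    obtain ⟨h4, h5⟩ := S_of_gt _ h3
    apply Chain.ext
    · rw [h4, h1, h2]; ring
    · rw [h5, h2]

/-- The shift as a permutation. -/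
noncomputable def TE : Equiv.Perm Chain where
  toFun := T
  invFun := S
  left_inv := S_T
  right_inv := T_S

@[simp] theorem TE_apply (c : Chain) : TE c = T c := rfl
@[simp] theorem TE_symm_apply (c : Chain) : TE.symm c = S c := rfl

/-- Two chain elements span the same lattice (integer change of basis). -/
def SameLat (c c' : Chain) : Prop :=
  ∃ a b r d : ℤ, (a * d - b * r = 1 ∨ a * d - b * r = -1) ∧
    c'.x = (a : ℝ) • c.x + (b : ℝ) • c.e ∧ c'.e = (r : ℝ) • c.x + (d : ℝ) • c.e

theorem sameLat_refl (c : Chain) : SameLat c c :=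
  ⟨1, 0, 0, 1, by norm_num, by simp, by simp⟩

theorem sameLat_symm {c c' : Chain} (h : SameLat c c') : SameLat c' c := by
  obtain ⟨a, b, r, d, hdet, hx, he⟩ := h
  rcases hdet with h1 | h1
  · have h1' : (a : ℝ) * d - b * r = 1 := by exact_mod_cast h1
    refine ⟨d, -b, -r, a, Or.inl (by linarith), ?_, ?_⟩
    · rw [hx, he]
      ext
      · simp only [Prod.fst_add, Prod.smul_fst, smul_eq_mul]
        push_cast
        linear_combination (-c.x.1) * h1'
      · simp only [Prod.snd_add, Prod.smul_snd, smul_eq_mul]
        push_cast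
        linear_combination (-c.x.2) * h1'
    · rw [hx, he]
      ext
      · simp only [Prod.fst_add, Prod.smul_fst, smul_eq_mul]
        push_cast
        linear_combination (-c.e.1) * h1'
      · simp only [Prod.snd_add, Prod.smul_snd, smul_eq_mul]
        push_cast
        linear_combination (-c.e.2) * h1'
  · have h1' : (a : ℝ) * d - b * r = -1 := by exact_mod_cast h1
    refine ⟨-d, b, r, -a, Or.inr (by linarith), ?_, ?_⟩
    · rw [hx, he]
      ext
      · simp only [Prod.fst_add, Prod.smul_fst, smul_eq_mul]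
        push_cast
        linear_combination (c.x.1) * h1'
      · simp only [Prod.snd_add, Prod.smul_snd, smul_eq_mul]
        push_cast
        linear_combination (c.x.2) * h1'
    · rw [hx, he]
      ext
      · simp only [Prod.fst_add, Prod.smul_fst, smul_eq_mul]
        push_cast
        linear_combination (c.e.1) * h1'
      · simp only [Prod.snd_add, Prod.smul_snd, smul_eq_mul]
        push_cast
        linear_combination (c.e.2) * h1'

theorem sameLat_trans {c c' c'' : Chain} (h : SameLat c c') (h' : SameLat c' c'') :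
    SameLat c c'' := by
  obtain ⟨a, b, r, d, hdet, hx, he⟩ := h
  obtain ⟨a', b', r', d', hdet', hx', he'⟩ := h'
  refine ⟨a' * a + b' * r, a' * b + b' * d, r' * a + d' * r, r' * b + d' * d, ?_, ?_, ?_⟩
  · have h1 : (a' * a + b' * r) * (r' * b + d' * d) - (a' * b + b' * d) * (r' * a + d' * r) =
        (a * d - b * r) * (a' * d' - b' * r') := by ring
    rw [h1]
    rcases hdet with h | h <;> rcases hdet' with h' | h' <;> rw [h, h'] <;> norm_num
  · rw [hx', hx, he]
    push_cast
    module
  · rw [he', hx, he]
    push_cast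
    module

theorem sameLat_T (c : Chain) : SameLat c (T c) := by
  rcases T_cases c with ⟨_, h1, h2⟩ | ⟨_, h1, h2⟩
  · refine ⟨1, 0, 1, 1, by norm_num, ?_, ?_⟩
    · rw [h1]; simp
    · rw [h2]; simp
  · refine ⟨1, 1, 0, 1, by norm_num, ?_, ?_⟩
    · rw [h1]; simp
    · rw [h2]; simp

theorem sameLat_TE_zpow (c : Chain) (n : ℤ) : SameLat c ((TE ^ n) c) := by
  induction n using Int.induction_on with
  | zero => simpa using sameLat_refl c
  | succ n ih =>
    rw [zpow_add_one, Equiv.Perm.mul_apply] at *
    have h1 : (TE ^ (n : ℤ)) (TE c) = TE ((TE ^ (n : ℤ)) c) := by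
      rw [← Equiv.Perm.mul_apply, ← Equiv.Perm.mul_apply, (Commute.refl TE).zpow_left n |>.eq]
    rw [h1]
    exact sameLat_trans ih (sameLat_T _)
  | pred n ih =>
    rw [zpow_sub_one, Equiv.Perm.mul_apply] at *
    have h1 : (TE ^ (-(n : ℤ))) (TE⁻¹ c) = TE⁻¹ ((TE ^ (-(n : ℤ))) c) := by
      rw [← Equiv.Perm.mul_apply, ← Equiv.Perm.mul_apply,
        ((Commute.refl TE).zpow_left (-(n : ℤ))).inv_right.eq]
    rw [h1]
    refine sameLat_trans ih ?_
    have h2 := sameLat_T (S ((TE ^ (-(n : ℤ))) c))
    rw [T_S] at h2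
    exact sameLat_symm h2

/-- Sign pattern of an orientation preserving change of basis between chain elements. -/
theorem sign_pattern (c c' : Chain) (a b r d : ℤ)
    (hx : c'.x = (a : ℝ) • c.x + (b : ℝ) • c.e) (he : c'.e = (r : ℝ) • c.x + (d : ℝ) • c.e) :
    1 ≤ a ∧ 1 ≤ d ∧ 0 < a * d - b * r := by
  have h1 := c'.hx1
  have h2 := c'.hx2
  have h3 := c'.he1
  have h4 := c'.he2
  rw [hx] at h1 h2
  rw [he] at h3 h4
  simp only [Prod.fst_add, Prod.smul_fst, smul_eq_mul, Prod.snd_add, Prod.smul_snd] at h1 h2 h3 h4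
  have k1 := c.hx1
  have k2 := c.hx2
  have k3 := c.he1
  have k4 := c.he2
  have ha : 0 < a := by
    by_contra hcon
    push Not at hcon
    have hcon' : (a : ℝ) ≤ 0 := by exact_mod_cast hcon
    have h5 : 0 < (b : ℝ) * c.e.1 := by nlinarith
    have h6 : 0 < (b : ℝ) := by
      by_contra h7
      push Not at h7
      nlinarith
    nlinarith
  have hd : 0 < d := by
    by_contra hcon
    push Not at hcon
    have hcon' : (d : ℝ) ≤ 0 := by exact_mod_cast hcon
    have h5 : 0 < (r : ℝ) * c.x.1 := by nlinarith
    have h6 : 0 < (r : ℝ) := by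
      by_contra h7
      push Not at h7
      nlinarith
    nlinarith
  refine ⟨ha, hd, ?_⟩
  -- orientation
  have h5 : c'.x.1 * c'.e.2 - c'.x.2 * c'.e.1 =
      ((a : ℝ) * d - b * r) * (c.x.1 * c.e.2 - c.x.2 * c.e.1) := by
    rw [hx, he]
    simp only [Prod.fst_add, Prod.smul_fst, smul_eq_mul, Prod.snd_add, Prod.smul_snd]
    ring
  have h6 : c'.x.1 * c'.e.2 - c'.x.2 * c'.e.1 < 0 := by
    have := mul_neg_of_pos_of_neg c'.hx1 c'.he2
    have := mul_pos c'.hx2 c'.he1
    linarith
  have h7 : c.x.1 * c.e.2 - c.x.2 * c.e.1 < 0 := by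
    have := mul_neg_of_pos_of_neg c.hx1 c.he2
    have := mul_pos c.hx2 c.he1
    linarith
  rw [h5] at h6
  have h8 : 0 < (a : ℝ) * d - b * r := by
    by_contra h9
    push Not at h9
    nlinarith
  exact_mod_cast h8

/-- River lemma, nonnegative case. -/
theorem river_nonneg (N : ℕ) : ∀ (c c' : Chain) (a b r d : ℤ), a * d - b * r = 1 →
    0 ≤ b → 0 ≤ r → b + r ≤ N →
    c'.x = (a : ℝ) • c.x + (b : ℝ) • c.e → c'.e = (r : ℝ) • c.x + (d : ℝ) • c.e →
    ∃ n : ℕ, c' = (TE ^ n) c := by
  induction N with
  | zero =>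
    intro c c' a b r d hdet hb hr hN hx he
    have hb0 : b = 0 := by push_cast at hN; omega
    have hr0 : r = 0 := by push_cast at hN; omega
    obtain ⟨ha, hd, _⟩ := sign_pattern c c' a b r d hx he
    subst hb0 hr0
    have had : a * d = 1 := by linarith
    have ha1 : a = 1 := by nlinarith
    have hd1 : d = 1 := by rw [ha1] at had; linarith
    refine ⟨0, ?_⟩
    subst ha1 hd1
    apply Chain.ext
    · simpa using hx
    · simpa using he
  | succ N ih =>
    intro c c' a b r d hdet hb hr hN hx he
    obtain ⟨ha, hd, _⟩ := sign_pattern c c' a b r d hx he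
    by_cases h0 : b = 0 ∧ r = 0
    · exact ih c c' a b r d hdet hb hr (by rw [h0.1, h0.2]; positivity) hx he
    · rcases S_cases c' with ⟨h, h1, h2⟩ | ⟨h, h1, h2⟩
      · -- (x, e - x) : (a, b, r - a, d - b)
        have hx' : (S c').x = (a : ℝ) • c.x + (b : ℝ) • c.e := by rw [h1, hx]
        have he' : (S c').e = ((r - a : ℤ) : ℝ) • c.x + ((d - b : ℤ) : ℝ) • c.e := by
          rw [h2, hx, he]
          push_cast
          module
        obtain ⟨ha', hd', _⟩ := sign_pattern c (S c') a b (r - a) (d - b) hx' he'
        have hdet' : a * (d - b) - b * (r - a) = 1 := by linarith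
        have hr' : 0 ≤ r - a := by
          rcases eq_or_lt_of_le hb with hb0 | hb0
          · -- b = 0
            rw [← hb0] at hdet'
            have h3 : a * (d - 0) = 1 := by linarith
            have h4 : a = 1 := by nlinarith
            have h5 : r ≠ 0 := fun h6 => h0 ⟨hb0.symm, h6⟩
            omega
          · by_contra hcon
            push Not at hcon
            nlinarith
        obtain ⟨n, hn⟩ := ih c (S c') a b (r - a) (d - b) hdet' hb hr'
          (by push_cast at hN; omega) hx' he'
        refine ⟨n + 1, ?_⟩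
        rw [pow_succ', Equiv.Perm.mul_apply, ← hn, TE_apply, T_S]
      · -- (x - e, e) : (a - r, b - d, r, d)
        have hx' : (S c').x = ((a - r : ℤ) : ℝ) • c.x + ((b - d : ℤ) : ℝ) • c.e := by
          rw [h1, hx, he]
          push_cast
          module
        have he' : (S c').e = (r : ℝ) • c.x + (d : ℝ) • c.e := by rw [h2, he]
        obtain ⟨ha', hd', _⟩ := sign_pattern c (S c') (a - r) (b - d) r d hx' he'
        have hdet' : (a - r) * d - (b - d) * r = 1 := by linarith
        have hb' : 0 ≤ b - d := by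
          rcases eq_or_lt_of_le hr with hr0 | hr0
          · rw [← hr0] at hdet'
            have h3 : (a - 0) * d = 1 := by linarith
            have h4 : d = 1 := by nlinarith
            have h5 : b ≠ 0 := fun h6 => h0 ⟨h6, hr0.symm⟩
            omega
          · by_contra hcon
            push Not at hcon
            nlinarith
        obtain ⟨n, hn⟩ := ih c (S c') (a - r) (b - d) r d hdet' hb' hr
          (by push_cast at hN; omega) hx' he'
        refine ⟨n + 1, ?_⟩
        rw [pow_succ', Equiv.Perm.mul_apply, ← hn, TE_apply, T_S]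

/-- River lemma: two chain elements of the same lattice differ by a power of the shift. -/
theorem river (c c' : Chain) (h : SameLat c c') : ∃ n : ℤ, c' = (TE ^ n) c := by
  obtain ⟨a, b, r, d, hdet, hx, he⟩ := h
  obtain ⟨ha, hd, hpos⟩ := sign_pattern c c' a b r d hx he
  have hdet1 : a * d - b * r = 1 := by
    rcases hdet with h | h
    · exact h
    · omega
  rcases le_or_gt 0 b with hb | hb
  · rcases le_or_gt 0 r with hr | hr
    · obtain ⟨n, hn⟩ := river_nonneg (b + r).toNat c c' a b r d hdet1 hb hr
        (by omega) hx he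
      exact ⟨n, by rw [zpow_natCast]; exact hn⟩
    · -- b ≥ 0, r < 0: then b = 0
      have hb0 : b = 0 := by
        by_contra hne
        have : 0 < b := lt_of_le_of_ne hb (Ne.symm hne)
        nlinarith
      -- inverse matrix (d, -b, -r, a)
      have h' := sameLat_symm ⟨a, b, r, d, Or.inl hdet1, hx, he⟩
      have hdet1' : (a : ℝ) * d - b * r = 1 := by exact_mod_cast hdet1
      obtain ⟨n, hn⟩ := river_nonneg (-r).toNat c' c d (-b) (-r) a (by linarith) (by omega)
        (by omega) (by omega)
        (by
          rw [hx, he]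
          ext
          · simp only [Prod.fst_add, Prod.smul_fst, smul_eq_mul]
            push_cast
            linear_combination (-c.x.1) * hdet1'
          · simp only [Prod.snd_add, Prod.smul_snd, smul_eq_mul]
            push_cast
            linear_combination (-c.x.2) * hdet1')
        (by
          rw [hx, he]
          ext
          · simp only [Prod.fst_add, Prod.smul_fst, smul_eq_mul]
            push_cast
            linear_combination (-c.e.1) * hdet1'
          · simp only [Prod.snd_add, Prod.smul_snd, smul_eq_mul]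
            push_cast
            linear_combination (-c.e.2) * hdet1')
      refine ⟨-(n : ℤ), ?_⟩
      rw [hn, zpow_neg, zpow_natCast]
      exact ((TE ^ n).symm_apply_apply c').symm
  · -- b < 0 : r ≤ 0
    have hr : r ≤ 0 := by
      by_contra hcon
      push Not at hcon
      nlinarith
    have hdet1' : (a : ℝ) * d - b * r = 1 := by exact_mod_cast hdet1
    obtain ⟨n, hn⟩ := river_nonneg (-b + -r).toNat c' c d (-b) (-r) a (by linarith) (by omega)
        (by omega) (by omega)
        (by
          rw [hx, he]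
          ext
          · simp only [Prod.fst_add, Prod.smul_fst, smul_eq_mul]
            push_cast
            linear_combination (-c.x.1) * hdet1'
          · simp only [Prod.snd_add, Prod.smul_snd, smul_eq_mul]
            push_cast
            linear_combination (-c.x.2) * hdet1')
        (by
          rw [hx, he]
          ext
          · simp only [Prod.fst_add, Prod.smul_fst, smul_eq_mul]
            push_cast
            linear_combination (-c.e.1) * hdet1'
          · simp only [Prod.snd_add, Prod.smul_snd, smul_eq_mul]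
            push_cast
            linear_combination (-c.e.2) * hdet1')
    refine ⟨-(n : ℤ), ?_⟩
    rw [hn, zpow_neg, zpow_natCast]
    exact ((TE ^ n).symm_apply_apply c').symm

/-! ### Size, scaling, conjugation -/

/-- Size of a chain element. -/
def size (c : Chain) : ℝ := c.x.1 + c.e.1

theorem size_pos (c : Chain) : 0 < c.size := by
  have := c.hx1; have := c.he1
  unfold size; linarith

theorem size_T (c : Chain) : c.size < (T c).size := by
  have h3 := c.hx1
  have h4 := c.he1
  unfold size
  rcases T_cases c with ⟨_, h1, h2⟩ | ⟨_, h1, h2⟩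
  · rw [h1, h2]; simp only [Prod.fst_add]; linarith
  · rw [h1, h2]; simp only [Prod.fst_add]; linarith

theorem size_TE_pow (c : Chain) (n : ℕ) (hn : 0 < n) : c.size < ((TE ^ n) c).size := by
  induction n with
  | zero => omega
  | succ n ih =>
    rcases Nat.eq_zero_or_pos n with h | h
    · subst h
      simpa using size_T c
    · rw [pow_succ', Equiv.Perm.mul_apply]
      exact (ih h).trans (size_T _)

theorem size_TE_zpow (c : Chain) (n : ℤ) (hn : 0 < n) : c.size < ((TE ^ n) c).size := by
  obtain ⟨m, rfl⟩ := Int.eq_ofNat_of_zero_le hn.le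
  rw [zpow_natCast]
  exact size_TE_pow c m (by exact_mod_cast hn)

theorem TE_zpow_free (c : Chain) (n : ℤ) (h : (TE ^ n) c = c) : n = 0 := by
  rcases lt_trichotomy n 0 with hn | hn | hn
  · have h1 : (TE ^ (-n)) c = c := by
      rw [zpow_neg]
      conv_lhs => rw [← h]
      exact (TE ^ n).symm_apply_apply c
    have := size_TE_zpow c (-n) (by omega)
    rw [h1] at this
    exact absurd this (lt_irrefl _)
  · exact hn
  · have := size_TE_zpow c n hn
    rw [h] at this
    exact absurd this (lt_irrefl _)

theorem TE_zpow_inj (c : Chain) (n m : ℤ) (h : (TE ^ n) c = (TE ^ m) c) : n = m := by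
  have h1 : (TE ^ (n - m)) c = c := by
    rw [sub_eq_add_neg, add_comm, zpow_add, Equiv.Perm.mul_apply, h, zpow_neg]
    exact (TE ^ m).symm_apply_apply c
  have := TE_zpow_free c _ h1
  omega

/-- Scaling by an element with positive first component and nonzero second component. -/
noncomputable def scale (l : ℝ × ℝ) (h1 : 0 < l.1) (h2 : l.2 ≠ 0) (c : Chain) : Chain :=
  if h : 0 < l.2 then
    { x := l * c.x
      e := l * c.e
      hx1 := mul_pos h1 c.hx1
      hx2 := mul_pos h c.hx2
      he1 := mul_pos h1 c.he1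
      he2 := mul_neg_of_pos_of_neg h c.he2
      nd1 := fun m n hh => c.nd1 m n (by
        simp only [Prod.fst_mul] at hh
        have : l.1 * ((m : ℝ) * c.x.1 + n * c.e.1) = 0 := by linarith
        exact (mul_eq_zero.1 this).resolve_left h1.ne')
      nd2 := fun m n hh => c.nd2 m n (by
        simp only [Prod.snd_mul] at hh
        have : l.2 * ((m : ℝ) * c.x.2 + n * c.e.2) = 0 := by linarith
        exact (mul_eq_zero.1 this).resolve_left h2) }
  else
    { x := l * c.e
      e := l * c.x
      hx1 := mul_pos h1 c.he1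
      hx2 := mul_pos_of_neg_of_neg (lt_of_le_of_ne (not_lt.1 h) h2) c.he2
      he1 := mul_pos h1 c.hx1
      he2 := mul_neg_of_neg_of_pos (lt_of_le_of_ne (not_lt.1 h) h2) c.hx2
      nd1 := fun m n hh => by
        have := c.nd1 n m (by
          simp only [Prod.fst_mul] at hh
          have : l.1 * ((n : ℝ) * c.x.1 + m * c.e.1) = 0 := by linarith
          exact (mul_eq_zero.1 this).resolve_left h1.ne')
        exact ⟨this.2, this.1⟩
      nd2 := fun m n hh => by
        have := c.nd2 n m (by
          simp only [Prod.snd_mul] at hh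
          have : l.2 * ((n : ℝ) * c.x.2 + m * c.e.2) = 0 := by linarith
          exact (mul_eq_zero.1 this).resolve_left h2)
        exact ⟨this.2, this.1⟩ }

theorem scale_pos (l : ℝ × ℝ) (h1 : 0 < l.1) (h2 : l.2 ≠ 0) (c : Chain) (h : 0 < l.2) :
    (scale l h1 h2 c).x = l * c.x ∧ (scale l h1 h2 c).e = l * c.e := by
  unfold scale; rw [dif_pos h]; exact ⟨rfl, rfl⟩

theorem scale_neg (l : ℝ × ℝ) (h1 : 0 < l.1) (h2 : l.2 ≠ 0) (c : Chain) (h : l.2 < 0) :
    (scale l h1 h2 c).x = l * c.e ∧ (scale l h1 h2 c).e = l * c.x := by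
  unfold scale; rw [dif_neg (not_lt.2 h.le)]; exact ⟨rfl, rfl⟩

theorem scale_T (l : ℝ × ℝ) (h1 : 0 < l.1) (h2 : l.2 ≠ 0) (c : Chain) :
    scale l h1 h2 (T c) = T (scale l h1 h2 c) := by
  rcases lt_or_gt_of_ne h2 with h | h
  · obtain ⟨a1, a2⟩ := scale_neg l h1 h2 c h
    obtain ⟨b1, b2⟩ := scale_neg l h1 h2 (T c) h
    rcases T_cases c with ⟨hc, c1, c2⟩ | ⟨hc, c1, c2⟩
    · have h3 : 0 < (scale l h1 h2 c).x.2 + (scale l h1 h2 c).e.2 := by
        rw [a1, a2]
        simp only [Prod.snd_mul]
        have := mul_pos_of_neg_of_neg h hc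
        linarith
      obtain ⟨d1, d2⟩ := T_of_gt _ h3
      apply Chain.ext
      · rw [b1, d1, a1, a2, c2]; ring
      · rw [b2, d2, a2, c1]
    · have h3 : (scale l h1 h2 c).x.2 + (scale l h1 h2 c).e.2 < 0 := by
        rw [a1, a2]
        simp only [Prod.snd_mul]
        have := mul_neg_of_neg_of_pos h hc
        linarith
      obtain ⟨d1, d2⟩ := T_of_lt _ h3
      apply Chain.ext
      · rw [b1, d1, a1, c2]
      · rw [b2, d2, a1, a2, c1]; ring
  · obtain ⟨a1, a2⟩ := scale_pos l h1 h2 c h
    obtain ⟨b1, b2⟩ := scale_pos l h1 h2 (T c) h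
    rcases T_cases c with ⟨hc, c1, c2⟩ | ⟨hc, c1, c2⟩
    · have h3 : (scale l h1 h2 c).x.2 + (scale l h1 h2 c).e.2 < 0 := by
        rw [a1, a2]
        simp only [Prod.snd_mul]
        have := mul_neg_of_pos_of_neg h hc
        linarith
      obtain ⟨d1, d2⟩ := T_of_lt _ h3
      apply Chain.ext
      · rw [b1, d1, a1, c1]
      · rw [b2, d2, a1, a2, c2]; ring
    · have h3 : 0 < (scale l h1 h2 c).x.2 + (scale l h1 h2 c).e.2 := by
        rw [a1, a2]
        simp only [Prod.snd_mul]
        have := mul_pos h hc
        linarith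
      obtain ⟨d1, d2⟩ := T_of_gt _ h3
      apply Chain.ext
      · rw [b1, d1, a1, a2, c1]; ring
      · rw [b2, d2, a2, c2]

theorem scale_TE_zpow (l : ℝ × ℝ) (h1 : 0 < l.1) (h2 : l.2 ≠ 0) (c : Chain) (n : ℤ) :
    scale l h1 h2 ((TE ^ n) c) = (TE ^ n) (scale l h1 h2 c) := by
  induction n using Int.induction_on generalizing c with
  | zero => simp
  | succ n ih =>
    rw [zpow_add_one, Equiv.Perm.mul_apply, ih, Equiv.Perm.mul_apply, TE_apply, scale_T]
    rfl
  | pred n ih =>
    rw [zpow_sub_one, Equiv.Perm.mul_apply, ih, Equiv.Perm.mul_apply]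
    congr 1
    have h3 : TE⁻¹ c = S c := rfl
    have h4 : TE⁻¹ (scale l h1 h2 c) = S (scale l h1 h2 c) := rfl
    rw [h3, h4]
    have h5 := scale_T l h1 h2 (S c)
    rw [T_S] at h5
    rw [h5, S_T]

/-- Conjugation. -/
noncomputable def star (c : Chain) : Chain where
  x := (c.x.2, c.x.1)
  e := (-c.e.2, -c.e.1)
  hx1 := c.hx2
  hx2 := c.hx1
  he1 := by have := c.he2; simp only; linarith
  he2 := by have := c.he1; simp only; linarith
  nd1 := fun m n h => by
    have := c.nd2 m (-n) (by push_cast; simp only at h; linarith)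
    omega
  nd2 := fun m n h => by
    have := c.nd1 m (-n) (by push_cast; simp only at h; linarith)
    omega

theorem star_star (c : Chain) : star (star c) = c := by
  apply Chain.ext
  · rfl
  · simp [star]

theorem T_star (c : Chain) : T (star c) = star (S c) := by
  rcases S_cases c with ⟨h, h1, h2⟩ | ⟨h, h1, h2⟩
  · have h3 : (star c).x.2 + (star c).e.2 < 0 := by
      simp only [star]; linarith
    obtain ⟨h4, h5⟩ := T_of_lt _ h3
    apply Chain.ext
    · rw [h4]; simp only [star]; rw [h1]
    · rw [h5]; simp only [star]; rw [h2]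
      ext
      · simp only [Prod.fst_add, Prod.snd_sub]; ring
      · simp only [Prod.snd_add, Prod.fst_sub]; ring
  · have h3 : 0 < (star c).x.2 + (star c).e.2 := by
      simp only [star]; linarith
    obtain ⟨h4, h5⟩ := T_of_gt _ h3
    apply Chain.ext
    · rw [h4]; simp only [star]; rw [h1]
      ext
      · simp only [Prod.fst_add, Prod.snd_sub]; ring
      · simp only [Prod.snd_add, Prod.fst_sub]; ring
    · rw [h5]; simp only [star]; rw [h2]

theorem S_star (c : Chain) : S (star c) = star (T c) := by
  have h := T_star (T c)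
  rw [S_T] at h
  rw [← h, S_T]

theorem star_TE_zpow (c : Chain) (n : ℤ) : star ((TE ^ n) c) = (TE ^ (-n)) (star c) := by
  induction n using Int.induction_on generalizing c with
  | zero => simp
  | succ n ih =>
    rw [zpow_add_one, Equiv.Perm.mul_apply, ih, neg_add, zpow_add, Equiv.Perm.mul_apply]
    congr 1
    rw [TE_apply, ← S_star]
    rfl
  | pred n ih =>
    rw [zpow_sub_one, Equiv.Perm.mul_apply, ih, neg_sub, sub_eq_add_neg, add_comm, zpow_add,
      Equiv.Perm.mul_apply]
    congr 1
    have h3 : TE⁻¹ c = S c := rfl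
    rw [h3, ← T_star]
    simp

end Chain

end Pool.Agent.Lib.MP_6dddb9_nt
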