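import Pool.Agent.Lib.MP_6dddb9_nt.Units

set_option autoImplicit false

/-! Counting forms through orbits. -/

namespace Pool.Agent.Lib.MP_6dddb9_nt

variable {k : ℤ}

/-- Forms with trivial sign. -/
def X (k : ℤ) : Type := {E : Fm k // E.om}

instance : Finite (X k) := inferInstanceAs (Finite {E : Fm k // E.om})

namespace Fm

theorem U_zpow_conj (hD : ¬ IsSquare (4 * k + 1)) (E : Fm k) (n m : ℤ) :
    (U hD ^ m) ((U hD ^ n) E) = (U hD ^ n) E ↔ (U hD ^ m) E = E := by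
  constructor
  · intro h
    have h1 := congrArg (U hD ^ (-n)) h
    rw [← Equiv.Perm.mul_apply, ← Equiv.Perm.mul_apply, ← Equiv.Perm.mul_apply, ← zpow_add,
      ← zpow_add, ← zpow_add] at h1
    have e1 : -n + m + n = m := by ring
    have e2 : -n + n = 0 := by ring
    rw [e1, e2, zpow_zero] at h1
    exact h1
  · intro h
    rw [← Equiv.Perm.mul_apply, ← zpow_add, add_comm, zpow_add, Equiv.Perm.mul_apply, h]

theorem per_eq_of (hD : ¬ IsSquare (4 * k + 1)) (E F : Fm k)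
    (h : ∀ m : ℤ, (U hD ^ m) E = E ↔ (U hD ^ m) F = F) : per hD E = per hD F := by
  apply Nat.dvd_antisymm
  · have := (h (per hD F)).2 (U_zpow_per hD F)
    rw [U_zpow_eq_iff_dvd] at this
    exact_mod_cast this
  · have := (h (per hD E)).1 (U_zpow_per hD E)
    rw [U_zpow_eq_iff_dvd] at this
    exact_mod_cast this

theorem per_U (hD : ¬ IsSquare (4 * k + 1)) (E : Fm k) (n : ℤ) :
    per hD ((U hD ^ n) E) = per hD E :=
  per_eq_of hD _ _ fun m => U_zpow_conj hD E n m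

theorem alp_inj {E F : Fm k} (h : alp E = alp F) : E = F := by
  have := congrArg alp h
  rwa [alp_alp, alp_alp] at this

theorem per_alp (hD : ¬ IsSquare (4 * k + 1)) (E : Fm k) : per hD (alp E) = per hD E := by
  apply per_eq_of
  intro m
  rw [alp_U]
  constructor
  · intro h
    have h1 := alp_inj h
    rw [U_zpow_eq_iff_dvd] at h1 ⊢
    exact (dvd_neg.1 h1)
  · intro h
    rw [U_zpow_eq_iff_dvd] at h
    have h1 : (U hD ^ (-m)) E = E := (U_zpow_eq_iff_dvd hD E _).2 (dvd_neg.2 h)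
    rw [h1]

theorem U_R (hD : ¬ IsSquare (4 * k + 1)) (E : Fm k) (n : ℤ) :
    (U hD ^ n) (R E) = R ((U hD ^ n) E) := by
  have h1 : Commute (RP : Equiv.Perm (Fm k)) (U hD) := by
    unfold U
    exact (Commute.refl _).mul_right (RP_comm hD)
  have h2 := (h1.zpow_right n).eq
  have h3 := congrArg (fun f : Equiv.Perm (Fm k) => f E) h2
  simp only [Equiv.Perm.mul_apply, RP_apply] at h3
  exact h3.symm

theorem R_inj {E F : Fm k} (h : R E = R F) : E = F := by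
  have := congrArg R h
  rwa [R_R, R_R] at this

theorem per_R (hD : ¬ IsSquare (4 * k + 1)) (E : Fm k) : per hD (R E) = per hD E := by
  apply per_eq_of
  intro m
  rw [U_R]
  exact ⟨fun h => R_inj h, fun h => by rw [h]⟩

end Fm

/-- The orbit relation. -/
def Xs (hD : ¬ IsSquare (4 * k + 1)) : Setoid (X k) where
  r x y := ∃ n : ℤ, (Fm.U hD ^ n) x.1 = y.1
  iseqv := {
    refl := fun x => ⟨0, rfl⟩
    symm := by
      rintro x y ⟨n, h⟩
      refine ⟨-n, ?_⟩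
      rw [← h, ← Equiv.Perm.mul_apply, ← zpow_add, neg_add_cancel, zpow_zero]
      rfl
    trans := by
      rintro x y z ⟨n, h⟩ ⟨m, h'⟩
      refine ⟨m + n, ?_⟩
      rw [zpow_add, Equiv.Perm.mul_apply, h, h'] }

/-- Classes. -/
abbrev Cl (hD : ¬ IsSquare (4 * k + 1)) : Type := Quotient (Xs hD)

/-- The class of a form. -/
def cl (hD : ¬ IsSquare (4 * k + 1)) (x : X k) : Cl hD := Quotient.mk (Xs hD) x

theorem cl_eq (hD : ¬ IsSquare (4 * k + 1)) (x y : X k) :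
    cl hD x = cl hD y ↔ ∃ n : ℤ, (Fm.U hD ^ n) x.1 = y.1 :=
  ⟨fun h => Quotient.exact h, fun h => Quotient.sound h⟩

instance (hD : ¬ IsSquare (4 * k + 1)) : Finite (Cl hD) := Quotient.finite _

/-- The number of forms in a class. -/
theorem card_fiber (hD : ¬ IsSquare (4 * k + 1)) (e : X k) :
    Nat.card {x : X k // cl hD x = cl hD e} = Fm.per hD e.1 := by
  have hper := Fm.per_pos hD e.1
  have hmem : ∀ n : ℤ, ((Fm.U hD ^ n) e.1).om := fun n => (Fm.om_U_zpow hD e.1 n).2 e.2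
  let f : Fin (Fm.per hD e.1) → {x : X k // cl hD x = cl hD e} := fun i =>
    ⟨⟨(Fm.U hD ^ (i.1 : ℤ)) e.1, hmem _⟩, ((cl_eq hD _ _).2 ⟨(i.1 : ℤ), rfl⟩).symm⟩
  have hf : Function.Bijective f := by
    constructor
    · intro i j hij
      have h1 : (Fm.U hD ^ (i.1 : ℤ)) e.1 = (Fm.U hD ^ (j.1 : ℤ)) e.1 :=
        congrArg (fun t => t.1.1) hij
      have h2 : (Fm.U hD ^ ((i.1 : ℤ) - j.1)) e.1 = e.1 := by
        rw [sub_eq_neg_add, zpow_add, Equiv.Perm.mul_apply, h1, ← Equiv.Perm.mul_apply, ← zpow_add,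
          neg_add_cancel, zpow_zero]
        rfl
      rw [Fm.U_zpow_eq_iff_dvd] at h2
      have hi := i.2
      have hj := j.2
      have h3 : (i.1 : ℤ) - j.1 = 0 := by
        apply Int.eq_zero_of_abs_lt_dvd h2
        rw [abs_lt]
        constructor <;> omega
      apply Fin.ext
      omega
    · rintro ⟨x, hx⟩
      obtain ⟨n, hn⟩ := (cl_eq hD _ _).1 hx.symm
      have hpos : (0 : ℤ) < Fm.per hD e.1 := by exact_mod_cast hper
      have h1 := Int.emod_nonneg n hpos.ne'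
      have h2 := Int.emod_lt_of_pos n hpos
      refine ⟨⟨(n % Fm.per hD e.1).toNat, by omega⟩, ?_⟩
      apply Subtype.ext
      apply Subtype.ext
      show (Fm.U hD ^ ((n % Fm.per hD e.1).toNat : ℤ)) e.1 = x.1
      rw [Int.toNat_of_nonneg h1, ← hn]
      have h3 : n = n % Fm.per hD e.1 + (Fm.per hD e.1) * (n / Fm.per hD e.1) :=
        (Int.emod_add_mul_ediv n _).symm
      conv_rhs => rw [h3, zpow_add, Equiv.Perm.mul_apply,
        (Fm.U_zpow_eq_iff_dvd hD e.1 _).2 (dvd_mul_right _ _)]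
  rw [← Nat.card_eq_of_bijective f hf, Nat.card_fin]

/-- Period of a class. -/
noncomputable def perC (hD : ¬ IsSquare (4 * k + 1)) (c : Cl hD) : ℕ := Fm.per hD c.out.1

theorem perC_cl (hD : ¬ IsSquare (4 * k + 1)) (x : X k) : perC hD (cl hD x) = Fm.per hD x.1 := by
  have h : cl hD (cl hD x).out = cl hD x := Quotient.out_eq _
  obtain ⟨n, hn⟩ := (cl_eq hD _ _).1 h
  unfold perC
  rw [← hn, Fm.per_U]

theorem card_X (hD : ¬ IsSquare (4 * k + 1)) [Fintype (Cl hD)] :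
    Nat.card (X k) = ∑ c : Cl hD, perC hD c := by
  rw [← Nat.card_congr (Equiv.sigmaFiberEquiv (cl hD)), Nat.card_sigma]
  apply Finset.sum_congr rfl
  intro c _
  obtain ⟨x, rfl⟩ : ∃ x, cl hD x = c := ⟨c.out, Quotient.out_eq _⟩
  rw [card_fiber, perC_cl]

/-- `alp` on `X`. -/
def alpX (x : X k) : X k := ⟨Fm.alp x.1, (Fm.om_alp x.1).2 x.2⟩

/-- The involution on classes. -/
def sig (hD : ¬ IsSquare (4 * k + 1)) : Cl hD → Cl hD :=
  Quotient.map alpX (by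
    rintro x y ⟨n, h⟩
    refine ⟨-n, ?_⟩
    show (Fm.U hD ^ (-n)) (Fm.alp x.1) = Fm.alp y.1
    rw [Fm.alp_U, neg_neg, h])

theorem sig_cl (hD : ¬ IsSquare (4 * k + 1)) (x : X k) : sig hD (cl hD x) = cl hD (alpX x) := rfl

theorem sig_sig (hD : ¬ IsSquare (4 * k + 1)) (c : Cl hD) : sig hD (sig hD c) = c := by
  obtain ⟨x, rfl⟩ : ∃ x, cl hD x = c := ⟨c.out, Quotient.out_eq _⟩
  rfl

theorem perC_sig (hD : ¬ IsSquare (4 * k + 1)) (c : Cl hD) : perC hD (sig hD c) = perC hD c := by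
  obtain ⟨x, rfl⟩ : ∃ x, cl hD x = c := ⟨c.out, Quotient.out_eq _⟩
  rw [sig_cl, perC_cl, perC_cl]
  exact Fm.per_alp hD x.1

/-- Fixed classes contain symmetric points. -/
theorem fixed_class (hD : ¬ IsSquare (4 * k + 1)) (x : X k) (h : sig hD (cl hD x) = cl hD x) :
    ∃ y : X k, cl hD y = cl hD x ∧ (Fm.alp y.1 = y.1 ∨ Fm.U hD (Fm.alp y.1) = y.1) := by
  rw [sig_cl] at h
  obtain ⟨n, hn⟩ := (cl_eq hD _ _).1 h.symm
  -- U^n x = alp x
  change (Fm.U hD ^ n) x.1 = Fm.alp x.1 at hn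
  have hmem : ∀ n : ℤ, ((Fm.U hD ^ n) x.1).om := fun n => (Fm.om_U_zpow hD x.1 n).2 x.2
  rcases Int.even_or_odd' n with ⟨j, hj | hj⟩
  · refine ⟨⟨(Fm.U hD ^ j) x.1, hmem j⟩, ((cl_eq hD _ _).2 ⟨j, rfl⟩).symm, Or.inl ?_⟩
    show Fm.alp ((Fm.U hD ^ j) x.1) = (Fm.U hD ^ j) x.1
    have h1 := Fm.alp_U hD x.1 (-j)
    rw [neg_neg] at h1
    rw [← h1, ← hn, ← Equiv.Perm.mul_apply, ← zpow_add]
    congr 2
    omega
  · refine ⟨⟨(Fm.U hD ^ (j + 1)) x.1, hmem (j + 1)⟩, ((cl_eq hD _ _).2 ⟨j + 1, rfl⟩).symm, Or.inr ?_⟩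
    show Fm.U hD (Fm.alp ((Fm.U hD ^ (j + 1)) x.1)) = (Fm.U hD ^ (j + 1)) x.1
    have h1 := Fm.alp_U hD x.1 (-(j + 1))
    rw [neg_neg] at h1
    rw [← h1, ← hn, ← Equiv.Perm.mul_apply, ← zpow_one_add, ← Equiv.Perm.mul_apply, ← zpow_add]
    congr 2
    omega

/-- Symmetric points inside a class of type `P`. -/
theorem alp_pow_iff (hD : ¬ IsSquare (4 * k + 1)) (E : Fm k) (h : Fm.alp E = E) (i : ℤ) :
    Fm.alp ((Fm.U hD ^ i) E) = (Fm.U hD ^ i) E ↔ (Fm.per hD E : ℤ) ∣ 2 * i := by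
  have h1 := Fm.alp_U hD E (-i)
  rw [neg_neg, h] at h1
  rw [← h1, ← Fm.U_zpow_eq_iff_dvd]
  constructor
  · intro h2
    have := congrArg (Fm.U hD ^ i) h2
    rw [← Equiv.Perm.mul_apply, ← Equiv.Perm.mul_apply, ← zpow_add, ← zpow_add, add_neg_cancel,
      zpow_zero, ← two_mul] at this
    exact this.symm
  · intro h2
    have := congrArg (Fm.U hD ^ (-i)) h2
    rw [← Equiv.Perm.mul_apply, ← zpow_add] at this
    rw [← this]
    congr 2
    ring

theorem Ualp_pow_iff_of_alp (hD : ¬ IsSquare (4 * k + 1)) (E : Fm k) (h : Fm.alp E = E) (i : ℤ) :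
    Fm.U hD (Fm.alp ((Fm.U hD ^ i) E)) = (Fm.U hD ^ i) E ↔ (Fm.per hD E : ℤ) ∣ 2 * i - 1 := by
  have h1 := Fm.alp_U hD E (-i)
  rw [neg_neg, h] at h1
  rw [← h1, ← Fm.U_zpow_eq_iff_dvd, ← Equiv.Perm.mul_apply, ← zpow_one_add]
  constructor
  · intro h2
    have := congrArg (Fm.U hD ^ (i - 1)) h2
    rw [← Equiv.Perm.mul_apply, ← Equiv.Perm.mul_apply, ← zpow_add, ← zpow_add] at this
    have e1 : i - 1 + (1 + -i) = 0 := by ring
    have e2 : i - 1 + i = 2 * i - 1 := by ring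
    rw [e1, e2, zpow_zero] at this
    exact this.symm
  · intro h2
    have := congrArg (Fm.U hD ^ (1 + -i)) h2
    rw [← Equiv.Perm.mul_apply, ← zpow_add] at this
    rw [← this]
    congr 2
    ring

theorem Ualp_pow_iff (hD : ¬ IsSquare (4 * k + 1)) (E : Fm k) (h : Fm.U hD (Fm.alp E) = E) (i : ℤ) :
    Fm.U hD (Fm.alp ((Fm.U hD ^ i) E)) = (Fm.U hD ^ i) E ↔ (Fm.per hD E : ℤ) ∣ 2 * i := by
  have h1 := Fm.alp_U hD E (-i)
  rw [neg_neg] at h1
  have h3 : Fm.U hD ((Fm.U hD ^ (-i)) (Fm.alp E)) = (Fm.U hD ^ (-i)) E := by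
    conv_rhs => rw [← h]
    rw [← Equiv.Perm.mul_apply, ← Equiv.Perm.mul_apply, ← zpow_one_add, ← zpow_add_one]
    congr 2
    ring
  rw [← h1, h3, ← Fm.U_zpow_eq_iff_dvd]
  constructor
  · intro h2
    have := congrArg (Fm.U hD ^ i) h2
    rw [← Equiv.Perm.mul_apply, ← Equiv.Perm.mul_apply, ← zpow_add, ← zpow_add, add_neg_cancel,
      zpow_zero, ← two_mul] at this
    exact this.symm
  · intro h2
    have := congrArg (Fm.U hD ^ (-i)) h2
    rw [← Equiv.Perm.mul_apply, ← zpow_add] at this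
    rw [← this]
    congr 2
    ring

end Pool.Agent.Lib.MP_6dddb9_nt
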