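import Pool.Agent.Lib.MP_6dddb9_nt.Count

set_option autoImplicit false

/-! Counting modulo four. -/

namespace Pool.Agent.Lib.MP_6dddb9_nt

theorem sum_fixed {C M : Type*} [DecidableEq C] [AddCommMonoid M] (S : Finset C) (σ : C → C)
    (h1 : ∀ c, σ (σ c) = c) (h2 : ∀ c ∈ S, σ c ∈ S) (f : C → M)
    (h3 : ∀ c ∈ S, σ c ≠ c → f c + f (σ c) = 0) :
    ∑ c ∈ S, f c = ∑ c ∈ S with σ c = c, f c := by
  rw [← Finset.sum_filter_add_sum_filter_not S (fun c => σ c = c) f]
  have : ∑ c ∈ S with ¬ σ c = c, f c = 0 := by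
    refine Finset.sum_involution (fun c _ => σ c) ?_ ?_ ?_ ?_
    · intro c hc
      rw [Finset.mem_filter] at hc
      exact h3 c hc.1 hc.2
    · intro c hc _
      rw [Finset.mem_filter] at hc
      exact hc.2
    · intro c hc
      rw [Finset.mem_filter] at hc ⊢
      refine ⟨h2 c hc.1, ?_⟩
      rw [h1]
      exact fun h => hc.2 h.symm
    · intro c hc
      exact h1 c
  rw [this, add_zero]

/-- Two-to-one count with a sign character. -/
theorem card_mod4 {C : Type*} [Fintype C] [DecidableEq C] (σ : C → C) (h1 : ∀ c, σ (σ c) = c)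
    (χ : C → ℤ) (hχ : ∀ c, χ c = 1 ∨ χ c = -1) (hχσ : ∀ c, χ (σ c) = χ c)
    (M : C → C) (hM : Function.Injective M) (hMχ : ∀ c, χ (M c) = -χ c)
    (a b : C) (hab : a ≠ b) (ha : σ a = a) (hb : σ b = b) (hfix : ∀ c, σ c = c → c = a ∨ c = b)
    (hχa : χ a = 1) : ((Fintype.card C : ℤ) : ZMod 4) = ((1 - χ b : ℤ) : ZMod 4) := by
  set P := Finset.univ.filter (fun c : C => χ c = 1) with hP
  set N := Finset.univ.filter (fun c : C => χ c = -1) with hN
  have hPN : P.card = N.card := by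
    apply le_antisymm
    · apply Finset.card_le_card_of_injOn M
      · intro c hc
        simp only [hP, Finset.coe_filter, Finset.mem_univ, true_and, Set.mem_ofPred_eq] at hc
        simp only [hN, Finset.coe_filter, Finset.mem_univ, true_and, Set.mem_ofPred_eq]
        rw [hMχ, hc]
      · exact hM.injOn
    · apply Finset.card_le_card_of_injOn M
      · intro c hc
        simp only [hN, Finset.coe_filter, Finset.mem_univ, true_and, Set.mem_ofPred_eq] at hc
        simp only [hP, Finset.coe_filter, Finset.mem_univ, true_and, Set.mem_ofPred_eq]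
        rw [hMχ, hc]; norm_num
      · exact hM.injOn
  have hcard : Fintype.card C = P.card + N.card := by
    have : N = Finset.univ.filter (fun c : C => ¬ χ c = 1) := by
      ext c
      simp only [hN, Finset.mem_filter, Finset.mem_univ, true_and]
      rcases hχ c with h | h <;> rw [h] <;> norm_num
    rw [this, hP, Finset.card_filter_add_card_filter_not, Finset.card_univ]
  -- parity of P
  have hpar : ((P.card : ℕ) : ZMod 2) = (((P.filter (fun c => σ c = c)).card : ℕ) : ZMod 2) := by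
    have := sum_fixed (M := ZMod 2) P σ h1 (by
      intro c hc
      simp only [hP, Finset.mem_filter, Finset.mem_univ, true_and] at hc ⊢
      rw [hχσ, hc]) (fun _ => 1) (by intro c _ _; decide)
    simpa using this
  have hfilter : (P.filter (fun c => σ c = c)) = if χ b = 1 then {a, b} else {a} := by
    split_ifs with h
    · ext c
      simp only [hP, Finset.mem_filter, Finset.mem_univ, true_and, Finset.mem_insert,
        Finset.mem_singleton]
      constructor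
      · exact fun hc => hfix c hc.2
      · rintro (rfl | rfl)
        · exact ⟨hχa, ha⟩
        · exact ⟨h, hb⟩
    · ext c
      simp only [hP, Finset.mem_filter, Finset.mem_univ, true_and, Finset.mem_singleton]
      constructor
      · rintro ⟨hc, hc'⟩
        rcases hfix c hc' with rfl | rfl
        · rfl
        · exact absurd hc h
      · rintro rfl
        exact ⟨hχa, ha⟩
  rw [hfilter] at hpar
  rw [hcard, ← hPN]
  have key : ∀ (m t : ℕ), ((m : ℕ) : ZMod 2) = ((t : ℕ) : ZMod 2) →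
      (((m + m : ℕ) : ℤ) : ZMod 4) = (((t + t : ℕ) : ℤ) : ZMod 4) := by
    intro m t h
    rw [ZMod.natCast_eq_natCast_iff] at h
    rw [ZMod.intCast_eq_intCast_iff]
    unfold Nat.ModEq at h
    unfold Int.ModEq
    omega
  rw [key _ _ hpar]
  split_ifs with h
  · rw [Finset.card_pair hab, h]; decide
  · have h' : χ b = -1 := (hχ b).resolve_left h
    rw [Finset.card_singleton, h']; decide

variable {k : ℤ}

theorem odd_total (hD : ¬ IsSquare (4 * k + 1)) (F₁ F₂ : X k)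
    (hF₁ : Fm.U hD (Fm.alp F₁.1) = F₁.1) (hF₂ : Fm.U hD (Fm.alp F₂.1) = F₂.1) (hne : F₁.1 ≠ F₂.1)
    (hall : ∀ x : X k, Fm.U hD (Fm.alp x.1) = x.1 → x.1 = F₁.1 ∨ x.1 = F₂.1)
    (hodd : ∀ E : Fm k, Odd (Fm.per hD E))
    (χ : Cl hD → ℤ) (hχ : ∀ c, χ c = 1 ∨ χ c = -1) (hχσ : ∀ c, χ (sig hD c) = χ c)
    (M : Cl hD → Cl hD) (hM : Function.Injective M) (hMχ : ∀ c, χ (M c) = -χ c)
    (h1 : χ (cl hD F₁) = 1) :
    ((Nat.card (X k) : ℤ) : ZMod 4) = ((1 - χ (cl hD F₂) + (Fm.per hD F₁.1 + Fm.per hD F₂.1 - 2) : ℤ) :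
      ZMod 4) ∧ cl hD F₁ ≠ cl hD F₂ := by
  classical
  have : Fintype (Cl hD) := Fintype.ofFinite _
  -- fixed classes
  have hfixQ : ∀ x : X k, Fm.U hD (Fm.alp x.1) = x.1 → sig hD (cl hD x) = cl hD x := by
    intro x hx
    rw [sig_cl]
    refine (cl_eq hD _ _).2 ⟨1, ?_⟩
    rw [zpow_one]
    exact hx
  have hfix : ∀ c, sig hD c = c → c = cl hD F₁ ∨ c = cl hD F₂ := by
    intro c hc
    obtain ⟨x, rfl⟩ : ∃ x, cl hD x = c := ⟨c.out, Quotient.out_eq _⟩
    obtain ⟨y, hy, hy'⟩ := fixed_class hD x hc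
    have key : ∀ y : X k, Fm.U hD (Fm.alp y.1) = y.1 → cl hD y = cl hD F₁ ∨ cl hD y = cl hD F₂ := by
      intro y hy
      rcases hall y hy with h | h
      · left; rw [Subtype.ext h]
      · right; rw [Subtype.ext h]
    rw [← hy]
    rcases hy' with h | h
    · -- move to a point of the second kind
      obtain ⟨t, ht⟩ := hodd y.1
      have h2 := (Ualp_pow_iff_of_alp hD y.1 h (t + 1)).2 ⟨1, by rw [ht]; push_cast; ring⟩
      have hmem := (Fm.om_U_zpow hD y.1 (t + 1)).2 y.2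
      have h3 := key ⟨_, hmem⟩ h2
      have h4 : cl hD y = cl hD ⟨(Fm.U hD ^ ((t : ℤ) + 1)) y.1, hmem⟩ :=
        (cl_eq hD _ _).2 ⟨(t : ℤ) + 1, rfl⟩
      rw [h4]
      exact h3
    · exact key y h
  have hab : cl hD F₁ ≠ cl hD F₂ := by
    intro h
    obtain ⟨i, hi⟩ := (cl_eq hD _ _).1 h
    have h2 := (Ualp_pow_iff hD F₁.1 hF₁ i).1 (by rw [hi]; exact hF₂)
    have hcop : IsCoprime (Fm.per hD F₁.1 : ℤ) 2 := by
      obtain ⟨t, ht⟩ := hodd F₁.1
      exact ⟨1, -t, by rw [ht]; push_cast; ring⟩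
    have h3 := hcop.dvd_of_dvd_mul_left h2
    rw [← Fm.U_zpow_eq_iff_dvd, hi] at h3
    exact hne h3.symm
  have hcard := card_mod4 (sig hD) (sig_sig hD) χ hχ hχσ M hM hMχ _ _ hab (hfixQ _ hF₁) (hfixQ _ hF₂)
    hfix h1
  refine ⟨?_, hab⟩
  rw [card_X hD]
  have hsum := sum_fixed (M := ZMod 4) (Finset.univ : Finset (Cl hD)) (sig hD) (sig_sig hD)
    (fun _ _ => Finset.mem_univ _) (fun c => ((perC hD c : ℕ) : ZMod 4) - 1) (by
      intro c _ _
      rw [perC_sig]
      obtain ⟨x, rfl⟩ : ∃ x, cl hD x = c := ⟨c.out, Quotient.out_eq _⟩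
      rw [perC_cl]
      obtain ⟨t, ht⟩ := hodd x.1
      rw [ht]
      push_cast
      have : (2 * (t : ZMod 4) + 1 - 1 + (2 * t + 1 - 1)) = 4 * t := by ring
      rw [this]
      have : (4 : ZMod 4) = 0 := by decide
      rw [this, zero_mul])
  have hfilter : (Finset.univ.filter (fun c : Cl hD => sig hD c = c)) = {cl hD F₁, cl hD F₂} := by
    ext c
    simp only [Finset.mem_filter, Finset.mem_univ, true_and, Finset.mem_insert,
      Finset.mem_singleton]
    constructor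
    · exact hfix c
    · rintro (rfl | rfl)
      · exact hfixQ _ hF₁
      · exact hfixQ _ hF₂
  rw [hfilter, Finset.sum_pair hab, Finset.sum_sub_distrib, perC_cl, perC_cl] at hsum
  simp only [Finset.sum_const, Finset.card_univ, nsmul_eq_mul, mul_one] at hsum
  push_cast at hcard hsum ⊢
  have e1 : ∑ c : Cl hD, ((perC hD c : ℕ) : ZMod 4) = (Fintype.card (Cl hD) : ZMod 4) +
      (((Fm.per hD F₁.1 : ℕ) : ZMod 4) - 1 + (((Fm.per hD F₂.1 : ℕ) : ZMod 4) - 1)) := by
    rw [← hsum]; ring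
  rw [e1, hcard]
  ring

theorem even_total (hD : ¬ IsSquare (4 * k + 1)) (F₁ F₂ A₁ A₂ : X k)
    (hF₁ : Fm.U hD (Fm.alp F₁.1) = F₁.1)
    (hallF : ∀ x : X k, Fm.U hD (Fm.alp x.1) = x.1 → x.1 = F₁.1 ∨ x.1 = F₂.1)
    (hA₁ : Fm.alp A₁.1 = A₁.1)
    (hallA : ∀ x : X k, Fm.alp x.1 = x.1 → x.1 = A₁.1 ∨ x.1 = A₂.1)
    (heven : ∀ E : Fm k, Even (Fm.per hD E)) :
    ((Nat.card (X k) : ℤ) : ZMod 4) = ((Fm.per hD A₁.1 + Fm.per hD F₁.1 : ℤ) : ZMod 4) ∧
    (∃ i : ℤ, 2 * i = Fm.per hD F₁.1 ∧ (Fm.U hD ^ i) F₁.1 = F₂.1) ∧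
    (∃ i : ℤ, 2 * i = Fm.per hD A₁.1 ∧ (Fm.U hD ^ i) A₁.1 = A₂.1) := by
  classical
  have : Fintype (Cl hD) := Fintype.ofFinite _
  have hF : ∃ i : ℤ, 2 * i = Fm.per hD F₁.1 ∧ (Fm.U hD ^ i) F₁.1 = F₂.1 := by
    obtain ⟨t, ht⟩ := heven F₁.1
    have hpos := Fm.per_pos hD F₁.1
    have h1 := (Ualp_pow_iff hD F₁.1 hF₁ t).2 ⟨1, by rw [ht]; push_cast; ring⟩
    have hmem := (Fm.om_U_zpow hD F₁.1 t).2 F₁.2
    refine ⟨t, by rw [ht]; push_cast; ring, ?_⟩
    rcases hallF ⟨_, hmem⟩ h1 with h | h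
    · exfalso
      have h2 : (Fm.U hD ^ (t : ℤ)) F₁.1 = F₁.1 := h
      rw [Fm.U_zpow_eq_iff_dvd] at h2
      have h3 := Int.le_of_dvd (by omega) h2
      omega
    · exact h
  have hA : ∃ i : ℤ, 2 * i = Fm.per hD A₁.1 ∧ (Fm.U hD ^ i) A₁.1 = A₂.1 := by
    obtain ⟨t, ht⟩ := heven A₁.1
    have hpos := Fm.per_pos hD A₁.1
    have h1 := (alp_pow_iff hD A₁.1 hA₁ t).2 ⟨1, by rw [ht]; push_cast; ring⟩
    have hmem := (Fm.om_U_zpow hD A₁.1 t).2 A₁.2
    refine ⟨t, by rw [ht]; push_cast; ring, ?_⟩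
    rcases hallA ⟨_, hmem⟩ h1 with h | h
    · exfalso
      have h2 : (Fm.U hD ^ (t : ℤ)) A₁.1 = A₁.1 := h
      rw [Fm.U_zpow_eq_iff_dvd] at h2
      have h3 := Int.le_of_dvd (by omega) h2
      omega
    · exact h
  refine ⟨?_, hF, hA⟩
  obtain ⟨iF, _, hiF⟩ := hF
  obtain ⟨iA, _, hiA⟩ := hA
  have hclF : cl hD F₂ = cl hD F₁ := ((cl_eq hD _ _).2 ⟨iF, hiF⟩).symm
  have hclA : cl hD A₂ = cl hD A₁ := ((cl_eq hD _ _).2 ⟨iA, hiA⟩).symm
  have hfix : ∀ c, sig hD c = c → c = cl hD A₁ ∨ c = cl hD F₁ := by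
    intro c hc
    obtain ⟨x, rfl⟩ : ∃ x, cl hD x = c := ⟨c.out, Quotient.out_eq _⟩
    obtain ⟨y, hy, hy'⟩ := fixed_class hD x hc
    rw [← hy]
    rcases hy' with h | h
    · left
      rcases hallA y h with h | h
      · rw [Subtype.ext h]
      · rw [Subtype.ext h]; exact hclA
    · right
      rcases hallF y h with h | h
      · rw [Subtype.ext h]
      · rw [Subtype.ext h]; exact hclF
  have hab : cl hD A₁ ≠ cl hD F₁ := by
    intro h
    obtain ⟨i, hi⟩ := (cl_eq hD _ _).1 h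
    have h2 := (Ualp_pow_iff_of_alp hD A₁.1 hA₁ i).1 (by rw [hi]; exact hF₁)
    obtain ⟨t, ht⟩ := heven A₁.1
    obtain ⟨w, hw⟩ := h2
    rw [ht] at hw
    push_cast at hw
    have : 2 * ((t : ℤ) * w) = 2 * i - 1 := by linear_combination -hw
    omega
  have hfixA : sig hD (cl hD A₁) = cl hD A₁ := by
    rw [sig_cl]
    exact (cl_eq hD _ _).2 ⟨0, by rw [zpow_zero]; exact hA₁⟩
  have hfixF : sig hD (cl hD F₁) = cl hD F₁ := by
    rw [sig_cl]
    refine (cl_eq hD _ _).2 ⟨1, ?_⟩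
    rw [zpow_one]
    exact hF₁
  rw [card_X hD]
  have hsum := sum_fixed (M := ZMod 4) (Finset.univ : Finset (Cl hD)) (sig hD) (sig_sig hD)
    (fun _ _ => Finset.mem_univ _) (fun c => ((perC hD c : ℕ) : ZMod 4)) (by
      intro c _ _
      rw [perC_sig]
      obtain ⟨x, rfl⟩ : ∃ x, cl hD x = c := ⟨c.out, Quotient.out_eq _⟩
      rw [perC_cl]
      obtain ⟨t, ht⟩ := heven x.1
      rw [ht]
      push_cast
      have : ((t : ZMod 4) + t + (t + t)) = 4 * t := by ring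
      rw [this]
      have : (4 : ZMod 4) = 0 := by decide
      rw [this, zero_mul])
  have hfilter : (Finset.univ.filter (fun c : Cl hD => sig hD c = c)) = {cl hD A₁, cl hD F₁} := by
    ext c
    simp only [Finset.mem_filter, Finset.mem_univ, true_and, Finset.mem_insert,
      Finset.mem_singleton]
    constructor
    · exact hfix c
    · rintro (rfl | rfl)
      · exact hfixA
      · exact hfixF
  rw [hfilter, Finset.sum_pair hab, perC_cl, perC_cl] at hsum
  push_cast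
  rw [hsum]

end Pool.Agent.Lib.MP_6dddb9_nt
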