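import Mathlib

set_option autoImplicit false

/-! Definitions used in the statement of the congruence for the m-caliber. -/

namespace Pool.Agent.Lib.MP_6dddb9_nt

/-- The set of m-reduced real quadratic irrationals of discriminant `D`: irrational reals `w > 1`
which are a root of a primitive integer polynomial `a X^2 + b X + c`, `a > 0`, of discriminant
`b^2 - 4 a c = D`, and whose conjugate `-b/a - w` lies strictly between `0` and `1`. -/
def mReduced (D : ℤ) : Set ℝ :=
  {w | Irrational w ∧ ∃ a b c : ℤ, 0 < a ∧ Int.gcd (Int.gcd a b) c = 1 ∧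
    (a : ℝ) * w ^ 2 + b * w + c = 0 ∧ b ^ 2 - 4 * a * c = D ∧
    1 < w ∧ 0 < -(b : ℝ) / a - w ∧ -(b : ℝ) / a - w < 1}

/-- The m-caliber: the number of m-reduced quadratic irrationals of discriminant `D`. -/
noncomputable def kappaPlus (D : ℤ) : ℕ := (mReduced D).ncard

end Pool.Agent.Lib.MP_6dddb9_nt
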