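import Mathlib

set_option autoImplicit false

/-! Existence of an auxiliary prime in the non-principal genus. -/

namespace Pool.Agent.Lib.MP_6dddb9_nt

theorem exists_r (p q : ℕ) [hp : Fact p.Prime] [hq : Fact q.Prime] (hp4 : p % 4 = 1) (hq4 : q % 4 = 1)
    (hpq : p ≠ q) (k : ℤ) (hk : 4 * k + 1 = p * q) :
    ∃ r n w : ℤ, n * n + n + r * w = k ∧ (∃ s t u : ℤ, s * r + t * (2 * n + 1) + u * w = 1) ∧
      ¬ (p : ℤ) ∣ r ∧ legendreSym p r = -1 := by
  obtain ⟨a, ha⟩ := FiniteField.exists_nonsquare (F := ZMod p)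
    (by rw [ZMod.ringChar_zmod_n]; intro h; omega)
  obtain ⟨b, hb⟩ := FiniteField.exists_nonsquare (F := ZMod q)
    (by rw [ZMod.ringChar_zmod_n]; intro h; omega)
  have hcop : Nat.Coprime p q := (Nat.coprime_primes hp.out hq.out).2 hpq
  obtain ⟨c, hc1, hc2⟩ := Nat.chineseRemainder hcop a.val b.val
  have hc1' : (c : ZMod p) = a := by
    rw [(ZMod.natCast_eq_natCast_iff _ _ _).2 hc1, ZMod.natCast_zmod_val]
  have hc2' : (c : ZMod q) = b := by
    rw [(ZMod.natCast_eq_natCast_iff _ _ _).2 hc2, ZMod.natCast_zmod_val]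
  have hcc : c.Coprime (p * q) := by
    rw [Nat.coprime_mul_iff_right]
    constructor
    · rw [Nat.coprime_comm, hp.out.coprime_iff_not_dvd]
      intro h
      rw [← ZMod.natCast_eq_zero_iff, hc1'] at h
      exact ha (by rw [h]; exact IsSquare.zero)
    · rw [Nat.coprime_comm, hq.out.coprime_iff_not_dvd]
      intro h
      rw [← ZMod.natCast_eq_zero_iff, hc2'] at h
      exact hb (by rw [h]; exact IsSquare.zero)
  obtain ⟨r, hr2, hr, hrc⟩ := Nat.forall_exists_prime_gt_and_modEq (p + q + 2)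
    (mul_ne_zero hp.out.ne_zero hq.out.ne_zero) hcc
  haveI : Fact r.Prime := ⟨hr⟩
  have hrp : (r : ZMod p) = a := by
    rw [← hc1', ZMod.natCast_eq_natCast_iff]
    exact hrc.of_mul_right q
  have hrq : (r : ZMod q) = b := by
    rw [← hc2', ZMod.natCast_eq_natCast_iff]
    exact hrc.of_mul_left p
  have l1 : legendreSym p r = -1 := by
    rw [legendreSym.eq_neg_one_iff]
    intro h
    apply ha
    rw [← hrp]
    simpa using h
  have l2 : legendreSym q r = -1 := by
    rw [legendreSym.eq_neg_one_iff]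
    intro h
    apply hb
    rw [← hrq]
    simpa using h
  have hr2' : r ≠ 2 := by omega
  have l3 : legendreSym r p = -1 := by
    rw [legendreSym.quadratic_reciprocity_one_mod_four hp4 hr2', l1]
  have l4 : legendreSym r q = -1 := by
    rw [legendreSym.quadratic_reciprocity_one_mod_four hq4 hr2', l2]
  have l5 : legendreSym r (p * q) = 1 := by
    rw [legendreSym.mul, l3, l4]; norm_num
  have hrne : (((p : ℤ) * q : ℤ) : ZMod r) ≠ 0 := by
    intro h
    rw [(legendreSym.eq_zero_iff r _).2 h] at l5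
    norm_num at l5
  have hsq := (legendreSym.eq_one_iff r hrne).1 l5
  obtain ⟨x, hx⟩ := hsq
  -- an odd integer lift
  obtain ⟨n, hn⟩ : ∃ n : ℤ, ((2 * n + 1 : ℤ) : ZMod r) = x := by
    have hr1 : r % 2 = 1 := by
      rcases hr.eq_two_or_odd with h | h
      · omega
      · exact h
    rcases Nat.even_or_odd x.val with h | h
    · obtain ⟨j, hj⟩ := h
      refine ⟨(j : ℤ) + ((r : ℤ) - 1) / 2, ?_⟩
      have h1 : 2 * ((j : ℤ) + ((r : ℤ) - 1) / 2) + 1 = (x.val : ℤ) + r := by omega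
      rw [h1]
      push_cast
      simp
    · obtain ⟨j, hj⟩ := h
      refine ⟨(j : ℤ), ?_⟩
      have h1 : 2 * (j : ℤ) + 1 = (x.val : ℤ) := by omega
      rw [h1]
      push_cast
      simp
  have hrI : Prime (r : ℤ) := Nat.prime_iff_prime_int.1 hr
  have hdvd : (r : ℤ) ∣ 4 * (k - n * n - n) := by
    rw [← ZMod.intCast_zmod_eq_zero_iff_dvd]
    have h1 : 4 * (k - n * n - n) = (p : ℤ) * q - (2 * n + 1) * (2 * n + 1) := by
      rw [← hk]; ring
    rw [h1, Int.cast_sub, hx, Int.cast_mul (2 * n + 1), hn, sub_self]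
  have hr4 : ¬ (r : ℤ) ∣ 4 := by
    intro h
    have h2 : (r : ℤ) ∣ 2 := by
      have : (r : ℤ) ∣ 2 * 2 := by simpa using h
      rcases hrI.dvd_or_dvd this with h | h <;> exact h
    have := Int.le_of_dvd (by norm_num) h2
    omega
  obtain ⟨w, hw⟩ := (hrI.dvd_or_dvd hdvd).resolve_left hr4
  have hcop2 : IsCoprime (r : ℤ) (2 * n + 1) := by
    rw [Prime.coprime_iff_not_dvd hrI]
    intro h
    apply hrne
    rw [hx, ← hn, (ZMod.intCast_zmod_eq_zero_iff_dvd _ _).2 h, mul_zero]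
  obtain ⟨s, t, hst⟩ := hcop2
  refine ⟨r, n, w, by linear_combination -hw, ⟨s, t, 0, by linear_combination hst⟩, ?_, l1⟩
  intro h
  have h1 : p ∣ r := by exact_mod_cast h
  rw [Nat.prime_dvd_prime_iff_eq hp.out hr] at h1
  omega

end Pool.Agent.Lib.MP_6dddb9_nt
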