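import Pool.Agent.Lib.MP_6dddb9_nt.Chain

set_option autoImplicit false

/-! Indefinite forms `(y, 2m+1, -z)` of discriminant `4k+1` crossing the river. -/

namespace Pool.Agent.Lib.MP_6dddb9_nt

/-- A form `y X^2 + (2m+1) X Y - z Y^2` with `y, z > 0` and discriminant `4k+1`. -/
@[ext]
structure Fm (k : ℤ) where
  m : ℤ
  y : ℤ
  z : ℤ
  hy : 0 < y
  hz : 0 < z
  h : m * m + m + y * z = k

namespace Fm

variable {k : ℤ}

theorem disc (E : Fm k) : (2 * E.m + 1) ^ 2 + 4 * E.y * E.z = 4 * k + 1 := by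
  have := E.h
  linear_combination 4 * this

theorem ne0 (hD : ¬ IsSquare (4 * k + 1)) (E : Fm k) : E.y + 2 * E.m + 1 - E.z ≠ 0 := by
  intro h
  apply hD
  refine ⟨E.y + E.z, ?_⟩
  have h2 := E.h
  linear_combination (-4) * h2 + (2 * E.m + 1 - E.y + E.z) * h

theorem ne0' (hD : ¬ IsSquare (4 * k + 1)) (E : Fm k) : E.y - 2 * E.m - 1 - E.z ≠ 0 := by
  intro h
  apply hD
  refine ⟨E.y + E.z, ?_⟩
  have h2 := E.h
  linear_combination (-4) * h2 - (2 * E.m + 1 + E.y - E.z) * h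

/-- Forward step on forms. -/
def T (hD : ¬ IsSquare (4 * k + 1)) (E : Fm k) : Fm k :=
  if h : E.y + 2 * E.m + 1 - E.z < 0 then
    { m := E.m + E.y
      y := E.y
      z := E.z - 2 * E.m - 1 - E.y
      hy := E.hy
      hz := by linarith
      h := by have := E.h; linear_combination this }
  else
    { m := E.m - E.z
      y := E.y + 2 * E.m + 1 - E.z
      z := E.z
      hy := lt_of_le_of_ne (not_lt.1 h) (ne0 hD E).symm
      hz := E.hz
      h := by have := E.h; linear_combination this }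

/-- Backward step on forms. -/
def S (hD : ¬ IsSquare (4 * k + 1)) (E : Fm k) : Fm k :=
  if h : E.y - 2 * E.m - 1 - E.z < 0 then
    { m := E.m - E.y
      y := E.y
      z := E.z + 2 * E.m + 1 - E.y
      hy := E.hy
      hz := by linarith
      h := by have := E.h; linear_combination this }
  else
    { m := E.m + E.z
      y := E.y - 2 * E.m - 1 - E.z
      z := E.z
      hy := lt_of_le_of_ne (not_lt.1 h) (ne0' hD E).symm
      hz := E.hz
      h := by have := E.h; linear_combination this }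

theorem T_cases (hD : ¬ IsSquare (4 * k + 1)) (E : Fm k) :
    (E.y + 2 * E.m + 1 - E.z < 0 ∧ (T hD E).m = E.m + E.y ∧ (T hD E).y = E.y ∧
      (T hD E).z = E.z - 2 * E.m - 1 - E.y) ∨
    (0 < E.y + 2 * E.m + 1 - E.z ∧ (T hD E).m = E.m - E.z ∧
      (T hD E).y = E.y + 2 * E.m + 1 - E.z ∧ (T hD E).z = E.z) := by
  unfold T
  split_ifs with h
  · exact Or.inl ⟨h, rfl, rfl, rfl⟩
  · exact Or.inr ⟨lt_of_le_of_ne (not_lt.1 h) (ne0 hD E).symm, rfl, rfl, rfl⟩

theorem S_cases (hD : ¬ IsSquare (4 * k + 1)) (E : Fm k) :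
    (E.y - 2 * E.m - 1 - E.z < 0 ∧ (S hD E).m = E.m - E.y ∧ (S hD E).y = E.y ∧
      (S hD E).z = E.z + 2 * E.m + 1 - E.y) ∨
    (0 < E.y - 2 * E.m - 1 - E.z ∧ (S hD E).m = E.m + E.z ∧
      (S hD E).y = E.y - 2 * E.m - 1 - E.z ∧ (S hD E).z = E.z) := by
  unfold S
  split_ifs with h
  · exact Or.inl ⟨h, rfl, rfl, rfl⟩
  · exact Or.inr ⟨lt_of_le_of_ne (not_lt.1 h) (ne0' hD E).symm, rfl, rfl, rfl⟩

theorem S_T (hD : ¬ IsSquare (4 * k + 1)) (E : Fm k) : S hD (T hD E) = E := by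
  have hy := E.hy
  have hz := E.hz
  rcases T_cases hD E with ⟨h, h1, h2, h3⟩ | ⟨h, h1, h2, h3⟩ <;>
  rcases S_cases hD (T hD E) with ⟨g, g1, g2, g3⟩ | ⟨g, g1, g2, g3⟩ <;>
  rw [h1, h2, h3] at g
  · ext
    · rw [g1, h1, h2]; ring
    · rw [g2, h2]
    · rw [g3, h1, h2, h3]; ring
  · exfalso; linarith
  · exfalso; linarith
  · ext
    · rw [g1, h1, h3]; ring
    · rw [g2, h1, h2, h3]; ring
    · rw [g3, h3]

theorem T_S (hD : ¬ IsSquare (4 * k + 1)) (E : Fm k) : T hD (S hD E) = E := by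
  have hy := E.hy
  have hz := E.hz
  rcases S_cases hD E with ⟨h, h1, h2, h3⟩ | ⟨h, h1, h2, h3⟩ <;>
  rcases T_cases hD (S hD E) with ⟨g, g1, g2, g3⟩ | ⟨g, g1, g2, g3⟩ <;>
  rw [h1, h2, h3] at g
  · ext
    · rw [g1, h1, h2]; ring
    · rw [g2, h2]
    · rw [g3, h1, h2, h3]; ring
  · exfalso; linarith
  · exfalso; linarith
  · ext
    · rw [g1, h1, h3]; ring
    · rw [g2, h1, h2, h3]; ring
    · rw [g3, h3]

/-- The shift as a permutation of forms. -/
def TE (hD : ¬ IsSquare (4 * k + 1)) : Equiv.Perm (Fm k) where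
  toFun := T hD
  invFun := S hD
  left_inv := S_T hD
  right_inv := T_S hD

@[simp] theorem TE_apply (hD : ¬ IsSquare (4 * k + 1)) (E : Fm k) : TE hD E = T hD E := rfl

/-- Reflection `b ↦ -b`. -/
def rho (E : Fm k) : Fm k where
  m := -E.m - 1
  y := E.y
  z := E.z
  hy := E.hy
  hz := E.hz
  h := by have := E.h; linear_combination this

/-- Reflection exchanging `y` and `z`. -/
def alp (E : Fm k) : Fm k where
  m := E.m
  y := E.z
  z := E.y
  hy := E.hz
  hz := E.hy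
  h := by have := E.h; linear_combination this

/-- `R = rho ∘ alp`. -/
def R (E : Fm k) : Fm k where
  m := -E.m - 1
  y := E.z
  z := E.y
  hy := E.hz
  hz := E.hy
  h := by have := E.h; linear_combination this

theorem R_R (E : Fm k) : R (R E) = E := by
  ext
  · show -(-E.m - 1) - 1 = E.m; ring
  · rfl
  · rfl

theorem rho_rho (E : Fm k) : rho (rho E) = E := by
  ext
  · show -(-E.m - 1) - 1 = E.m; ring
  · rfl
  · rfl

theorem alp_alp (E : Fm k) : alp (alp E) = E := rfl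

theorem R_rho (E : Fm k) : R (rho E) = alp E := by
  ext
  · show -(-E.m - 1) - 1 = E.m; ring
  · rfl
  · rfl

theorem R_alp (E : Fm k) : R (alp E) = rho E := rfl

theorem R_ne (E : Fm k) : R E ≠ E := by
  intro h
  have h1 : -E.m - 1 = E.m := congrArg Fm.m h
  omega

theorem T_R (hD : ¬ IsSquare (4 * k + 1)) (E : Fm k) : T hD (R E) = R (T hD E) := by
  have hRm : (R E).m = -E.m - 1 := rfl
  have hRy : (R E).y = E.z := rfl
  have hRz : (R E).z = E.y := rfl
  rcases T_cases hD E with ⟨h, h1, h2, h3⟩ | ⟨h, h1, h2, h3⟩ <;>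
  rcases T_cases hD (R E) with ⟨g, g1, g2, g3⟩ | ⟨g, g1, g2, g3⟩ <;>
  rw [hRm, hRy, hRz] at g
  · exfalso; linarith
  · ext
    · show _ = -(T hD E).m - 1
      rw [g1, h1, hRm, hRz]; ring
    · show _ = (T hD E).z
      rw [g2, h3, hRm, hRy, hRz]; ring
    · show _ = (T hD E).y
      rw [g3, h2, hRz]
  · ext
    · show _ = -(T hD E).m - 1
      rw [g1, h1, hRm, hRy]; ring
    · show _ = (T hD E).z
      rw [g2, h3, hRy]
    · show _ = (T hD E).y
      rw [g3, h2, hRm, hRy, hRz]; ring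
  · exfalso; linarith

theorem T_rho (hD : ¬ IsSquare (4 * k + 1)) (E : Fm k) : T hD (rho E) = rho (S hD E) := by
  have hRm : (rho E).m = -E.m - 1 := rfl
  have hRy : (rho E).y = E.y := rfl
  have hRz : (rho E).z = E.z := rfl
  rcases S_cases hD E with ⟨h, h1, h2, h3⟩ | ⟨h, h1, h2, h3⟩ <;>
  rcases T_cases hD (rho E) with ⟨g, g1, g2, g3⟩ | ⟨g, g1, g2, g3⟩ <;>
  rw [hRm, hRy, hRz] at g
  · ext
    · show _ = -(S hD E).m - 1
      rw [g1, h1, hRm, hRy]; ring
    · show _ = (S hD E).y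
      rw [g2, h2, hRy]
    · show _ = (S hD E).z
      rw [g3, h3, hRm, hRy, hRz]; ring
  · exfalso; linarith
  · exfalso; linarith
  · ext
    · show _ = -(S hD E).m - 1
      rw [g1, h1, hRm, hRz]; ring
    · show _ = (S hD E).y
      rw [g2, h2, hRm, hRy, hRz]; ring
    · show _ = (S hD E).z
      rw [g3, h3, hRz]

theorem S_rho (hD : ¬ IsSquare (4 * k + 1)) (E : Fm k) : S hD (rho E) = rho (T hD E) := by
  have h := T_rho hD (T hD E)
  rw [S_T] at h
  rw [← h, S_T]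

theorem TE_zpow_R (hD : ¬ IsSquare (4 * k + 1)) (E : Fm k) (n : ℤ) :
    (TE hD ^ n) (R E) = R ((TE hD ^ n) E) := by
  induction n using Int.induction_on generalizing E with
  | zero => simp
  | succ n ih =>
    rw [zpow_add_one, Equiv.Perm.mul_apply, TE_apply, T_R, ih, Equiv.Perm.mul_apply]
    rfl
  | pred n ih =>
    rw [zpow_sub_one, Equiv.Perm.mul_apply, Equiv.Perm.mul_apply]
    have h3 : ∀ F : Fm k, (TE hD)⁻¹ F = S hD F := fun _ => rfl
    rw [h3, h3]
    have h5 := T_R hD (S hD E)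
    rw [T_S] at h5
    rw [← ih, ← h5, S_T]

theorem TE_zpow_rho (hD : ¬ IsSquare (4 * k + 1)) (E : Fm k) (n : ℤ) :
    (TE hD ^ n) (rho E) = rho ((TE hD ^ (-n)) E) := by
  induction n using Int.induction_on generalizing E with
  | zero => simp
  | succ n ih =>
    rw [zpow_add_one, Equiv.Perm.mul_apply, TE_apply, T_rho, ih, neg_add, zpow_add,
      Equiv.Perm.mul_apply]
    rfl
  | pred n ih =>
    rw [zpow_sub_one, Equiv.Perm.mul_apply]
    have h3 : ∀ F : Fm k, (TE hD)⁻¹ F = S hD F := fun _ => rfl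
    rw [h3, S_rho, ih, neg_sub, sub_eq_add_neg, add_comm, zpow_add, Equiv.Perm.mul_apply]
    simp

theorem TE_zpow_alp (hD : ¬ IsSquare (4 * k + 1)) (E : Fm k) (n : ℤ) :
    (TE hD ^ n) (alp E) = alp ((TE hD ^ (-n)) E) := by
  rw [← R_rho, TE_zpow_R, TE_zpow_rho, R_rho]

/-- The sign character. -/
def om (E : Fm k) : Prop := Even (E.m + E.y + E.z)

theorem om_T (hD : ¬ IsSquare (4 * k + 1)) (E : Fm k) : om (T hD E) ↔ ¬ om E := by
  unfold om
  rcases T_cases hD E with ⟨h, h1, h2, h3⟩ | ⟨h, h1, h2, h3⟩ <;> rw [h1, h2, h3] <;>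
    simp only [Int.even_iff] <;> omega

theorem om_R (E : Fm k) : om (R E) ↔ ¬ om E := by
  show Even (-E.m - 1 + E.z + E.y) ↔ ¬ Even (E.m + E.y + E.z)
  simp only [Int.even_iff]; omega

theorem om_rho (E : Fm k) : om (rho E) ↔ ¬ om E := by
  show Even (-E.m - 1 + E.y + E.z) ↔ ¬ Even (E.m + E.y + E.z)
  simp only [Int.even_iff]; omega

theorem om_alp (E : Fm k) : om (alp E) ↔ om E := by
  show Even (E.m + E.z + E.y) ↔ Even (E.m + E.y + E.z)
  simp only [Int.even_iff]; omega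

theorem om_TE_zpow (hD : ¬ IsSquare (4 * k + 1)) (E : Fm k) (n : ℤ) :
    om ((TE hD ^ n) E) ↔ (om E ↔ Even n) := by
  induction n using Int.induction_on generalizing E with
  | zero => simp
  | succ n ih =>
    rw [zpow_add_one, Equiv.Perm.mul_apply, ih, TE_apply, om_T]
    simp only [Int.even_iff]
    by_cases h : om E <;> simp [h] <;> omega
  | pred n ih =>
    rw [zpow_sub_one, Equiv.Perm.mul_apply, ih]
    have h3 : ∀ F : Fm k, (TE hD)⁻¹ F = S hD F := fun _ => rfl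
    rw [h3]
    have h4 := om_T hD (S hD E)
    rw [T_S] at h4
    simp only [Int.even_iff]
    by_cases h : om E <;> simp [h] at h4 ⊢ <;> simp [h4] <;> omega

/-- Bounds: the set of forms is finite. -/
theorem bounds (E : Fm k) : 0 < E.y ∧ E.y ≤ k ∧ 0 < E.z ∧ E.z ≤ k ∧ -k - 1 ≤ E.m ∧ E.m ≤ k := by
  have h := E.h
  have hy := E.hy
  have hz := E.hz
  have h1 : 0 ≤ E.m * E.m + E.m := by
    rcases le_or_gt 0 E.m with h' | h'
    · nlinarith
    · nlinarith
  have h2 : E.y * E.z ≤ k := by linarith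
  have h3 : 1 ≤ E.y * E.z := by nlinarith
  refine ⟨hy, by nlinarith, hz, by nlinarith, ?_, ?_⟩
  · by_contra hc
    push Not at hc
    nlinarith
  · by_contra hc
    push Not at hc
    nlinarith

instance : Finite (Fm k) := by
  have : Function.Injective (fun E : Fm k =>
      ((⟨E.y, Finset.mem_Icc.2 ⟨E.hy.le, (bounds E).2.1⟩⟩,
        ⟨E.z, Finset.mem_Icc.2 ⟨E.hz.le, (bounds E).2.2.2.1⟩⟩,
        ⟨E.m, Finset.mem_Icc.2 ⟨(bounds E).2.2.2.2.1, (bounds E).2.2.2.2.2⟩⟩) :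
      (Finset.Icc (0 : ℤ) k) × (Finset.Icc (0 : ℤ) k) × (Finset.Icc (-k - 1) k))) := by
    intro E F h
    simp only [Prod.mk.injEq, Subtype.mk.injEq] at h
    exact Fm.ext h.2.2 h.1 h.2.1
  exact Finite.of_injective _ this

end Fm

end Pool.Agent.Lib.MP_6dddb9_nt
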