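import Pool.Agent.Lib.MP_6dddb9_nt.IdealRiver

set_option autoImplicit false

/-! The genus character and multiplication by a prime ideal. -/

namespace Pool.Agent.Lib.MP_6dddb9_nt

open QuadraticAlgebra

variable {k : ℤ}

/-- Values of the form. -/
def fv (E : Fm k) (X Y : ℤ) : ℤ := E.y * X * X + (2 * E.m + 1) * X * Y - E.z * Y * Y

theorem fv_mul (E : Fm k) (X Y X' Y' : ℤ) :
    4 * (fv E X Y * fv E X' Y') =
      (2 * E.y * X * X' + (2 * E.m + 1) * (X * Y' + X' * Y) - 2 * E.z * Y * Y') ^ 2 -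
        (4 * k + 1) * (X * Y' - X' * Y) ^ 2 := by
  have := E.h
  unfold fv
  linear_combination (-4 * (X * Y' - X' * Y) ^ 2) * this

section leg

variable (p : ℕ) [Fact p.Prime]

theorem leg_congr {a b : ℤ} (h : (p : ℤ) ∣ a - b) : legendreSym p a = legendreSym p b := by
  have : (a : ZMod p) = (b : ZMod p) := by
    rw [← sub_eq_zero, ← Int.cast_sub, ZMod.intCast_zmod_eq_zero_iff_dvd]
    exact h
  unfold legendreSym
  rw [this]

theorem leg_ne {a : ℤ} (h : ¬ (p : ℤ) ∣ a) : (a : ZMod p) ≠ 0 := by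
  rwa [Ne, ZMod.intCast_zmod_eq_zero_iff_dvd]

theorem leg_neg (hp : p % 4 = 1) (a : ℤ) : legendreSym p (-a) = legendreSym p a := by
  have h1 : legendreSym p (-1) = 1 := by
    rw [legendreSym.at_neg_one (by omega)]
    exact ZMod.χ₄_nat_one_mod_four hp
  rw [← neg_one_mul, legendreSym.mul, h1, one_mul]

/-- All values prime to `p` have the same symbol. -/
theorem fv_leg (hp : p % 4 = 1) (hpD : (p : ℤ) ∣ 4 * k + 1) (E : Fm k) (X Y X' Y' : ℤ)
    (h1 : ¬ (p : ℤ) ∣ fv E X Y) (h2 : ¬ (p : ℤ) ∣ fv E X' Y') :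
    legendreSym p (fv E X Y) = legendreSym p (fv E X' Y') := by
  have hpp : Prime (p : ℤ) := Nat.prime_iff_prime_int.1 (Fact.out : p.Prime)
  set B := 2 * E.y * X * X' + (2 * E.m + 1) * (X * Y' + X' * Y) - 2 * E.z * Y * Y' with hB
  have h3 := fv_mul E X Y X' Y'
  have h4 : legendreSym p (4 * (fv E X Y * fv E X' Y')) = legendreSym p (B * B) := by
    apply leg_congr
    rw [h3]
    have : B ^ 2 - (4 * k + 1) * (X * Y' - X' * Y) ^ 2 - B * B =
      (4 * k + 1) * (-(X * Y' - X' * Y) ^ 2) := by ring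
    rw [this]
    exact hpD.mul_right _
  have h5 : ¬ (p : ℤ) ∣ B := by
    intro hdvd
    have h6 : (p : ℤ) ∣ 4 * (fv E X Y * fv E X' Y') := by
      rw [h3]
      exact dvd_sub (by rw [sq]; exact hdvd.mul_right _) (hpD.mul_right _)
    rcases hpp.dvd_or_dvd h6 with h | h
    · have h7 : (p : ℤ) ≤ 4 := Int.le_of_dvd (by norm_num) h
      have : p ≤ 4 := by exact_mod_cast h7
      have := (Fact.out : p.Prime).two_le
      interval_cases p <;> omega
    · rcases hpp.dvd_or_dvd h with h | h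
      · exact h1 h
      · exact h2 h
  have h6 : legendreSym p (B * B) = 1 := by
    rw [legendreSym.mul, ← sq, legendreSym.sq_one p (leg_ne p h5)]
  have h7 : ¬ (p : ℤ) ∣ 2 := by
    intro h
    have h8 : (p : ℤ) ≤ 2 := Int.le_of_dvd (by norm_num) h
    have : p ≤ 2 := by exact_mod_cast h8
    have := (Fact.out : p.Prime).two_le
    interval_cases p; omega
  have h8 : legendreSym p 4 = 1 := by
    have : (4 : ℤ) = 2 * 2 := by norm_num
    rw [this, legendreSym.mul, ← sq, legendreSym.sq_one p (leg_ne p h7)]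
  rw [legendreSym.mul, h8, one_mul, legendreSym.mul, h6] at h4
  rcases legendreSym.eq_one_or_neg_one p (leg_ne p h1) with h | h <;>
  rcases legendreSym.eq_one_or_neg_one p (leg_ne p h2) with h' | h' <;>
  rw [h, h'] at h4 ⊢ <;> norm_num at h4

/-- The genus character. -/
noncomputable def chi (E : Fm k) : ℤ :=
  if (p : ℤ) ∣ E.y then legendreSym p (-E.z) else legendreSym p E.y

theorem fv_10 (E : Fm k) : fv E 1 0 = E.y := by unfold fv; ring
theorem fv_01 (E : Fm k) : fv E 0 1 = -E.z := by unfold fv; ring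

theorem not_dvd_z (hsq : Squarefree (4 * k + 1)) (hpD : (p : ℤ) ∣ 4 * k + 1) (E : Fm k)
    (h : (p : ℤ) ∣ E.y) : ¬ (p : ℤ) ∣ -E.z := by
  have hpp : Prime (p : ℤ) := Nat.prime_iff_prime_int.1 (Fact.out : p.Prime)
  intro h1
  rw [dvd_neg] at h1
  have hd := E.disc
  have h2 : (p : ℤ) ∣ (2 * E.m + 1) ^ 2 := by
    have : (2 * E.m + 1) ^ 2 = 4 * k + 1 - E.y * (4 * E.z) := by linear_combination hd
    rw [this]
    exact dvd_sub hpD (h.mul_right _)
  have h3 : (p : ℤ) ∣ 2 * E.m + 1 := hpp.dvd_of_dvd_pow h2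
  have h4 : (p : ℤ) * p ∣ 4 * k + 1 := by
    rw [← hd]
    apply dvd_add
    · rw [sq]; exact mul_dvd_mul h3 h3
    · rw [mul_assoc]; exact (mul_dvd_mul h h1).mul_left 4
  exact hpp.not_isUnit (hsq _ h4)

theorem chi_val (hp : p % 4 = 1) (hsq : Squarefree (4 * k + 1)) (hpD : (p : ℤ) ∣ 4 * k + 1)
    (E : Fm k) (X Y : ℤ) (h1 : ¬ (p : ℤ) ∣ fv E X Y) : chi p E = legendreSym p (fv E X Y) := by
  unfold chi
  split_ifs with h
  · rw [← fv_01]
    apply fv_leg p hp hpD E _ _ _ _ _ h1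
    rw [fv_01]
    exact not_dvd_z p hsq hpD E h
  · have h2 : ¬ (p : ℤ) ∣ fv E 1 0 := by rw [fv_10]; exact h
    have := fv_leg p hp hpD E 1 0 X Y h2 h1
    rw [← this, fv_10]

theorem exists_val (hsq : Squarefree (4 * k + 1)) (hpD : (p : ℤ) ∣ 4 * k + 1)
    (E : Fm k) : ∃ X Y : ℤ, ¬ (p : ℤ) ∣ fv E X Y := by
  by_cases h : (p : ℤ) ∣ E.y
  · exact ⟨0, 1, by rw [fv_01]; exact not_dvd_z p hsq hpD E h⟩
  · exact ⟨1, 0, by rw [fv_10]; exact h⟩

theorem chi_pm (hp : p % 4 = 1) (hsq : Squarefree (4 * k + 1)) (hpD : (p : ℤ) ∣ 4 * k + 1)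
    (E : Fm k) : chi p E = 1 ∨ chi p E = -1 := by
  obtain ⟨X, Y, h⟩ := exists_val p hsq hpD E
  rw [chi_val p hp hsq hpD E X Y h]
  exact legendreSym.eq_one_or_neg_one p (leg_ne p h)

end leg

/-! Conjugate ideals and norms. -/

theorem map_star_II (m y : ℤ) :
    Ideal.map (starRingEnd (Ord k)) (II k m y) = II k (-m - 1) y := by
  unfold II
  rw [Ideal.map_span, Set.image_pair]
  refine span_pair_eq 1 0 0 (-1) 1 0 0 (-1) ?_ ?_ ?_ ?_
  · ext <;> simp [starRingEnd_apply]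
  · ext <;> simp [starRingEnd_apply]; ring
  · ext <;> simp [starRingEnd_apply]
  · ext <;> simp [starRingEnd_apply]; ring

theorem II_mul_conj {m y z : ℤ} (h : m * m + m + y * z = k)
    (hB : ∃ s t u : ℤ, s * y + t * (2 * m + 1) + u * z = 1) :
    II k m y * II k (-m - 1) y = Ideal.span {(y : Ord k)} := by
  unfold II
  rw [Ideal.span_pair_mul_span_pair]
  apply le_antisymm
  · rw [Ideal.span_le]
    rintro x hx
    simp only [Set.mem_insert_iff, Set.mem_singleton_iff] at hx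
    rw [SetLike.mem_coe, Ideal.mem_span_singleton]
    rcases hx with rfl | rfl | rfl | rfl
    · exact dvd_mul_right _ _
    · exact dvd_mul_right _ _
    · exact dvd_mul_left _ _
    · refine ⟨(z : ℤ), ?_⟩
      ext
      · simp; linear_combination -h
      · simp; ring
  · rw [Ideal.span_singleton_le_iff_mem]
    obtain ⟨s, t, u, hstu⟩ := hB
    set J := Ideal.span ({(y : Ord k) * (y : Ord k), (y : Ord k) * (⟨-m - 1, 1⟩ : Ord k),
      (⟨m, 1⟩ : Ord k) * (y : Ord k), (⟨m, 1⟩ : Ord k) * (⟨-m - 1, 1⟩ : Ord k)} : Set (Ord k)) with hJ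
    have m1 : (y : Ord k) * (y : Ord k) ∈ J := Ideal.subset_span (by simp)
    have m2 : (y : Ord k) * (⟨-m - 1, 1⟩ : Ord k) ∈ J := Ideal.subset_span (by simp)
    have m3 : (⟨m, 1⟩ : Ord k) * (y : Ord k) ∈ J := Ideal.subset_span (by simp)
    have m4 : (⟨m, 1⟩ : Ord k) * (⟨-m - 1, 1⟩ : Ord k) ∈ J := Ideal.subset_span (by simp)
    have e : (y : Ord k) = (s : Ord k) * ((y : Ord k) * (y : Ord k)) +
        (t : Ord k) * ((⟨m, 1⟩ : Ord k) * (y : Ord k) - (y : Ord k) * (⟨-m - 1, 1⟩ : Ord k)) +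
        (u : Ord k) * ((⟨m, 1⟩ : Ord k) * (⟨-m - 1, 1⟩ : Ord k)) := by
      ext
      · simp; linear_combination (-y) * hstu + u * h
      · simp; right; ring
    rw [e]
    exact J.add_mem (J.add_mem (J.mul_mem_left _ m1) (J.mul_mem_left _ (J.sub_mem m3 m2)))
      (J.mul_mem_left _ m4)

theorem bezout_of_squarefree (hsq : Squarefree (4 * k + 1)) (E : Fm k) :
    ∃ s t u : ℤ, s * E.y + t * (2 * E.m + 1) + u * E.z = 1 := by
  have hg : IsCoprime (Int.gcd E.y (2 * E.m + 1) : ℤ) E.z := by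
    rw [Int.isCoprime_iff_gcd_eq_one]
    by_contra hne
    obtain ⟨l, hl, hdvd⟩ := Nat.exists_prime_and_dvd hne
    have hl' : (l : ℤ) ∣ (Int.gcd (Int.gcd E.y (2 * E.m + 1) : ℤ) E.z : ℤ) := by exact_mod_cast hdvd
    have h1 : (l : ℤ) ∣ (Int.gcd E.y (2 * E.m + 1) : ℤ) := hl'.trans (Int.gcd_dvd_left _ _)
    have h2 : (l : ℤ) ∣ E.z := hl'.trans (Int.gcd_dvd_right _ _)
    have h3 : (l : ℤ) ∣ E.y := h1.trans (Int.gcd_dvd_left _ _)
    have h4 : (l : ℤ) ∣ 2 * E.m + 1 := h1.trans (Int.gcd_dvd_right _ _)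
    have h5 : (l : ℤ) * l ∣ 4 * k + 1 := by
      rw [← E.disc]
      apply dvd_add
      · rw [sq]; exact mul_dvd_mul h4 h4
      · rw [mul_assoc]; exact (mul_dvd_mul h3 h2).mul_left 4
    have h6 := hsq _ h5
    rw [Int.isUnit_iff] at h6
    have := hl.two_le
    omega
  obtain ⟨u, w, huw⟩ := hg
  rw [Int.gcd_eq_gcd_ab] at huw
  exact ⟨u * Int.gcdA E.y (2 * E.m + 1), u * Int.gcdB E.y (2 * E.m + 1), w,
    by linear_combination huw⟩

theorem span_int_eq {s t : ℤ} (h : Ideal.span {(s : Ord k)} = Ideal.span {(t : Ord k)}) :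
    s = t ∨ s = -t := by
  have h1 : (s : Ord k) ∣ (t : Ord k) := by
    rw [← Ideal.mem_span_singleton, h]
    exact Ideal.mem_span_singleton_self _
  have h2 : (t : Ord k) ∣ (s : Ord k) := by
    rw [← Ideal.mem_span_singleton, ← h]
    exact Ideal.mem_span_singleton_self _
  have key : ∀ s t : ℤ, (s : Ord k) ∣ (t : Ord k) → s ∣ t := by
    rintro s t ⟨w, hw⟩
    refine ⟨w.re, ?_⟩
    have := congrArg QuadraticAlgebra.re hw
    simpa using this
  exact Int.natAbs_eq_natAbs_iff.1 (Nat.dvd_antisymm (Int.natAbs_dvd_natAbs.2 (key _ _ h1))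
    (Int.natAbs_dvd_natAbs.2 (key _ _ h2)))

/-- Norm relation for the multiplication by the ideal `(r, n + ω)`. -/
theorem norm_relation (hsq : Squarefree (4 * k + 1)) (n r w : ℤ) (hr : n * n + n + r * w = k)
    (hrB : ∃ s t u : ℤ, s * r + t * (2 * n + 1) + u * w = 1) (E E' : Fm k) (a b : Ord k)
    (h : Ideal.span {a} * (II k n r * E.I) = Ideal.span {b} * E'.I) :
    norm a * (r * E.y) = norm b * E'.y ∨ norm a * (r * E.y) = -(norm b * E'.y) := by
  apply span_int_eq (k := k)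
  have h1 := congrArg (Ideal.map (starRingEnd (Ord k))) h
  simp only [Ideal.map_mul, Fm.I, map_star_II, Ideal.map_span, Set.image_singleton] at h1
  have h2 : (Ideal.span {a} * Ideal.span {starRingEnd (Ord k) a}) *
      ((II k n r * II k (-n - 1) r) * (II k E.m E.y * II k (-E.m - 1) E.y)) =
      (Ideal.span {b} * Ideal.span {starRingEnd (Ord k) b}) *
        (II k E'.m E'.y * II k (-E'.m - 1) E'.y) := by
    unfold Fm.I at h
    calc _ = (Ideal.span {a} * (II k n r * II k E.m E.y)) *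
          (Ideal.span {starRingEnd (Ord k) a} * (II k (-n - 1) r * II k (-E.m - 1) E.y)) := by ring
      _ = _ := by rw [h, h1]; ring
  rw [II_mul_conj hr hrB, II_mul_conj E.h (bezout_of_squarefree hsq E),
    II_mul_conj E'.h (bezout_of_squarefree hsq E'), Ideal.span_singleton_mul_span_singleton,
    Ideal.span_singleton_mul_span_singleton, Ideal.span_singleton_mul_span_singleton,
    Ideal.span_singleton_mul_span_singleton, Ideal.span_singleton_mul_span_singleton] at h2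
  have hN : ∀ x : Ord k, x * starRingEnd (Ord k) x = ((norm x : ℤ) : Ord k) := by
    intro x
    have := algebraMap_norm_eq_mul_star x
    rw [starRingEnd_apply, ← this]
    rfl
  rw [hN, hN] at h2
  push_cast
  exact h2

/-- The genus character is multiplicative. -/
theorem chi_mul (p : ℕ) [Fact p.Prime] (hp : p % 4 = 1) (hsq : Squarefree (4 * k + 1))
    (hpD : (p : ℤ) ∣ 4 * k + 1) (n r w : ℤ) (hr : n * n + n + r * w = k)
    (hrB : ∃ s t u : ℤ, s * r + t * (2 * n + 1) + u * w = 1) (hrp : ¬ (p : ℤ) ∣ r) (hr0 : r ≠ 0)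
    (E E' : Fm k)
    (h : IEq (II k n r * E.I) E'.I) : chi p E' = legendreSym p r * chi p E := by
  have hpp : Prime (p : ℤ) := Nat.prime_iff_prime_int.1 (Fact.out : p.Prime)
  obtain ⟨a, b, ha, hb, hab⟩ := h
  obtain ⟨X, Y, hXY⟩ := exists_val p hsq hpD E
  have hrel := norm_relation hsq n r w hr hrB E E' a b hab
  -- the element
  have h1 : (⟨X * E.y + Y * E.m, Y⟩ : Ord k) ∈ E.I := (mem_II E.h _).2 ⟨X, Y, rfl⟩
  have h2 : ((r : ℤ) : Ord k) ∈ II k n r := Ideal.subset_span (by simp)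
  have h3 : a * (((r : ℤ) : Ord k) * ⟨X * E.y + Y * E.m, Y⟩) ∈ Ideal.span {b} * E'.I := by
    rw [← hab, Ideal.mem_span_singleton_mul]
    exact ⟨_, Ideal.mul_mem_mul h2 h1, rfl⟩
  rw [Ideal.mem_span_singleton_mul] at h3
  obtain ⟨z, hz, hz'⟩ := h3
  obtain ⟨X', Y', rfl⟩ := (mem_II E'.h _).1 hz
  have hnorm : ∀ (F : Fm k) (x y : ℤ), norm (⟨x * F.y + y * F.m, y⟩ : Ord k) = F.y * fv F x y := by
    intro F x y
    rw [norm_mk]
    have := F.h
    unfold fv
    linear_combination (y * y) * this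
  have h4 := congrArg QuadraticAlgebra.norm hz'
  rw [map_mul, map_mul, map_mul, norm_int, hnorm, hnorm] at h4
  -- h4 : norm b * (E'.y * fv E' X' Y') = norm a * (r * r * (E.y * fv E X Y))
  have h5 : fv E' X' Y' = r * fv E X Y ∨ fv E' X' Y' = -(r * fv E X Y) := by
    rcases hrel with h | h
    · left
      apply mul_left_cancel₀ (mul_ne_zero hb E'.hy.ne')
      linear_combination h4 + (r * fv E X Y) * h
    · right
      apply mul_left_cancel₀ (mul_ne_zero hb E'.hy.ne')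
      linear_combination h4 + (r * fv E X Y) * h
  have h6 : ¬ (p : ℤ) ∣ r * fv E X Y := by
    intro hd
    rcases hpp.dvd_or_dvd hd with h | h
    · exact hrp h
    · exact hXY h
  rw [chi_val p hp hsq hpD E X Y hXY, ← legendreSym.mul]
  rcases h5 with h | h
  · rw [chi_val p hp hsq hpD E' X' Y' (by rw [h]; exact h6), h]
  · rw [chi_val p hp hsq hpD E' X' Y' (by rw [h, dvd_neg]; exact h6), h, leg_neg p hp]

/-- The character only depends on the class. -/
theorem chi_congr (p : ℕ) [Fact p.Prime] (hp : p % 4 = 1) (hsq : Squarefree (4 * k + 1))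
    (hpD : (p : ℤ) ∣ 4 * k + 1) (E E' : Fm k) (h : IEq E.I E'.I) : chi p E' = chi p E := by
  have h1 : ¬ (p : ℤ) ∣ 1 := by
    intro h
    have := Int.le_of_dvd (by norm_num) h
    have := (Fact.out : p.Prime).two_le
    omega
  have h2 : II k 0 1 = (1 : Ideal (Ord k)) := by
    unfold II
    rw [Ideal.one_eq_top, Ideal.eq_top_iff_one]
    exact Ideal.subset_span (by simp)
  have := chi_mul p hp hsq hpD 0 1 k (by ring) ⟨1, 0, 0, by ring⟩ h1 one_ne_zero E E'
    (by rw [h2, one_mul]; exact h)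
  rw [this, legendreSym.at_one, one_mul]

end Pool.Agent.Lib.MP_6dddb9_nt
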