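import Pool.Agent.Lib.MP_6dddb9_nt.Link2

set_option autoImplicit false

/-! The shift modulo `R` and the fundamental unit. -/

namespace Pool.Agent.Lib.MP_6dddb9_nt

open Chain

theorem Chain.size_lt {c : Chain} {n m : ℤ} (h : n < m) : ((TE ^ n) c).size < ((TE ^ m) c).size := by
  have := size_TE_zpow ((TE ^ n) c) (m - n) (by omega)
  rwa [← Equiv.Perm.mul_apply, ← zpow_add, sub_add_cancel] at this

theorem Chain.size_lt_iff {c : Chain} {n m : ℤ} :
    ((TE ^ n) c).size < ((TE ^ m) c).size ↔ n < m := by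
  constructor
  · intro h
    by_contra hcon
    push Not at hcon
    rcases eq_or_lt_of_le hcon with h1 | h1
    · rw [h1] at h; exact lt_irrefl _ h
    · exact lt_asymm h (size_lt h1)
  · exact size_lt

namespace Fm

variable {k : ℤ}

/-- `R` as a permutation. -/
def RP : Equiv.Perm (Fm k) where
  toFun := R
  invFun := R
  left_inv := R_R
  right_inv := R_R

@[simp] theorem RP_apply (E : Fm k) : RP E = R E := rfl

theorem RP_mul_self : (RP : Equiv.Perm (Fm k)) * RP = 1 := by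
  ext1 E
  exact R_R E

theorem RP_comm (hD : ¬ IsSquare (4 * k + 1)) : Commute (RP : Equiv.Perm (Fm k)) (TE hD) := by
  show RP * TE hD = TE hD * RP
  ext1 E
  exact (T_R hD E).symm

/-- `U = R ∘ T`. -/
def U (hD : ¬ IsSquare (4 * k + 1)) : Equiv.Perm (Fm k) := RP * TE hD

theorem U_apply (hD : ¬ IsSquare (4 * k + 1)) (E : Fm k) : U hD E = R (T hD E) := rfl

theorem RP_zpow_even {n : ℤ} (h : Even n) : (RP : Equiv.Perm (Fm k)) ^ n = 1 := by
  obtain ⟨j, rfl⟩ := h
  rw [← two_mul, zpow_mul]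
  have : (RP : Equiv.Perm (Fm k)) ^ (2 : ℤ) = 1 := by
    rw [show (2 : ℤ) = ((2 : ℕ) : ℤ) from rfl, zpow_natCast, pow_two, RP_mul_self]
  rw [this, one_zpow]

theorem RP_zpow_odd {n : ℤ} (h : Odd n) : (RP : Equiv.Perm (Fm k)) ^ n = RP := by
  obtain ⟨j, rfl⟩ := h
  rw [zpow_add_one, RP_zpow_even (even_two_mul j), one_mul]

theorem U_zpow (hD : ¬ IsSquare (4 * k + 1)) (n : ℤ) : U hD ^ n = RP ^ n * TE hD ^ n :=
  (RP_comm hD).mul_zpow n

theorem U_zpow_even (hD : ¬ IsSquare (4 * k + 1)) {n : ℤ} (h : Even n) (E : Fm k) :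
    (U hD ^ n) E = (TE hD ^ n) E := by
  rw [U_zpow, RP_zpow_even h, one_mul]

theorem U_zpow_odd (hD : ¬ IsSquare (4 * k + 1)) {n : ℤ} (h : Odd n) (E : Fm k) :
    (U hD ^ n) E = R ((TE hD ^ n) E) := by
  rw [U_zpow, RP_zpow_odd h]
  rfl

theorem om_U (hD : ¬ IsSquare (4 * k + 1)) (E : Fm k) : om (U hD E) ↔ om E := by
  rw [U_apply, om_R, om_T, not_not]

theorem om_U_zpow (hD : ¬ IsSquare (4 * k + 1)) (E : Fm k) (n : ℤ) :
    om ((U hD ^ n) E) ↔ om E := by
  rcases Int.even_or_odd n with h | h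
  · rw [U_zpow_even hD h, om_TE_zpow]
    simp [h]
  · rw [U_zpow_odd hD h, om_R, om_TE_zpow]
    have : ¬ Even n := Int.not_even_iff_odd.2 h
    simp [this]

theorem alp_U (hD : ¬ IsSquare (4 * k + 1)) (E : Fm k) (n : ℤ) :
    (U hD ^ n) (alp E) = alp ((U hD ^ (-n)) E) := by
  have hRalp : ∀ F : Fm k, R (alp F) = alp (R F) := fun F => rfl
  rcases Int.even_or_odd n with h | h
  · rw [U_zpow_even hD h, U_zpow_even hD h.neg, TE_zpow_alp]
  · rw [U_zpow_odd hD h, U_zpow_odd hD h.neg, TE_zpow_alp, hRalp]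

/-- `U^n E = E` in terms of the shift. -/
theorem U_zpow_fix_iff (hD : ¬ IsSquare (4 * k + 1)) (E : Fm k) (n : ℤ) :
    (U hD ^ n) E = E ↔ ((TE hD ^ n) E = E ∨ (TE hD ^ n) E = R E) := by
  have hom := om_TE_zpow hD E n
  rcases Int.even_or_odd n with h | h
  · rw [U_zpow_even hD h]
    constructor
    · exact Or.inl
    · rintro (h1 | h1)
      · exact h1
      · exfalso
        rw [h1, om_R] at hom
        simp [h] at hom
  · rw [U_zpow_odd hD h]
    have hne : ¬ Even n := Int.not_even_iff_odd.2 h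
    constructor
    · intro h1
      right
      rw [← R_R ((TE hD ^ n) E), h1]
    · rintro (h1 | h1)
      · exfalso
        rw [h1] at hom
        simp [hne] at hom
      · rw [h1, R_R]

/-- The period of a form. -/
noncomputable def per (hD : ¬ IsSquare (4 * k + 1)) (E : Fm k) : ℕ := Function.minimalPeriod (U hD) E

theorem per_pos (hD : ¬ IsSquare (4 * k + 1)) (E : Fm k) : 0 < per hD E := by
  apply Function.minimalPeriod_pos_of_mem_periodicPts
  exact (Equiv.injective (U hD)).mem_periodicPts E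

theorem U_zpow_eq_iff_dvd (hD : ¬ IsSquare (4 * k + 1)) (E : Fm k) (n : ℤ) :
    (U hD ^ n) E = E ↔ (per hD E : ℤ) ∣ n := by
  have h1 : ∀ m : ℕ, (U hD ^ (m : ℤ)) E = E ↔ (per hD E : ℤ) ∣ (m : ℤ) := by
    intro m
    rw [Int.natCast_dvd_natCast, per, ← Function.isPeriodicPt_iff_minimalPeriod_dvd,
      Function.IsPeriodicPt, Function.IsFixedPt, zpow_natCast, Equiv.Perm.iterate_eq_pow]
  obtain ⟨m, rfl | rfl⟩ := n.eq_nat_or_neg
  · exact h1 m
  · rw [dvd_neg, ← h1 m, zpow_neg]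
    constructor
    · intro h
      conv_lhs => rw [← h]
      exact (U hD ^ (m : ℤ)).apply_symm_apply E
    · intro h
      conv_lhs => rw [← h]
      exact (U hD ^ (m : ℤ)).symm_apply_apply E

theorem U_zpow_per (hD : ¬ IsSquare (4 * k + 1)) (E : Fm k) : (U hD ^ (per hD E : ℤ)) E = E :=
  (U_zpow_eq_iff_dvd hD E _).2 dvd_rfl

end Fm

section

variable {k : ℤ} (r : Rt k)

theorem IsV.scale_eq {v v' : ℝ × ℝ} {h1 : 0 < v.1} {h2 : v.2 ≠ 0} {h1' : 0 < v'.1} {h2' : v'.2 ≠ 0}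
    (c : Chain) (h : v = v') : scale v h1 h2 c = scale v' h1' h2' c := by
  subst h; rfl

/-- The unit attached to a form. -/
theorem exists_unit (hD : ¬ IsSquare (4 * k + 1)) (hP : ∀ E : Fm k, E.Prim) (E : Fm k) :
    ∃ (v : ℝ × ℝ) (hv : IsV r v), 1 < v.1 ∧
      (TE ^ (Fm.per hD E : ℤ)) (cE r E) = scale v hv.pos (hv.ne r) (cE r E) ∧
      (Odd (Fm.per hD E) ↔ v.2 < 0) := by
  have h1 := (Fm.U_zpow_fix_iff hD E (Fm.per hD E)).1 (Fm.U_zpow_per hD E)
  obtain ⟨v, hv, h2, h3, h4⟩ := unit_of_period r hD E (hP E) _ h1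
  refine ⟨v, hv, ?_, h2, ?_⟩
  · have h5 := size_TE_zpow (cE r E) (Fm.per hD E : ℤ) (by exact_mod_cast Fm.per_pos hD E)
    rw [h2, size_scale] at h5
    have h6 := (cE r E).size_pos
    by_contra hcon
    push Not at hcon
    nlinarith
  · have hom := Fm.om_TE_zpow hD E (Fm.per hD E : ℤ)
    rcases h1 with h1 | h1
    · have h5 := h3 h1
      rw [h1] at hom
      have : Even (Fm.per hD E : ℤ) := by
        by_contra hc
        simp [hc] at hom
      rw [Int.even_coe_nat] at this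
      constructor
      · intro h; exact absurd this (Nat.not_even_iff_odd.2 h)
      · intro h; exact absurd h (not_lt.2 h5.le)
    · have h5 := h4 h1
      rw [h1, Fm.om_R] at hom
      have : ¬ Even (Fm.per hD E : ℤ) := by
        intro hc
        simp [hc] at hom
      rw [Int.even_coe_nat, Nat.not_even_iff_odd] at this
      exact ⟨fun _ => h5, fun _ => this⟩

theorem translation_pos (E : Fm k) (v : ℝ × ℝ) (h1 : 0 < v.1) (h2 : v.2 ≠ 0) (hv : 1 < v.1) (n : ℤ)
    (h : (TE ^ n) (cE r E) = scale v h1 h2 (cE r E)) : 0 < n := by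
  by_contra hcon
  have h3 : ¬ ((TE ^ (0 : ℤ)) (cE r E)).size < ((TE ^ n) (cE r E)).size := by
    rw [size_lt_iff]; exact hcon
  apply h3
  rw [h, size_scale]
  have h6 := (cE r E).size_pos
  simp only [zpow_zero, Equiv.Perm.coe_one, id_eq]
  nlinarith

theorem unit_le (hD : ¬ IsSquare (4 * k + 1)) (E E' : Fm k)
    (v v' : ℝ × ℝ) (hv : IsV r v) (hv' : IsV r v') (h1 : 1 < v.1)
    (h' : (TE ^ (Fm.per hD E' : ℤ)) (cE r E') = scale v' hv'.pos (hv'.ne r) (cE r E')) :
    v'.1 ≤ v.1 ∧ (v'.1 = v.1 → v' = v) := by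
  obtain ⟨n, hn⟩ := unit_translation r E' v hv
  have hn0 := translation_pos r E' v hv.pos (hv.ne r) h1 n hn
  have h2 : (Fm.TE hD ^ n) E' = E' ∨ (Fm.TE hD ^ n) E' = Fm.R E' := by
    rcases lt_or_gt_of_ne (hv.ne r) with g | g
    · exact Or.inr (period_neg r hD E' n v hv.pos g hn)
    · exact Or.inl (period_pos r hD E' n v hv.pos g hn)
  have h3 := (Fm.U_zpow_eq_iff_dvd hD E' n).1 ((Fm.U_zpow_fix_iff hD E' n).2 h2)
  have h4 : (Fm.per hD E' : ℤ) ≤ n := Int.le_of_dvd hn0 h3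
  have h6 := (cE r E').size_pos
  constructor
  · by_contra hcon
    push Not at hcon
    have : ((TE ^ n) (cE r E')).size < ((TE ^ (Fm.per hD E' : ℤ)) (cE r E')).size := by
      rw [hn, h', size_scale, size_scale]
      nlinarith
    rw [size_lt_iff] at this
    omega
  · intro heq
    have h7 : n = (Fm.per hD E' : ℤ) := by
      apply le_antisymm _ h4
      by_contra hcon
      push Not at hcon
      have := size_lt (c := cE r E') hcon
      rw [hn, h', size_scale, size_scale, heq] at this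
      exact lt_irrefl _ this
    rw [h7, h'] at hn
    exact scale_inj _ _ _ _ _ _ _ hn

/-- The fundamental unit. -/
theorem exists_eps (hD : ¬ IsSquare (4 * k + 1)) (hP : ∀ E : Fm k, E.Prim) (E₀ : Fm k) :
    ∃ (v : ℝ × ℝ) (hv : IsV r v), 1 < v.1 ∧
      (∀ E : Fm k, (TE ^ (Fm.per hD E : ℤ)) (cE r E) = scale v hv.pos (hv.ne r) (cE r E)) ∧
      (∀ E : Fm k, Odd (Fm.per hD E) ↔ v.2 < 0) := by
  obtain ⟨v, hv, h1, h2, h3⟩ := exists_unit r hD hP E₀
  have key : ∀ E : Fm k, (TE ^ (Fm.per hD E : ℤ)) (cE r E) = scale v hv.pos (hv.ne r) (cE r E) ∧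
      (Odd (Fm.per hD E) ↔ v.2 < 0) := by
    intro E
    obtain ⟨v', hv', h1', h2', h3'⟩ := exists_unit r hD hP E
    have a1 := unit_le r hD E₀ E v v' hv hv' h1 h2'
    have a2 := unit_le r hD E E₀ v' v hv' hv h1' h2
    have a3 : v' = v := a1.2 (le_antisymm a1.1 a2.1)
    refine ⟨?_, ?_⟩
    · rw [h2']
      exact IsV.scale_eq _ a3
    · rw [← a3]; exact h3'
  exact ⟨v, hv, h1, fun E => (key E).1, fun E => (key E).2⟩

end

end Pool.Agent.Lib.MP_6dddb9_nt
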