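import Pool.Agent.Lib.MP_6dddb9_nt.Ideals
import Pool.Agent.Lib.MP_6dddb9_nt.Units

set_option autoImplicit false

/-! Equivalent ideals come from the same orbit. -/

namespace Pool.Agent.Lib.MP_6dddb9_nt

open QuadraticAlgebra Chain

variable {k : ℤ}

/-- The pair of real embeddings. -/
noncomputable def embO (r : Rt k) : Ord k →+* ℝ × ℝ where
  toFun α := emb r α.re α.im
  map_one' := by
    ext
    · simp [emb]
    · simp [emb]
  map_zero' := by
    ext
    · simp [emb]
    · simp [emb]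
  map_add' α β := by
    ext
    · simp only [emb, re_add, im_add, Prod.fst_add]; push_cast; ring
    · simp only [emb, re_add, im_add, Prod.snd_add]; push_cast; ring
  map_mul' α β := by
    have hs := r.hs
    ext
    · simp only [emb, re_mul, im_mul, Prod.fst_mul]; push_cast
      linear_combination (-(α.im : ℝ) * β.im / 4) * hs
    · simp only [emb, re_mul, im_mul, Prod.snd_mul]; push_cast
      linear_combination (-(α.im : ℝ) * β.im / 4) * hs

theorem embO_apply (r : Rt k) (α : Ord k) : embO r α = emb r α.re α.im := rfl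

theorem embO_norm (r : Rt k) (α : Ord k) : (embO r α).1 * (embO r α).2 = norm α := by
  have hs := r.hs
  rw [norm_def, embO_apply]
  simp only [emb]
  push_cast
  linear_combination (-(α.im : ℝ) * α.im / 4) * hs

theorem embO_form (r : Rt k) (E : Fm k) (u v : ℤ) :
    embO r ⟨u * E.y + v * E.m, v⟩ = (u : ℝ) • (cE r E).x + (v : ℝ) • (cE r E).e := by
  rw [embO_apply, cE_x, cE_e]
  ext
  · simp only [emb, Prod.fst_add, Prod.smul_fst, smul_eq_mul]; push_cast; ring
  · simp only [emb, Prod.snd_add, Prod.smul_snd, smul_eq_mul]; push_cast; ring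

/-- Mutual integer combinations give equality of lattices. -/
theorem sameLat_of_combos (c c' : Chain) (a b r d a' b' r' d' : ℤ)
    (h1 : c'.x = (a : ℝ) • c.x + (b : ℝ) • c.e) (h2 : c'.e = (r : ℝ) • c.x + (d : ℝ) • c.e)
    (h3 : c.x = (a' : ℝ) • c'.x + (b' : ℝ) • c'.e) (h4 : c.e = (r' : ℝ) • c'.x + (d' : ℝ) • c'.e) :
    SameLat c c' := by
  refine ⟨a, b, r, d, ?_, h1, h2⟩
  have e1 : ((a' * a + b' * r - 1 : ℤ) : ℝ) * c.x.1 + ((a' * b + b' * d : ℤ) : ℝ) * c.e.1 = 0 := by
    have := congrArg Prod.fst h3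
    rw [h1, h2] at this
    simp only [Prod.fst_add, Prod.smul_fst, smul_eq_mul] at this
    push_cast
    linear_combination -this
  have e2 : ((r' * a + d' * r : ℤ) : ℝ) * c.x.1 + ((r' * b + d' * d - 1 : ℤ) : ℝ) * c.e.1 = 0 := by
    have := congrArg Prod.fst h4
    rw [h1, h2] at this
    simp only [Prod.fst_add, Prod.smul_fst, smul_eq_mul] at this
    push_cast
    linear_combination -this
  obtain ⟨f1, f2⟩ := c.nd1 _ _ e1
  obtain ⟨f3, f4⟩ := c.nd1 _ _ e2
  have hdet : (a' * d' - b' * r') * (a * d - b * r) = 1 := by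
    have g1 : a' * a + b' * r = 1 := by linarith
    have g4 : r' * b + d' * d = 1 := by linarith
    calc (a' * d' - b' * r') * (a * d - b * r) =
        (a' * a + b' * r) * (r' * b + d' * d) - (a' * b + b' * d) * (r' * a + d' * r) := by ring
      _ = 1 := by rw [g1, g4, f2, f3]; ring
  rcases Int.eq_one_or_neg_one_of_mul_eq_one' hdet with h | h
  · left; exact h.2
  · right; exact h.2

theorem river_ideals (r : Rt k) (hD : ¬ IsSquare (4 * k + 1)) (E E' : Fm k) (h : IEq E.I E'.I) :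
    ∃ n : ℤ, (Fm.TE hD ^ n) E = E' ∨ (Fm.TE hD ^ n) E = Fm.R E' := by
  obtain ⟨a, b, ha, hb, hab⟩ := h
  -- positivity of the ratio, changing `b` to `-b` if necessary
  have key : ∀ b : Ord k, norm b ≠ 0 → Ideal.span {a} * E.I = Ideal.span {b} * E'.I →
      0 < (embO r b).1 / (embO r a).1 →
      ∃ n : ℤ, (Fm.TE hD ^ n) E = E' ∨ (Fm.TE hD ^ n) E = Fm.R E' := by
    intro b hb hab hpos
    have hna := embO_norm r a
    have hnb := embO_norm r b
    have ha' : ((norm a : ℤ) : ℝ) ≠ 0 := by exact_mod_cast ha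
    have hb' : ((norm b : ℤ) : ℝ) ≠ 0 := by exact_mod_cast hb
    have ha1 : (embO r a).1 ≠ 0 := fun h0 => ha' (by rw [← hna, h0, zero_mul])
    have ha2 : (embO r a).2 ≠ 0 := fun h0 => ha' (by rw [← hna, h0, mul_zero])
    have hb1 : (embO r b).1 ≠ 0 := fun h0 => hb' (by rw [← hnb, h0, zero_mul])
    have hb2 : (embO r b).2 ≠ 0 := fun h0 => hb' (by rw [← hnb, h0, mul_zero])
    set l : ℝ × ℝ := ((embO r b).1 / (embO r a).1, (embO r b).2 / (embO r a).2) with hl
    have hl1 : 0 < l.1 := hpos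
    have hl2 : l.2 ≠ 0 := div_ne_zero hb2 ha2
    have hla : l * embO r a = embO r b := by
      ext
      · simp only [hl, Prod.fst_mul]; field_simp
      · simp only [hl, Prod.snd_mul]; field_simp
    have hcan : ∀ s t : ℝ × ℝ, embO r a * s = embO r a * t → s = t := by
      intro s t hst
      have g1 := congrArg Prod.fst hst
      have g2 := congrArg Prod.snd hst
      simp only [Prod.fst_mul, Prod.snd_mul] at g1 g2
      exact Prod.ext (mul_left_cancel₀ ha1 g1) (mul_left_cancel₀ ha2 g2)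
    -- forward combos
    have fwd : ∀ u v : ℤ, ∃ u' v' : ℤ, l * ((u : ℝ) • (cE r E').x + (v : ℝ) • (cE r E').e) =
        (u' : ℝ) • (cE r E).x + (v' : ℝ) • (cE r E).e := by
      intro u v
      have h1 : (⟨u * E'.y + v * E'.m, v⟩ : Ord k) ∈ E'.I := (mem_II E'.h _).2 ⟨u, v, rfl⟩
      have h2 : b * ⟨u * E'.y + v * E'.m, v⟩ ∈ Ideal.span {a} * E.I := by
        rw [hab, Ideal.mem_span_singleton_mul]
        exact ⟨_, h1, rfl⟩
      rw [Ideal.mem_span_singleton_mul] at h2
      obtain ⟨w, hw, hw'⟩ := h2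
      obtain ⟨u', v', rfl⟩ := (mem_II E.h _).1 hw
      refine ⟨u', v', ?_⟩
      apply hcan
      rw [← embO_form, ← embO_form, ← mul_assoc, mul_comm (embO r a) l, hla, ← map_mul, ← map_mul,
        hw']
    have bwd : ∀ u v : ℤ, ∃ u' v' : ℤ, (u : ℝ) • (cE r E).x + (v : ℝ) • (cE r E).e =
        l * ((u' : ℝ) • (cE r E').x + (v' : ℝ) • (cE r E').e) := by
      intro u v
      have h1 : (⟨u * E.y + v * E.m, v⟩ : Ord k) ∈ E.I := (mem_II E.h _).2 ⟨u, v, rfl⟩
      have h2 : a * ⟨u * E.y + v * E.m, v⟩ ∈ Ideal.span {b} * E'.I := by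
        rw [← hab, Ideal.mem_span_singleton_mul]
        exact ⟨_, h1, rfl⟩
      rw [Ideal.mem_span_singleton_mul] at h2
      obtain ⟨w, hw, hw'⟩ := h2
      obtain ⟨u', v', rfl⟩ := (mem_II E'.h _).1 hw
      refine ⟨u', v', ?_⟩
      apply hcan
      rw [← embO_form, ← embO_form, ← mul_assoc, mul_comm (embO r a) l, hla, ← map_mul, ← map_mul,
        hw']
    obtain ⟨a1, b1, f1⟩ := fwd 1 0
    obtain ⟨a2, b2, f2⟩ := fwd 0 1
    obtain ⟨a3, b3, f3⟩ := bwd 1 0
    obtain ⟨a4, b4, f4⟩ := bwd 0 1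
    simp only [Int.cast_one, Int.cast_zero, one_smul, zero_smul, add_zero, zero_add] at f1 f2 f3 f4
    have hR := zpow_Prj r hD E
    rcases lt_or_gt_of_ne hl2 with g | g
    · obtain ⟨s1, s2⟩ := scale_neg l hl1 hl2 (cE r E') g
      have hsame : SameLat (cE r E) (scale l hl1 hl2 (cE r E')) := by
        refine sameLat_of_combos _ _ a2 b2 a1 b1 b3 a3 b4 a4 ?_ ?_ ?_ ?_
        · rw [s1, f2]
        · rw [s2, f1]
        · rw [s1, s2, f3]
          ext
          · simp only [Prod.fst_add, Prod.smul_fst, Prod.fst_mul, smul_eq_mul]; ring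
          · simp only [Prod.snd_add, Prod.smul_snd, Prod.snd_mul, smul_eq_mul]; ring
        · rw [s1, s2, f4]
          ext
          · simp only [Prod.fst_add, Prod.smul_fst, Prod.fst_mul, smul_eq_mul]; ring
          · simp only [Prod.snd_add, Prod.smul_snd, Prod.snd_mul, smul_eq_mul]; ring
      obtain ⟨n, hn⟩ := river _ _ hsame
      refine ⟨n, Or.inr ?_⟩
      have h1 := hR n
      rw [← hn] at h1
      exact (Prj_inj r _ _ ((Prj_scale_neg r E' l hl1 g).trans h1)).symm
    · obtain ⟨s1, s2⟩ := scale_pos l hl1 hl2 (cE r E') g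
      have hsame : SameLat (cE r E) (scale l hl1 hl2 (cE r E')) := by
        refine sameLat_of_combos _ _ a1 b1 a2 b2 a3 b3 a4 b4 ?_ ?_ ?_ ?_
        · rw [s1, f1]
        · rw [s2, f2]
        · rw [s1, s2, f3]
          ext
          · simp only [Prod.fst_add, Prod.smul_fst, Prod.fst_mul, smul_eq_mul]; ring
          · simp only [Prod.snd_add, Prod.smul_snd, Prod.snd_mul, smul_eq_mul]; ring
        · rw [s1, s2, f4]
          ext
          · simp only [Prod.fst_add, Prod.smul_fst, Prod.fst_mul, smul_eq_mul]; ring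
          · simp only [Prod.snd_add, Prod.smul_snd, Prod.snd_mul, smul_eq_mul]; ring
      obtain ⟨n, hn⟩ := river _ _ hsame
      refine ⟨n, Or.inl ?_⟩
      have h1 := hR n
      rw [← hn] at h1
      exact (Prj_inj r _ _ ((Prj_scale_pos l hl1 g).trans h1)).symm
  have hna := embO_norm r a
  have hnb := embO_norm r b
  have ha' : ((norm a : ℤ) : ℝ) ≠ 0 := by exact_mod_cast ha
  have hb' : ((norm b : ℤ) : ℝ) ≠ 0 := by exact_mod_cast hb
  have ha1 : (embO r a).1 ≠ 0 := fun h0 => ha' (by rw [← hna, h0, zero_mul])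
  have hb1 : (embO r b).1 ≠ 0 := fun h0 => hb' (by rw [← hnb, h0, zero_mul])
  rcases lt_or_gt_of_ne (div_ne_zero hb1 ha1) with h | h
  · apply key (-b)
    · rw [QuadraticAlgebra.norm_neg]; exact hb
    · rw [Ideal.span_singleton_neg]; exact hab
    · rw [map_neg, Prod.fst_neg, neg_div]; linarith
  · exact key b hb hab h

/-- Equivalent ideals: same `U`-orbit, inside a fixed sign class. -/
theorem U_of_IEq (r : Rt k) (hD : ¬ IsSquare (4 * k + 1)) (E E' : Fm k) (hE : E.om) (hE' : E'.om)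
    (h : IEq E.I E'.I) : ∃ n : ℤ, (Fm.U hD ^ n) E = E' := by
  obtain ⟨n, hn⟩ := river_ideals r hD E E' h
  have hom := Fm.om_TE_zpow hD E n
  refine ⟨n, ?_⟩
  rcases hn with hn | hn
  · rw [hn] at hom
    have : Even n := by simpa [hE, hE'] using hom
    rw [Fm.U_zpow_even hD this, hn]
  · rw [hn, Fm.om_R] at hom
    have : ¬ Even n := by simpa [hE, hE'] using hom
    rw [Int.not_even_iff_odd] at this
    rw [Fm.U_zpow_odd hD this, hn, Fm.R_R]

theorem IEq_U (hD : ¬ IsSquare (4 * k + 1)) (E : Fm k) (n : ℤ) : IEq E.I ((Fm.U hD ^ n) E).I := by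
  rcases Int.even_or_odd n with h | h
  · rw [Fm.U_zpow_even hD h]; exact IEq_TE_zpow hD E n
  · rw [Fm.U_zpow_odd hD h]; exact (IEq_TE_zpow hD E n).trans (IEq_R _)

end Pool.Agent.Lib.MP_6dddb9_nt
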