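import Pool.Agent.Lib.MP_6dddb9_nt.Forms

set_option autoImplicit false

/-! Ideals of the quadratic order of discriminant `4k+1`. -/

namespace Pool.Agent.Lib.MP_6dddb9_nt

open QuadraticAlgebra

/-- The quadratic order with `ω² = ω + k`. -/
abbrev Ord (k : ℤ) : Type := QuadraticAlgebra ℤ k 1

variable {k : ℤ}

/-- The ideal `(y, m + ω)`. -/
def II (k m y : ℤ) : Ideal (Ord k) := Ideal.span {(y : Ord k), ⟨m, 1⟩}

theorem mem_II {m y z : ℤ} (h : m * m + m + y * z = k) (α : Ord k) :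
    α ∈ II k m y ↔ ∃ u v : ℤ, α = ⟨u * y + v * m, v⟩ := by
  unfold II
  rw [Ideal.mem_span_pair]
  constructor
  · rintro ⟨a, b, rfl⟩
    refine ⟨a.re - a.im * m + b.im * z, a.im * y + b.re + b.im * m + b.im, ?_⟩
    ext
    · simp
      linear_combination (-b.im) * h
    · simp
      ring
  · rintro ⟨u, v, rfl⟩
    refine ⟨⟨u, 0⟩, ⟨v, 0⟩, ?_⟩
    ext
    · simp
    · simp

/-- Equivalence of ideals. -/
def IEq (I J : Ideal (Ord k)) : Prop :=
  ∃ a b : Ord k, norm a ≠ 0 ∧ norm b ≠ 0 ∧ Ideal.span {a} * I = Ideal.span {b} * J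

theorem IEq.refl (I : Ideal (Ord k)) : IEq I I := ⟨1, 1, by simp, by simp, rfl⟩

theorem IEq.symm {I J : Ideal (Ord k)} (h : IEq I J) : IEq J I := by
  obtain ⟨a, b, ha, hb, h⟩ := h
  exact ⟨b, a, hb, ha, h.symm⟩

theorem IEq.trans {I J K : Ideal (Ord k)} (h : IEq I J) (h' : IEq J K) : IEq I K := by
  obtain ⟨a, b, ha, hb, h⟩ := h
  obtain ⟨c, d, hc, hd, h'⟩ := h'
  refine ⟨c * a, b * d, by rw [map_mul]; exact mul_ne_zero hc ha,
    by rw [map_mul]; exact mul_ne_zero hb hd, ?_⟩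
  rw [← Ideal.span_singleton_mul_span_singleton, ← Ideal.span_singleton_mul_span_singleton,
    mul_assoc, h, mul_assoc, ← h', ← mul_assoc, ← mul_assoc, mul_comm (Ideal.span {c})]

theorem IEq.mul_left {I J : Ideal (Ord k)} (h : IEq I J) (L : Ideal (Ord k)) :
    IEq (L * I) (L * J) := by
  obtain ⟨a, b, ha, hb, h⟩ := h
  refine ⟨a, b, ha, hb, ?_⟩
  rw [mul_left_comm, h, mul_left_comm]

theorem IEq.span_mul (a : Ord k) (ha : norm a ≠ 0) (I : Ideal (Ord k)) :
    IEq (Ideal.span {a} * I) I :=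
  ⟨1, a, by simp, ha, by rw [Ideal.span_singleton_one, Ideal.one_eq_top.symm, one_mul]⟩

theorem span_pair_mul (a s t : Ord k) :
    Ideal.span {a} * Ideal.span {s, t} = Ideal.span {a * s, a * t} := by
  rw [Ideal.span_mul_span']
  congr 1
  ext x
  simp [eq_comm]

theorem span_pair_eq {s t s' t' : Ord k} (a b c d a' b' c' d' : Ord k)
    (h1 : s' = a * s + b * t) (h2 : t' = c * s + d * t)
    (h3 : s = a' * s' + b' * t') (h4 : t = c' * s' + d' * t') :
    Ideal.span {s, t} = Ideal.span {s', t'} := by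
  apply le_antisymm
  · rw [Ideal.span_le]
    rintro x (rfl | rfl)
    · exact Ideal.mem_span_pair.2 ⟨a', b', h3.symm⟩
    · exact Ideal.mem_span_pair.2 ⟨c', d', h4.symm⟩
  · rw [Ideal.span_le]
    rintro x (rfl | rfl)
    · exact Ideal.mem_span_pair.2 ⟨a, b, h1.symm⟩
    · exact Ideal.mem_span_pair.2 ⟨c, d, h2.symm⟩

theorem norm_int (n : ℤ) : norm ((n : ℤ) : Ord k) = n * n := by
  rw [norm_def]; simp

theorem norm_mk (a b : ℤ) : norm (⟨a, b⟩ : Ord k) = a * a + a * b - k * (b * b) := by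
  rw [norm_def]; ring_nf

/-- Change of `m` modulo `y`. -/
theorem II_shift (m y t : ℤ) : II k (m + t * y) y = II k m y := by
  unfold II
  refine span_pair_eq 1 0 ⟨-t, 0⟩ 1 1 0 ⟨t, 0⟩ 1 ?_ ?_ ?_ ?_
  · simp
  · ext <;> simp
  · simp
  · ext <;> simp; ring

/-- Swap. -/
theorem II_swap {m y z : ℤ} (h : m * m + m + y * z = k) (hy : y ≠ 0) (hz : z ≠ 0) :
    IEq (II k m y) (II k (-m - 1) z) := by
  refine ⟨⟨m + 1, -1⟩, y, ?_, ?_, ?_⟩
  · rw [norm_mk]
    have : (m + 1) * (m + 1) + (m + 1) * -1 - k * (-1 * -1) = -(y * z) := by linear_combination h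
    rw [this]
    exact neg_ne_zero.2 (mul_ne_zero hy hz)
  · rw [norm_int]; exact mul_ne_zero hy hy
  · unfold II
    rw [span_pair_mul, span_pair_mul]
    refine span_pair_eq 0 (-1) (-1) 0 0 (-1) (-1) 0 ?_ ?_ ?_ ?_
    · ext
      · simp; linear_combination h
      · simp
    · ext
      · simp; ring
      · simp
    · ext
      · simp; ring
      · simp
    · ext
      · simp; linear_combination h
      · simp

theorem II_neg (m y : ℤ) : II k m (-y) = II k m y := by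
  unfold II
  refine span_pair_eq (-1) 0 0 1 (-1) 0 0 1 ?_ ?_ ?_ ?_ <;> simp

/-- The ideal of a form. -/
def Fm.I (E : Fm k) : Ideal (Ord k) := II k E.m E.y

theorem IEq_R (E : Fm k) : IEq E.I (Fm.R E).I :=
  II_swap E.h E.hy.ne' E.hz.ne'

theorem IEq_T (hD : ¬ IsSquare (4 * k + 1)) (E : Fm k) : IEq E.I (Fm.T hD E).I := by
  rcases Fm.T_cases hD E with ⟨_, h1, h2, _⟩ | ⟨h0, h1, h2, h3⟩
  · unfold Fm.I
    rw [h1, h2]
    have := II_shift (k := k) E.m E.y 1
    rw [one_mul] at this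
    rw [this]
    exact IEq.refl _
  · -- swap, shift, swap back
    have hz := E.hz
    have hy := E.hy
    have e1 : IEq (II k E.m E.y) (II k (-E.m - 1) E.z) := II_swap E.h hy.ne' hz.ne'
    have e2 : II k (-E.m - 1 + 1 * E.z) E.z = II k (-E.m - 1) E.z := II_shift _ _ _
    have h4 : (-E.m - 1 + 1 * E.z) * (-E.m - 1 + 1 * E.z) + (-E.m - 1 + 1 * E.z) +
        E.z * (E.y + 2 * E.m + 1 - E.z) = k := by
      have := E.h
      linear_combination this
    have e3 : IEq (II k (-E.m - 1 + 1 * E.z) E.z)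
        (II k (-(-E.m - 1 + 1 * E.z) - 1) (E.y + 2 * E.m + 1 - E.z)) := II_swap h4 hz.ne' h0.ne'
    unfold Fm.I
    rw [h1, h2]
    have e4 : -(-E.m - 1 + 1 * E.z) - 1 = E.m - E.z := by ring
    rw [e4, e2] at e3
    exact e1.trans e3

theorem IEq_TE_zpow (hD : ¬ IsSquare (4 * k + 1)) (E : Fm k) (n : ℤ) :
    IEq E.I ((Fm.TE hD ^ n) E).I := by
  induction n using Int.induction_on generalizing E with
  | zero => exact IEq.refl _
  | succ n ih =>
    rw [zpow_add_one, Equiv.Perm.mul_apply]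
    exact (IEq_T hD E).trans (ih _)
  | pred n ih =>
    rw [zpow_sub_one, Equiv.Perm.mul_apply]
    refine IEq.trans ?_ (ih _)
    have h3 : ∀ F : Fm k, (Fm.TE hD)⁻¹ F = Fm.S hD F := fun _ => rfl
    rw [h3]
    have h5 := IEq_T hD (Fm.S hD E)
    rw [Fm.T_S] at h5
    exact h5.symm

/-- Reduction: every primitive ideal is equivalent to the ideal of a form. -/
theorem exists_form (hD : ¬ IsSquare (4 * k + 1)) (hk : 0 < k) (N : ℕ) : ∀ (m y z : ℤ), 0 < y →
    y ≤ N → m * m + m + y * z = k → ∃ E : Fm k, IEq (II k m y) E.I := by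
  induction N using Nat.strong_induction_on with
  | _ N ih =>
    intro m y z hy hyN h
    -- choose m' = m - t y with |2m'+1| ≤ y
    obtain ⟨t, ht1, ht2⟩ : ∃ t : ℤ, -y ≤ 2 * (m + t * y) + 1 ∧ 2 * (m + t * y) + 1 ≤ y := by
      refine ⟨-((2 * m + 1 + y) / (2 * y)), ?_, ?_⟩
      · have := Int.mul_ediv_self_le (x := 2 * m + 1 + y) (k := 2 * y) (by omega)
        linarith
      · have := Int.lt_mul_ediv_self_add (x := 2 * m + 1 + y) (k := 2 * y) (by omega)
        linarith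
    set m' := m + t * y with hm'
    set z' := z - t * (2 * m + 1) - t * t * y with hz'
    have h' : m' * m' + m' + y * z' = k := by
      rw [hm', hz']; linear_combination h
    have hI : II k m' y = II k m y := II_shift m y t
    have hz0 : z' ≠ 0 := by
      intro h0
      apply hD
      refine ⟨2 * m' + 1, ?_⟩
      rw [h0] at h'
      linear_combination (-4) * h'
    rcases lt_or_gt_of_ne hz0 with hneg | hpos
    · -- swap
      have h4 : (-m' - 1) * (-m' - 1) + (-m' - 1) + (-z') * (-y) = k := by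
        linear_combination h'
      have h5 : -z' < y := by
        have h6 : (2 * m' + 1) * (2 * m' + 1) ≤ y * y := by nlinarith
        have h7 : 4 * (y * -z') < y * y := by nlinarith
        have h8 : 4 * -z' < y := by
          by_contra hcon
          push Not at hcon
          nlinarith
        omega
      obtain ⟨E, hE⟩ := ih (-z').toNat (by omega) (-m' - 1) (-z') (-y) (by omega) (by omega) h4
      refine ⟨E, ?_⟩
      rw [← hI]
      have h9 := II_swap h' hy.ne' hz0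
      rw [II_neg] at hE
      exact h9.trans hE
    · exact ⟨⟨m', y, z', hy, hpos, h'⟩, by
        show IEq (II k m y) (II k m' y)
        rw [hI]; exact IEq.refl _⟩

/-- Hermite form of an ideal. -/
theorem hermite (I : Ideal (Ord k)) (n : ℤ) (hn : n ≠ 0) (hnI : (n : Ord k) ∈ I) :
    ∃ g m y z : ℤ, 0 < g ∧ 0 < y ∧ m * m + m + y * z = k ∧ I = Ideal.span {(g : Ord k)} * II k m y := by
  -- imaginary parts
  let J : Ideal ℤ := Submodule.map (imₗ (a := k) (b := (1 : ℤ))) (I.restrictScalars ℤ)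
  let N : Ideal ℤ := Ideal.comap (algebraMap ℤ (Ord k)) I
  obtain ⟨g₀, hg₀⟩ := (IsPrincipalIdealRing.principal J).principal
  obtain ⟨N₀, hN₀⟩ := (IsPrincipalIdealRing.principal N).principal
  have hJ : ∀ t : ℤ, t ∈ J ↔ g₀ ∣ t := fun t => by
    rw [hg₀]; exact Ideal.mem_span_singleton
  have hN : ∀ t : ℤ, ((t : ℤ) : Ord k) ∈ I ↔ N₀ ∣ t := fun t => by
    have h1 : t ∈ N ↔ N₀ ∣ t := by rw [hN₀]; exact Ideal.mem_span_singleton
    rw [← h1]
    rfl
  have hJ' : ∀ α : Ord k, α ∈ I → g₀ ∣ α.im := fun α hα => by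
    rw [← hJ]
    exact ⟨α, hα, rfl⟩
  obtain ⟨α₀, hα₀, hα₀'⟩ : ∃ α ∈ I, α.im = g₀ := by
    have : g₀ ∈ J := (hJ g₀).2 dvd_rfl
    obtain ⟨α, h1, h2⟩ := this
    exact ⟨α, h1, h2⟩
  have hω : ∀ α ∈ I, (⟨k * α.im, α.re + α.im⟩ : Ord k) ∈ I := by
    intro α hα
    have := I.mul_mem_left (⟨0, 1⟩ : Ord k) hα
    convert this using 1
    ext
    · simp
    · simp
  have hN₀0 : N₀ ≠ 0 := by
    intro h0
    have := (hN n).1 hnI
    rw [h0, zero_dvd_iff] at this
    exact hn this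
  have hN₀I : ((N₀ : ℤ) : Ord k) ∈ I := (hN N₀).2 dvd_rfl
  have hgN : g₀ ∣ N₀ := by
    have := hJ' _ (hω _ hN₀I)
    simpa using this
  obtain ⟨y₀, hy₀⟩ := hgN
  have hgm : g₀ ∣ α₀.re := by
    have h1 := hJ' _ (hω _ hα₀)
    simp only at h1
    rw [hα₀'] at h1
    exact (dvd_add_left dvd_rfl).1 h1
  obtain ⟨m, hm⟩ := hgm
  have hg0 : g₀ ≠ 0 := by
    rintro rfl
    rw [zero_mul] at hy₀
    exact hN₀0 hy₀
  have hα₀eq : α₀ = ⟨g₀ * m, g₀⟩ := by
    ext
    · exact hm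
    · exact hα₀'
  -- y₀ divides
  have hdiv : y₀ ∣ k - m * m - m := by
    have h1 := I.sub_mem (hω _ hα₀) (I.mul_mem_left ((m + 1 : ℤ) : Ord k) hα₀)
    have h2 : (⟨k * α₀.im, α₀.re + α₀.im⟩ : Ord k) - ((m + 1 : ℤ) : Ord k) * α₀ =
        ((g₀ * (k - m * m - m) : ℤ) : Ord k) := by
      rw [hα₀eq]
      ext
      · simp; ring
      · simp; ring
    rw [h2, hN, hy₀] at h1
    exact (mul_dvd_mul_iff_left hg0).1 h1
  obtain ⟨z₀, hz₀⟩ := hdiv
  have hform : m * m + m + y₀ * z₀ = k := by linarith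
  have hI : I = Ideal.span {((g₀ : ℤ) : Ord k)} * II k m y₀ := by
    unfold II
    rw [span_pair_mul]
    apply le_antisymm
    · intro α hα
      obtain ⟨t, ht⟩ := hJ' α hα
      have h1 := I.sub_mem hα (I.mul_mem_left ((t : ℤ) : Ord k) hα₀)
      have h2 : α - ((t : ℤ) : Ord k) * α₀ = ((α.re - t * (g₀ * m) : ℤ) : Ord k) := by
        rw [hα₀eq]
        ext
        · simp
        · simp; rw [ht]; ring
      rw [h2, hN, hy₀] at h1
      obtain ⟨u, hu⟩ := h1
      rw [Ideal.mem_span_pair]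
      refine ⟨(u : ℤ), (t : ℤ), ?_⟩
      ext
      · simp; linarith
      · simp; rw [ht]; ring
    · rw [Ideal.span_le]
      rintro x (rfl | rfl)
      · have : ((g₀ : ℤ) : Ord k) * ((y₀ : ℤ) : Ord k) = ((N₀ : ℤ) : Ord k) := by
          rw [hy₀]; push_cast; rfl
        rw [this]; exact hN₀I
      · have : ((g₀ : ℤ) : Ord k) * (⟨m, 1⟩ : Ord k) = α₀ := by
          rw [hα₀eq]
          ext
          · simp
          · simp
        rw [this]; exact hα₀
  have hy00 : y₀ ≠ 0 := by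
    rintro rfl
    rw [mul_zero] at hy₀
    exact hN₀0 hy₀
  have hspan : Ideal.span {((g₀ : ℤ) : Ord k)} = Ideal.span {((|g₀| : ℤ) : Ord k)} := by
    rcases abs_choice g₀ with h | h
    · rw [h]
    · rw [h]; push_cast; rw [Ideal.span_singleton_neg]
  have hII : II k m y₀ = II k m |y₀| := by
    rcases abs_choice y₀ with h | h
    · rw [h]
    · rw [h, II_neg]
  obtain ⟨z₁, hz₁⟩ : ∃ z₁, y₀ * z₀ = |y₀| * z₁ := by
    rcases abs_choice y₀ with h | h
    · exact ⟨z₀, by rw [h]⟩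
    · exact ⟨-z₀, by rw [h]; ring⟩
  exact ⟨|g₀|, m, |y₀|, z₁, abs_pos.2 hg0, abs_pos.2 hy00, by rw [← hz₁]; exact hform,
    by rw [← hspan, ← hII]; exact hI⟩

/-- Every nonzero ideal is equivalent to the ideal of a form. -/
theorem exists_form_of_ideal (hD : ¬ IsSquare (4 * k + 1)) (hk : 0 < k) (I : Ideal (Ord k)) (n : ℤ)
    (hn : n ≠ 0) (hnI : (n : Ord k) ∈ I) : ∃ E : Fm k, IEq I E.I := by
  obtain ⟨g, m, y, z, hg, hy, h, hI⟩ := hermite I n hn hnI
  obtain ⟨E, hE⟩ := exists_form hD hk y.toNat m y z hy (by omega) h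
  refine ⟨E, IEq.trans ?_ hE⟩
  rw [hI]
  apply IEq.span_mul
  rw [norm_int]
  exact mul_ne_zero hg.ne' hg.ne'

end Pool.Agent.Lib.MP_6dddb9_nt
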