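import Pool.Agent.Lib.MP_6dddb9_nt.Count
import Pool.Agent.Lib.MP_6dddb9_nt.Defs

set_option autoImplicit false

/-! m-reduced quadratic irrationals and forms. -/

namespace Pool.Agent.Lib.MP_6dddb9_nt

variable {k : ℤ}

/-- Forms corresponding to m-reduced numbers. -/
def V (k : ℤ) : Type := {E : Fm k // 0 < E.y - 2 * E.m - 1 - E.z}

instance : Finite (V k) := inferInstanceAs (Finite {E : Fm k // 0 < E.y - 2 * E.m - 1 - E.z})

theorem V_R (hD : ¬ IsSquare (4 * k + 1)) (E : Fm k) :
    0 < (Fm.R E).y - 2 * (Fm.R E).m - 1 - (Fm.R E).z ↔ ¬ 0 < E.y - 2 * E.m - 1 - E.z := by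
  have h := Fm.ne0' hD E
  show 0 < E.z - 2 * (-E.m - 1) - 1 - E.y ↔ _
  omega

open Classical in
/-- Bijection between `X` and `V`. -/
noncomputable def XV (hD : ¬ IsSquare (4 * k + 1)) : X k ≃ V k where
  toFun x := if h : 0 < x.1.y - 2 * x.1.m - 1 - x.1.z then ⟨x.1, h⟩ else ⟨Fm.R x.1, (V_R hD _).2 h⟩
  invFun x := if h : x.1.om then ⟨x.1, h⟩ else ⟨Fm.R x.1, (Fm.om_R _).2 h⟩
  left_inv x := by
    by_cases h : 0 < x.1.y - 2 * x.1.m - 1 - x.1.z
    · simp only [dif_pos h]
      rw [dif_pos x.2]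
      rfl
    · simp only [dif_neg h]
      have : ¬ (Fm.R x.1).om := by rw [Fm.om_R, not_not]; exact x.2
      rw [dif_neg this]
      apply Subtype.ext
      exact Fm.R_R _
  right_inv x := by
    by_cases h : x.1.om
    · simp only [dif_pos h]
      rw [dif_pos x.2]
      rfl
    · simp only [dif_neg h]
      have : ¬ 0 < (Fm.R x.1).y - 2 * (Fm.R x.1).m - 1 - (Fm.R x.1).z := by
        rw [V_R hD, not_not]; exact x.2
      rw [dif_neg this]
      apply Subtype.ext
      exact Fm.R_R _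

/-- The number attached to a form. -/
noncomputable def num (r : Rt k) (E : V k) : ℝ := 1 + (-(2 * (E.1.m : ℝ) + 1) + r.s) / (2 * E.1.y)

theorem num_inj (r : Rt k) : Function.Injective (num r) := by
  intro E F h
  unfold num at h
  have hE : (0 : ℝ) < E.1.y := by exact_mod_cast E.1.hy
  have hF : (0 : ℝ) < F.1.y := by exact_mod_cast F.1.hy
  have h1 : (-(2 * (E.1.m : ℝ) + 1) + r.s) * F.1.y = (-(2 * (F.1.m : ℝ) + 1) + r.s) * E.1.y := by
    have h2 : (-(2 * (E.1.m : ℝ) + 1) + r.s) / (2 * E.1.y) =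
      (-(2 * (F.1.m : ℝ) + 1) + r.s) / (2 * F.1.y) := by linarith
    rw [div_eq_div_iff (by positivity) (by positivity)] at h2
    linarith
  obtain ⟨h3, h4⟩ := r.irr (-(2 * E.1.m + 1) * F.1.y + (2 * F.1.m + 1) * E.1.y) (F.1.y - E.1.y)
    (by push_cast; linarith)
  have h5 : E.1.y = F.1.y := by linarith
  have h6 : E.1.m = F.1.m := by
    rw [h5] at h3
    have : F.1.y * (2 * (F.1.m - E.1.m)) = 0 := by linear_combination h3
    rcases mul_eq_zero.1 this with h7 | h7
    · exact absurd h7 F.1.hy.ne'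
    · linarith
  have h7 : E.1.z = F.1.z := by
    have g1 := E.1.h
    have g2 := F.1.h
    rw [h5, h6] at g1
    have : F.1.y * E.1.z = F.1.y * F.1.z := by linarith
    exact mul_left_cancel₀ F.1.hy.ne' this
  exact Subtype.ext (Fm.ext h6 h5 h7)

theorem range_num (r : Rt k) (hsq : Squarefree (4 * k + 1)) :
    Set.range (num r) = mReduced (4 * k + 1) := by
  have hs := r.hs
  ext w
  constructor
  · rintro ⟨E, rfl⟩
    have hy : (0 : ℝ) < E.1.y := by exact_mod_cast E.1.hy
    have hV : (0 : ℝ) < E.1.y - 2 * E.1.m - 1 - E.1.z := by exact_mod_cast E.2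
    have hE : (E.1.m : ℝ) * E.1.m + E.1.m + E.1.y * E.1.z = k := by exact_mod_cast E.1.h
    obtain ⟨g1, g2⟩ := r.abs_lt E.1
    have hw1 : 1 < num r E := by
      unfold num
      have : 0 < (-(2 * (E.1.m : ℝ) + 1) + r.s) / (2 * E.1.y) := by
        apply div_pos <;> linarith
      linarith
    have hroot : (E.1.y : ℝ) * num r E ^ 2 + (2 * E.1.m + 1 - 2 * E.1.y) * num r E +
        (E.1.y - 2 * E.1.m - 1 - E.1.z) = 0 := by
      have h1 : (2 * (E.1.y : ℝ)) * (num r E - 1) = -(2 * (E.1.m : ℝ) + 1) + r.s := by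
        unfold num
        field_simp
        ring
      have h2 : 4 * (E.1.y : ℝ) * ((E.1.y : ℝ) * num r E ^ 2 + (2 * E.1.m + 1 - 2 * E.1.y) * num r E +
        (E.1.y - 2 * E.1.m - 1 - E.1.z)) =
        (2 * (E.1.y : ℝ) * (num r E - 1) + (2 * E.1.m + 1)) ^ 2 -
          ((2 * (E.1.m : ℝ) + 1) ^ 2 + 4 * E.1.y * E.1.z) := by ring
      have h3 : (2 * (E.1.m : ℝ) + 1) ^ 2 + 4 * E.1.y * E.1.z = 4 * k + 1 := by
        linear_combination 4 * hE
      rw [h1, h3] at h2
      have h4 : (-(2 * (E.1.m : ℝ) + 1) + r.s + (2 * E.1.m + 1)) ^ 2 - (4 * k + 1) = 0 := by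
        linear_combination hs
      rw [h4] at h2
      rcases mul_eq_zero.1 h2 with h5 | h5
      · exfalso; linarith
      · exact h5
    have hconj : -((2 * E.1.m + 1 - 2 * E.1.y : ℤ) : ℝ) / ((E.1.y : ℤ) : ℝ) - num r E =
        1 + (-(2 * (E.1.m : ℝ) + 1) - r.s) / (2 * E.1.y) := by
      unfold num
      push_cast
      field_simp
      ring
    refine ⟨?_, E.1.y, 2 * E.1.m + 1 - 2 * E.1.y, E.1.y - 2 * E.1.m - 1 - E.1.z, E.1.hy, ?_, ?_, ?_,
      hw1, ?_, ?_⟩
    · -- irrational
      rintro ⟨t, ht⟩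
      apply r.hirr
      refine ⟨2 * E.1.y * (t - 1) + (2 * E.1.m + 1), ?_⟩
      push_cast
      rw [ht]
      unfold num
      field_simp
      ring
    · -- gcd
      by_contra hne
      obtain ⟨l, hl, hdvd⟩ := Nat.exists_prime_and_dvd hne
      have hl' : (l : ℤ) ∣ (Int.gcd (Int.gcd E.1.y (2 * E.1.m + 1 - 2 * E.1.y) : ℤ)
        (E.1.y - 2 * E.1.m - 1 - E.1.z) : ℤ) := by exact_mod_cast hdvd
      have h1 := hl'.trans (Int.gcd_dvd_left _ _)
      have h2 := hl'.trans (Int.gcd_dvd_right _ _)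
      have h3 := h1.trans (Int.gcd_dvd_left _ _)
      have h4 := h1.trans (Int.gcd_dvd_right _ _)
      have h5 : (l : ℤ) * l ∣ 4 * k + 1 := by
        have h6 : 4 * k + 1 = (2 * E.1.m + 1 - 2 * E.1.y) * (2 * E.1.m + 1 - 2 * E.1.y) -
            E.1.y * (E.1.y - 2 * E.1.m - 1 - E.1.z) * 4 := by
          have := E.1.h
          linear_combination (-4) * this
        rw [h6]
        exact dvd_sub (mul_dvd_mul h4 h4) ((mul_dvd_mul h3 h2).mul_right 4)
      have h6 := hsq _ h5
      rw [Int.isUnit_iff] at h6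
      have := hl.two_le
      omega
    · push_cast
      linarith
    · have := E.1.h
      linear_combination 4 * this
    · -- 0 < conjugate
      have hprod : (E.1.y : ℝ) * (num r E * (-((2 * E.1.m + 1 - 2 * E.1.y : ℤ) : ℝ) /
          ((E.1.y : ℤ) : ℝ) - num r E)) = E.1.y - 2 * E.1.m - 1 - E.1.z := by
        have : (E.1.y : ℝ) * (num r E * (-((2 * E.1.m + 1 - 2 * E.1.y : ℤ) : ℝ) /
          ((E.1.y : ℤ) : ℝ) - num r E)) =
          -((2 * E.1.m + 1 - 2 * E.1.y : ℤ) : ℝ) * num r E - E.1.y * num r E ^ 2 := by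
          field_simp
        rw [this]
        push_cast
        linarith
      rw [← hprod] at hV
      have h1 : 0 < num r E * (-((2 * E.1.m + 1 - 2 * E.1.y : ℤ) : ℝ) /
          ((E.1.y : ℤ) : ℝ) - num r E) := (pos_iff_pos_of_mul_pos hV).1 hy
      exact (pos_iff_pos_of_mul_pos h1).1 (by linarith)
    · rw [hconj]
      have : (-(2 * (E.1.m : ℝ) + 1) - r.s) / (2 * E.1.y) < 0 := by
        apply div_neg_of_neg_of_pos <;> linarith
      linarith
  · rintro ⟨_, a, b, c, ha, _, hroot, hdisc, hw, hc0, hc1⟩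
    have ha' : (0 : ℝ) < a := by exact_mod_cast ha
    set w' := -(b : ℝ) / a - w with hw'
    have hb : (b : ℝ) = -a * (w + w') := by
      rw [hw']; field_simp; ring
    have hc : (c : ℝ) = a * (w * w') := by
      rw [hb] at hroot
      linear_combination hroot
    have hodd : b % 2 = 1 := by
      have h1 : b ^ 2 = 4 * (k + a * c) + 1 := by linear_combination hdisc
      rcases Int.emod_two_eq_zero_or_one b with h2 | h2
      · exfalso
        obtain ⟨t, ht⟩ := Int.dvd_of_emod_eq_zero h2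
        rw [ht] at h1
        have : 4 * (t * t) = 4 * (k + a * c) + 1 := by linear_combination h1
        omega
      · exact h2
    have hz : 0 < -(a + b + c) := by
      have h1 : (a : ℝ) + b + c = a * ((1 - w) * (1 - w')) := by rw [hb, hc]; ring
      have h2 : (a : ℝ) + b + c < 0 := by
        rw [h1]
        exact mul_neg_of_pos_of_neg ha' (mul_neg_of_neg_of_pos (by linarith) (by linarith))
      have h3 : a + b + c < 0 := by exact_mod_cast h2
      omega
    have hcpos : 0 < c := by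
      have h2 : (0 : ℝ) < c := by
        rw [hc]
        exact mul_pos ha' (mul_pos (by linarith) hc0)
      exact_mod_cast h2
    have hm : 2 * ((2 * a + b - 1) / 2) + 1 = 2 * a + b := by omega
    set m := (2 * a + b - 1) / 2 with hmdef
    have hform : m * m + m + a * (-(a + b + c)) = k := by
      have h1 : 4 * (m * m + m) + 1 = (2 * a + b) ^ 2 := by rw [← hm]; ring
      have h2 : 4 * (m * m + m + a * (-(a + b + c))) = 4 * k := by linear_combination h1 + hdisc
      linarith
    refine ⟨⟨⟨m, a, -(a + b + c), ha, hz, hform⟩, ?_⟩, ?_⟩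
    · show 0 < a - 2 * m - 1 - -(a + b + c)
      omega
    · show 1 + (-(2 * (m : ℝ) + 1) + r.s) / (2 * a) = w
      have hm' : 2 * (m : ℝ) + 1 = 2 * a + b := by exact_mod_cast hm
      have hss : r.s = 2 * a * w + b := by
        have h1 : r.s ^ 2 = (2 * a * w + b) ^ 2 := by
          have h2 : (b : ℝ) ^ 2 - 4 * a * c = 4 * k + 1 := by exact_mod_cast hdisc
          linear_combination hs - h2 - 4 * a * hroot
        have h3 : 0 < 2 * a * w + b := by
          rw [hb]
          have : 2 * a * w + -a * (w + w') = a * (w - w') := by ring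
          rw [this]
          exact mul_pos ha' (by linarith)
        exact (pow_left_inj₀ r.hpos.le h3.le two_ne_zero).1 h1
      rw [hm', hss]
      field_simp
      ring

/-- The m-caliber counts the forms. -/
theorem kappaPlus_eq (r : Rt k) (hD : ¬ IsSquare (4 * k + 1)) (hsq : Squarefree (4 * k + 1)) :
    (mReduced (4 * k + 1)).Finite ∧ kappaPlus (4 * k + 1) = Nat.card (X k) := by
  constructor
  · rw [← range_num r hsq]
    exact Set.finite_range _
  · unfold kappaPlus
    rw [← range_num r hsq, ← Nat.card_coe_set_eq, ← Nat.card_congr (Equiv.ofInjective _ (num_inj r)),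
      Nat.card_congr (XV hD)]

end Pool.Agent.Lib.MP_6dddb9_nt
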