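import Pool.Agent.Lib.MP_6dddb9_nt.Forms

set_option autoImplicit false

/-! Forms versus chains, units acting as translations. -/

namespace Pool.Agent.Lib.MP_6dddb9_nt

open Chain

/-- The real square root of the discriminant. -/
structure Rt (k : ℤ) where
  s : ℝ
  hs : s * s = 4 * k + 1
  hpos : 0 < s
  hirr : Irrational s

namespace Chain

theorem scale_scale (l l' : ℝ × ℝ) (h1 : 0 < l.1) (h2 : l.2 ≠ 0) (h1' : 0 < l'.1) (h2' : l'.2 ≠ 0)
    (g1 : 0 < (l * l').1) (g2 : (l * l').2 ≠ 0) (c : Chain) :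
    scale l h1 h2 (scale l' h1' h2' c) = scale (l * l') g1 g2 c := by
  rcases lt_or_gt_of_ne h2 with h | h <;> rcases lt_or_gt_of_ne h2' with h' | h'
  · have g : 0 < (l * l').2 := mul_pos_of_neg_of_neg h h'
    obtain ⟨a1, a2⟩ := scale_neg l' h1' h2' c h'
    obtain ⟨b1, b2⟩ := scale_neg l h1 h2 (scale l' h1' h2' c) h
    obtain ⟨c1, c2⟩ := scale_pos (l * l') g1 g2 c g
    apply Chain.ext
    · rw [b1, a2, c1, mul_assoc]
    · rw [b2, a1, c2, mul_assoc]
  · have g : (l * l').2 < 0 := mul_neg_of_neg_of_pos h h'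
    obtain ⟨a1, a2⟩ := scale_pos l' h1' h2' c h'
    obtain ⟨b1, b2⟩ := scale_neg l h1 h2 (scale l' h1' h2' c) h
    obtain ⟨c1, c2⟩ := scale_neg (l * l') g1 g2 c g
    apply Chain.ext
    · rw [b1, a2, c1, mul_assoc]
    · rw [b2, a1, c2, mul_assoc]
  · have g : (l * l').2 < 0 := mul_neg_of_pos_of_neg h h'
    obtain ⟨a1, a2⟩ := scale_neg l' h1' h2' c h'
    obtain ⟨b1, b2⟩ := scale_pos l h1 h2 (scale l' h1' h2' c) h
    obtain ⟨c1, c2⟩ := scale_neg (l * l') g1 g2 c g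
    apply Chain.ext
    · rw [b1, a1, c1, mul_assoc]
    · rw [b2, a2, c2, mul_assoc]
  · have g : 0 < (l * l').2 := mul_pos h h'
    obtain ⟨a1, a2⟩ := scale_pos l' h1' h2' c h'
    obtain ⟨b1, b2⟩ := scale_pos l h1 h2 (scale l' h1' h2' c) h
    obtain ⟨c1, c2⟩ := scale_pos (l * l') g1 g2 c g
    apply Chain.ext
    · rw [b1, a1, c1, mul_assoc]
    · rw [b2, a2, c2, mul_assoc]

theorem scale_one (h1 : 0 < (1 : ℝ × ℝ).1) (h2 : (1 : ℝ × ℝ).2 ≠ 0) (c : Chain) :
    scale 1 h1 h2 c = c := by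
  obtain ⟨a1, a2⟩ := scale_pos 1 h1 h2 c one_pos
  apply Chain.ext
  · rw [a1, one_mul]
  · rw [a2, one_mul]

theorem size_scale (l : ℝ × ℝ) (h1 : 0 < l.1) (h2 : l.2 ≠ 0) (c : Chain) :
    (scale l h1 h2 c).size = l.1 * c.size := by
  unfold size
  rcases lt_or_gt_of_ne h2 with h | h
  · obtain ⟨a1, a2⟩ := scale_neg l h1 h2 c h
    rw [a1, a2]; simp only [Prod.fst_mul]; ring
  · obtain ⟨a1, a2⟩ := scale_pos l h1 h2 c h
    rw [a1, a2]; simp only [Prod.fst_mul]; ring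

theorem scale_inj (l l' : ℝ × ℝ) (h1 : 0 < l.1) (h2 : l.2 ≠ 0) (h1' : 0 < l'.1) (h2' : l'.2 ≠ 0)
    (c : Chain) (h : scale l h1 h2 c = scale l' h1' h2' c) : l = l' := by
  have e1 : l.1 = l'.1 := by
    have := congrArg Chain.size h
    rw [size_scale, size_scale] at this
    exact mul_right_cancel₀ c.size_pos.ne' this
  -- second component
  have hx2 := c.hx2
  have he2 := c.he2
  have e2 : l.2 = l'.2 := by
    rcases lt_or_gt_of_ne h2 with g | g <;> rcases lt_or_gt_of_ne h2' with g' | g'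
    · obtain ⟨a1, a2⟩ := scale_neg l h1 h2 c g
      obtain ⟨b1, b2⟩ := scale_neg l' h1' h2' c g'
      have : l.2 * c.x.2 = l'.2 * c.x.2 := by
        have := congrArg (fun d : Chain => d.e.2) h
        simp only [a2, b2, Prod.snd_mul] at this
        exact this
      exact mul_right_cancel₀ hx2.ne' this
    · obtain ⟨a1, a2⟩ := scale_neg l h1 h2 c g
      obtain ⟨b1, b2⟩ := scale_pos l' h1' h2' c g'
      exfalso
      have : l.1 * c.e.1 = l'.1 * c.x.1 := by
        have := congrArg (fun d : Chain => d.x.1) h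
        simp only [a1, b1, Prod.fst_mul] at this
        exact this
      rw [e1] at this
      exact c.ne1 (mul_left_cancel₀ h1'.ne' this).symm
    · obtain ⟨a1, a2⟩ := scale_pos l h1 h2 c g
      obtain ⟨b1, b2⟩ := scale_neg l' h1' h2' c g'
      exfalso
      have : l.1 * c.x.1 = l'.1 * c.e.1 := by
        have := congrArg (fun d : Chain => d.x.1) h
        simp only [a1, b1, Prod.fst_mul] at this
        exact this
      rw [e1] at this
      exact c.ne1 (mul_left_cancel₀ h1'.ne' this)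
    · obtain ⟨a1, a2⟩ := scale_pos l h1 h2 c g
      obtain ⟨b1, b2⟩ := scale_pos l' h1' h2' c g'
      have : l.2 * c.x.2 = l'.2 * c.x.2 := by
        have := congrArg (fun d : Chain => d.x.2) h
        simp only [a1, b1, Prod.snd_mul] at this
        exact this
      exact mul_right_cancel₀ hx2.ne' this
  exact Prod.ext e1 e2

/-- Equality up to a totally positive scaling. -/
def Prj (c c' : Chain) : Prop := ∃ (l : ℝ × ℝ) (h1 : 0 < l.1) (h2 : 0 < l.2),
  c' = scale l h1 h2.ne' c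

theorem Prj.refl (c : Chain) : Prj c c := ⟨1, one_pos, one_pos, (scale_one _ _ c).symm⟩

theorem Prj.trans {c c' c'' : Chain} (h : Prj c c') (h' : Prj c' c'') : Prj c c'' := by
  obtain ⟨l, h1, h2, rfl⟩ := h
  obtain ⟨l', h1', h2', rfl⟩ := h'
  exact ⟨l' * l, mul_pos h1' h1, mul_pos h2' h2, scale_scale _ _ _ _ _ _ _ _ _⟩

theorem Prj.symm {c c' : Chain} (h : Prj c c') : Prj c' c := by
  obtain ⟨l, h1, h2, rfl⟩ := h
  refine ⟨(l.1⁻¹, l.2⁻¹), inv_pos.2 h1, inv_pos.2 h2, ?_⟩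
  have h3 : ((l.1⁻¹, l.2⁻¹) : ℝ × ℝ) * l = 1 := by
    ext
    · simp only [Prod.fst_mul, Prod.fst_one]; field_simp
    · simp only [Prod.snd_mul, Prod.snd_one]; field_simp
  have h4 : 0 < (((l.1⁻¹, l.2⁻¹) : ℝ × ℝ) * l).1 := by rw [h3]; exact one_pos
  have h5 : (((l.1⁻¹, l.2⁻¹) : ℝ × ℝ) * l).2 ≠ 0 := by rw [h3]; exact one_ne_zero
  rw [scale_scale _ _ _ _ _ _ h4 h5]
  have h6 : ∀ (a b : ℝ × ℝ) (ha1 : 0 < a.1) (ha2 : a.2 ≠ 0) (hb1 : 0 < b.1) (hb2 : b.2 ≠ 0),
      a = b → scale a ha1 ha2 c = scale b hb1 hb2 c := by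
    intro a b ha1 ha2 hb1 hb2 hab
    subst hab
    rfl
  rw [h6 _ 1 h4 h5 one_pos one_ne_zero h3]
  exact (scale_one _ _ c).symm

theorem Prj.TE_zpow {c c' : Chain} (h : Prj c c') (n : ℤ) : Prj ((TE ^ n) c) ((TE ^ n) c') := by
  obtain ⟨l, h1, h2, rfl⟩ := h
  exact ⟨l, h1, h2, (scale_TE_zpow _ _ _ _ _).symm⟩

end Chain

section

variable {k : ℤ} (r : Rt k)

theorem Rt.abs_lt (E : Fm k) : -r.s < 2 * (E.m : ℝ) + 1 ∧ 2 * (E.m : ℝ) + 1 < r.s := by
  have h1 : (2 * (E.m : ℝ) + 1) ^ 2 + 4 * E.y * E.z = 4 * k + 1 := by exact_mod_cast E.disc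
  have hy : (0 : ℝ) < E.y := by exact_mod_cast E.hy
  have hz : (0 : ℝ) < E.z := by exact_mod_cast E.hz
  have h2 : (2 * (E.m : ℝ) + 1) ^ 2 < r.s ^ 2 := by
    have := r.hs
    nlinarith [mul_pos hy hz]
  exact _root_.abs_lt.1 (abs_lt_of_sq_lt_sq h2 r.hpos.le)

theorem Rt.irr (a b : ℤ) (h : (a : ℝ) + b * r.s = 0) : a = 0 ∧ b = 0 := by
  by_cases hb : b = 0
  · subst hb
    refine ⟨?_, rfl⟩
    simpa using h
  · exfalso
    have hb' : (b : ℝ) ≠ 0 := by exact_mod_cast hb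
    apply r.hirr
    refine ⟨(-a : ℚ) / b, ?_⟩
    push_cast
    field_simp
    linarith

/-- The chain element attached to a form. -/
noncomputable def cE (E : Fm k) : Chain where
  x := (E.y, E.y)
  e := (E.m + (1 + r.s) / 2, E.m + (1 - r.s) / 2)
  hx1 := by have := E.hy; simp only; exact_mod_cast this
  hx2 := by have := E.hy; simp only; exact_mod_cast this
  he1 := by have := (r.abs_lt E).1; simp only; linarith
  he2 := by have := (r.abs_lt E).2; simp only; linarith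
  nd1 := fun m n h => by
    simp only at h
    have h1 := r.irr (2 * m * E.y + n * (2 * E.m + 1)) n (by push_cast; linarith)
    obtain ⟨h2, h3⟩ := h1
    subst h3
    simp only [zero_mul, add_zero] at h2
    have hy := E.hy
    refine ⟨?_, rfl⟩
    rcases mul_eq_zero.1 h2 with h4 | h4
    · omega
    · omega
  nd2 := fun m n h => by
    simp only at h
    have h1 := r.irr (2 * m * E.y + n * (2 * E.m + 1)) (-n) (by push_cast; linarith)
    obtain ⟨h2, h3⟩ := h1
    have h3' : n = 0 := by omega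
    subst h3'
    simp only [zero_mul, add_zero] at h2
    have hy := E.hy
    refine ⟨?_, rfl⟩
    rcases mul_eq_zero.1 h2 with h4 | h4
    · omega
    · omega

theorem cE_x (E : Fm k) : (cE r E).x = ((E.y : ℝ), (E.y : ℝ)) := rfl
theorem cE_e (E : Fm k) : (cE r E).e = ((E.m : ℝ) + (1 + r.s) / 2, (E.m : ℝ) + (1 - r.s) / 2) := rfl

theorem beta_sq1 (E : Fm k) : ((E.m : ℝ) + (1 + r.s) / 2) * ((E.m : ℝ) + (1 + r.s) / 2) =
    (2 * E.m + 1) * ((E.m : ℝ) + (1 + r.s) / 2) + E.y * E.z := by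
  have h1 : (E.m : ℝ) * E.m + E.m + E.y * E.z = k := by exact_mod_cast E.h
  have h2 := r.hs
  linear_combination (1 / 4) * h2 - h1

theorem beta_sq2 (E : Fm k) : ((E.m : ℝ) + (1 - r.s) / 2) * ((E.m : ℝ) + (1 - r.s) / 2) =
    (2 * E.m + 1) * ((E.m : ℝ) + (1 - r.s) / 2) + E.y * E.z := by
  have h1 : (E.m : ℝ) * E.m + E.m + E.y * E.z = k := by exact_mod_cast E.h
  have h2 := r.hs
  linear_combination (1 / 4) * h2 - h1

theorem cE_T (hD : ¬ IsSquare (4 * k + 1)) (E : Fm k) :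
    Prj (Chain.T (cE r E)) (cE r (Fm.T hD E)) := by
  have hy : (0 : ℝ) < E.y := by exact_mod_cast E.hy
  have hz : (0 : ℝ) < E.z := by exact_mod_cast E.hz
  have he1 := (cE r E).he1
  have he2 := (cE r E).he2
  have hb1 := beta_sq1 r E
  have hb2 := beta_sq2 r E
  rw [cE_e] at he1 he2
  simp only at he1 he2
  have hkey : ((E.y : ℝ) + ((E.m : ℝ) + (1 - r.s) / 2)) * ((E.y : ℝ) + ((E.m : ℝ) + (1 + r.s) / 2)) =
      E.y * (E.y + 2 * E.m + 1 - E.z) := by
    have h1 : (E.m : ℝ) * E.m + E.m + E.y * E.z = k := by exact_mod_cast E.h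
    have h2 := r.hs
    linear_combination (-1 / 4) * h2 + h1
  rcases Fm.T_cases hD E with ⟨h, h1, h2, h3⟩ | ⟨h, h1, h2, h3⟩
  · have h' : (E.y : ℝ) + 2 * E.m + 1 - E.z < 0 := by exact_mod_cast h
    have h4 : (cE r E).x.2 + (cE r E).e.2 < 0 := by
      rw [cE_x, cE_e]
      simp only
      by_contra hcon
      push Not at hcon
      have h5 : 0 < (E.y : ℝ) + ((E.m : ℝ) + (1 + r.s) / 2) := by linarith
      nlinarith [mul_nonneg hcon h5.le]
    obtain ⟨h5, h6⟩ := T_of_lt _ h4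
    have : Chain.T (cE r E) = cE r (Fm.T hD E) := by
      apply Chain.ext
      · rw [h5, cE_x, cE_x, h2]
      · rw [h6, cE_x, cE_e, cE_e, h1]
        ext
        · simp only [Prod.fst_add]; push_cast; ring
        · simp only [Prod.snd_add]; push_cast; ring
    rw [this]
    exact Prj.refl _
  · have h' : 0 < (E.y : ℝ) + 2 * E.m + 1 - E.z := by exact_mod_cast h
    have h4 : 0 < (cE r E).x.2 + (cE r E).e.2 := by
      rw [cE_x, cE_e]
      simp only
      by_contra hcon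
      push Not at hcon
      have h5 : 0 < (E.y : ℝ) + ((E.m : ℝ) + (1 + r.s) / 2) := by linarith
      nlinarith [mul_nonneg (neg_nonneg.2 hcon) h5.le, mul_pos hy h']
    obtain ⟨h5, h6⟩ := T_of_gt _ h4
    have g1 : 0 < (E.y : ℝ) + ((E.m : ℝ) + (1 + r.s) / 2) := by linarith
    have g2 : 0 < (E.y : ℝ) + ((E.m : ℝ) + (1 - r.s) / 2) := by
      rw [cE_x, cE_e] at h4
      simpa using h4
    set y' : ℝ := (E.y : ℝ) + 2 * E.m + 1 - E.z with hy'
    refine ⟨(y' / ((E.y : ℝ) + ((E.m : ℝ) + (1 + r.s) / 2)),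
      y' / ((E.y : ℝ) + ((E.m : ℝ) + (1 - r.s) / 2))), div_pos h' g1, div_pos h' g2, ?_⟩
    obtain ⟨a1, a2⟩ := scale_pos (y' / ((E.y : ℝ) + ((E.m : ℝ) + (1 + r.s) / 2)),
      y' / ((E.y : ℝ) + ((E.m : ℝ) + (1 - r.s) / 2))) (div_pos h' g1) (div_pos h' g2).ne'
      (Chain.T (cE r E)) (div_pos h' g2)
    apply Chain.ext
    · rw [a1, h5, cE_x, cE_e, cE_x, h2]
      ext
      · simp only [Prod.fst_mul, Prod.fst_add]
        rw [div_mul_cancel₀ _ g1.ne', hy']
        push_cast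
        ring
      · simp only [Prod.snd_mul, Prod.snd_add]
        rw [div_mul_cancel₀ _ g2.ne', hy']
        push_cast
        ring
    · rw [a2, h6, cE_e, cE_e, h1]
      ext
      · simp only [Prod.fst_mul]
        rw [div_mul_eq_mul_div, eq_div_iff g1.ne']
        push_cast
        rw [hy']
        linear_combination (-1 : ℝ) * (0 : ℝ) + hb1
      · simp only [Prod.snd_mul]
        rw [div_mul_eq_mul_div, eq_div_iff g2.ne']
        push_cast
        rw [hy']
        linear_combination (-1 : ℝ) * (0 : ℝ) + hb2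

end

end Pool.Agent.Lib.MP_6dddb9_nt
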