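import Pool.Agent.Lib.MP_6dddb9_nt.Link

set_option autoImplicit false

/-! Forms versus chains, second part. -/

namespace Pool.Agent.Lib.MP_6dddb9_nt

open Chain

section

variable {k : ℤ} (r : Rt k)

theorem zpow_Prj (hD : ¬ IsSquare (4 * k + 1)) (E : Fm k) (n : ℤ) :
    Prj ((TE ^ n) (cE r E)) (cE r ((Fm.TE hD ^ n) E)) := by
  induction n using Int.induction_on generalizing E with
  | zero => exact Prj.refl _
  | succ n ih =>
    rw [zpow_add_one, Equiv.Perm.mul_apply, zpow_add_one, Equiv.Perm.mul_apply]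
    refine Prj.trans ?_ (ih _)
    exact Prj.TE_zpow (cE_T r hD E) n
  | pred n ih =>
    rw [zpow_sub_one, Equiv.Perm.mul_apply, zpow_sub_one, Equiv.Perm.mul_apply]
    refine Prj.trans ?_ (ih _)
    apply Prj.TE_zpow
    have h3 : ∀ F : Fm k, (Fm.TE hD)⁻¹ F = Fm.S hD F := fun _ => rfl
    have h4 : ∀ c : Chain, (Chain.TE)⁻¹ c = Chain.S c := fun _ => rfl
    rw [h3, h4]
    have h5 := cE_T r hD (Fm.S hD E)
    rw [Fm.T_S] at h5
    have h6 := Prj.TE_zpow h5.symm (-1)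
    rw [zpow_neg_one, h4, h4, Chain.S_T] at h6
    exact h6

theorem Prj_inj (E E' : Fm k) (h : Prj (cE r E) (cE r E')) : E = E' := by
  obtain ⟨l, h1, h2, h3⟩ := h
  obtain ⟨a1, a2⟩ := scale_pos l h1 h2.ne' (cE r E) h2
  have hx := congrArg Chain.x h3
  have he := congrArg Chain.e h3
  rw [a1, cE_x, cE_x] at hx
  rw [a2, cE_e, cE_e] at he
  have hx1 := congrArg Prod.fst hx
  have hx2 := congrArg Prod.snd hx
  have he1 := congrArg Prod.fst he
  have he2 := congrArg Prod.snd he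
  simp only [Prod.fst_mul, Prod.snd_mul] at hx1 hx2 he1 he2
  have hy : (0 : ℝ) < E.y := by exact_mod_cast E.hy
  have hy' : (0 : ℝ) < E'.y := by exact_mod_cast E'.hy
  have hl : l.1 = l.2 := by
    have := hx1.symm.trans hx2
    exact mul_right_cancel₀ hy.ne' this
  rw [← hl] at he2
  have hs : l.1 * r.s = r.s := by linear_combination he2 - he1
  have hl1 : l.1 = 1 := by
    have := r.hpos.ne'
    exact mul_right_cancel₀ this (by rw [hs, one_mul])
  rw [hl1, one_mul] at hx1 he1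
  have e1 : E'.y = E.y := by exact_mod_cast hx1
  have e2 : (E'.m : ℝ) = E.m := by linarith
  have e2' : E'.m = E.m := by exact_mod_cast e2
  have e3 : E'.z = E.z := by
    have g1 := E.h
    have g2 := E'.h
    rw [e1, e2'] at g2
    have : E.y * E'.z = E.y * E.z := by linarith
    exact mul_left_cancel₀ E.hy.ne' this
  exact Fm.ext e2'.symm e1.symm e3.symm

theorem beta1_pos (E : Fm k) : 0 < (E.m : ℝ) + (1 + r.s) / 2 := by
  have := (cE r E).he1
  rw [cE_e] at this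
  exact this

theorem beta2_neg (E : Fm k) : (E.m : ℝ) + (1 - r.s) / 2 < 0 := by
  have := (cE r E).he2
  rw [cE_e] at this
  exact this

theorem beta_mul (E : Fm k) : ((E.m : ℝ) + (1 + r.s) / 2) * ((E.m : ℝ) + (1 - r.s) / 2) =
    -(E.y * E.z) := by
  have h1 : (E.m : ℝ) * E.m + E.m + E.y * E.z = k := by exact_mod_cast E.h
  have h2 := r.hs
  linear_combination (-1 / 4) * h2 + h1

/-- The scaling factor between `cE E` and `cE (R E)`. -/
noncomputable def lamR (E : Fm k) : ℝ × ℝ :=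
  ((E.z : ℝ) / ((E.m : ℝ) + (1 + r.s) / 2), (E.z : ℝ) / ((E.m : ℝ) + (1 - r.s) / 2))

theorem lamR_1 (E : Fm k) : 0 < (lamR r E).1 := by
  have hz : (0 : ℝ) < E.z := by exact_mod_cast E.hz
  exact div_pos hz (beta1_pos r E)

theorem lamR_2 (E : Fm k) : (lamR r E).2 < 0 := by
  have hz : (0 : ℝ) < E.z := by exact_mod_cast E.hz
  exact div_neg_of_pos_of_neg hz (beta2_neg r E)

theorem cE_R (E : Fm k) : cE r (Fm.R E) = scale (lamR r E) (lamR_1 r E) (lamR_2 r E).ne (cE r E) := by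
  obtain ⟨a1, a2⟩ := scale_neg (lamR r E) (lamR_1 r E) (lamR_2 r E).ne (cE r E) (lamR_2 r E)
  have b1 := beta1_pos r E
  have b2 := beta2_neg r E
  have b3 := beta_mul r E
  apply Chain.ext
  · rw [a1, cE_x, cE_e]
    show (((E.z : ℤ) : ℝ), ((E.z : ℤ) : ℝ)) = _
    ext
    · simp only [lamR, Prod.fst_mul]
      rw [div_mul_cancel₀ _ b1.ne']
    · simp only [lamR, Prod.snd_mul]
      rw [div_mul_cancel₀ _ b2.ne]
  · rw [a2, cE_x, cE_e]
    show ((((-E.m - 1 : ℤ) : ℝ) + (1 + r.s) / 2), (((-E.m - 1 : ℤ) : ℝ) + (1 - r.s) / 2)) = _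
    ext
    · simp only [lamR, Prod.fst_mul]
      rw [div_mul_eq_mul_div, eq_div_iff b1.ne']
      push_cast
      linear_combination (-1 : ℝ) * b3
    · simp only [lamR, Prod.snd_mul]
      rw [div_mul_eq_mul_div, eq_div_iff b2.ne]
      push_cast
      linear_combination (-1 : ℝ) * b3

theorem cE_rho (E : Fm k) : cE r (Fm.rho E) = star (cE r E) := by
  apply Chain.ext
  · rfl
  · show ((((-E.m - 1 : ℤ) : ℝ) + (1 + r.s) / 2), (((-E.m - 1 : ℤ) : ℝ) + (1 - r.s) / 2)) =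
      (-((E.m : ℝ) + (1 - r.s) / 2), -((E.m : ℝ) + (1 + r.s) / 2))
    ext
    · push_cast; ring
    · push_cast; ring

/-- A pair of conjugate elements of the real quadratic order. -/
noncomputable def emb (a b : ℤ) : ℝ × ℝ := (a + b * ((1 + r.s) / 2), a + b * ((1 - r.s) / 2))

/-- The unit pairs with positive first component. -/
structure IsV (v : ℝ × ℝ) : Prop where
  pos : 0 < v.1
  ex : ∃ a b : ℤ, v = emb r a b ∧ (a * a + a * b - k * (b * b) = 1 ∨ a * a + a * b - k * (b * b) = -1)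

theorem IsV.norm {v : ℝ × ℝ} (h : IsV r v) : v.1 * v.2 = 1 ∨ v.1 * v.2 = -1 := by
  obtain ⟨a, b, rfl, h1⟩ := h.ex
  have h2 := r.hs
  have h3 : (emb r a b).1 * (emb r a b).2 = a * a + a * b - k * (b * b) := by
    simp only [emb]
    linear_combination (-(b : ℝ) * b / 4) * h2
  rw [h3]
  rcases h1 with h1 | h1
  · left; exact_mod_cast h1
  · right; exact_mod_cast h1

theorem IsV.ne {v : ℝ × ℝ} (h : IsV r v) : v.2 ≠ 0 := by
  intro h0
  rcases h.norm with h1 | h1 <;> rw [h0] at h1 <;> norm_num at h1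

/-- Positive units preserve the lattice. -/
theorem sameLat_unit (E : Fm k) (v : ℝ × ℝ) (hv : IsV r v) :
    SameLat (cE r E) (scale v hv.pos (hv.ne r) (cE r E)) := by
  obtain ⟨a, b, hab, hN⟩ := hv.ex
  have h2 := r.hs
  have h1 : (E.m : ℝ) * E.m + E.m + E.y * E.z = k := by exact_mod_cast E.h
  have h1' := E.h
  have hx : v * (cE r E).x = ((a - b * E.m : ℤ) : ℝ) • (cE r E).x + ((b * E.y : ℤ) : ℝ) • (cE r E).e := by
    rw [hab, cE_x, cE_e]
    ext
    · simp only [emb, Prod.fst_mul, Prod.fst_add, Prod.smul_fst, smul_eq_mul]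
      push_cast
      ring
    · simp only [emb, Prod.snd_mul, Prod.snd_add, Prod.smul_snd, smul_eq_mul]
      push_cast
      ring
  have he : v * (cE r E).e = ((b * E.z : ℤ) : ℝ) • (cE r E).x +
      ((a + b * (E.m + 1) : ℤ) : ℝ) • (cE r E).e := by
    rw [hab, cE_x, cE_e]
    ext
    · simp only [emb, Prod.fst_mul, Prod.fst_add, Prod.smul_fst, smul_eq_mul]
      push_cast
      linear_combination ((b : ℝ) / 4) * h2 - (b : ℝ) * h1
    · simp only [emb, Prod.snd_mul, Prod.snd_add, Prod.smul_snd, smul_eq_mul]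
      push_cast
      linear_combination ((b : ℝ) / 4) * h2 - (b : ℝ) * h1
  have hdet : (a - b * E.m) * (a + b * (E.m + 1)) - (b * E.y) * (b * E.z) =
      a * a + a * b - k * (b * b) := by
    linear_combination (-(b * b)) * h1'
  rcases lt_or_gt_of_ne (hv.ne r) with g | g
  · obtain ⟨a1, a2⟩ := scale_neg v hv.pos (hv.ne r) (cE r E) g
    refine ⟨b * E.z, a + b * (E.m + 1), a - b * E.m, b * E.y, ?_, ?_, ?_⟩
    · rcases hN with hN | hN
      · right; linarith
      · left; linarith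
    · rw [a1, he]
    · rw [a2, hx]
  · obtain ⟨a1, a2⟩ := scale_pos v hv.pos (hv.ne r) (cE r E) g
    refine ⟨a - b * E.m, b * E.y, b * E.z, a + b * (E.m + 1), ?_, ?_, ?_⟩
    · rcases hN with hN | hN
      · left; linarith
      · right; linarith
    · rw [a1, hx]
    · rw [a2, he]

theorem Prj_scale_pos {c : Chain} (l : ℝ × ℝ) (h1 : 0 < l.1) (h2 : 0 < l.2) :
    Prj c (scale l h1 h2.ne' c) := ⟨l, h1, h2, rfl⟩

theorem period_pos (hD : ¬ IsSquare (4 * k + 1)) (E : Fm k) (n : ℤ) (v : ℝ × ℝ)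
    (h1 : 0 < v.1) (h2 : 0 < v.2) (h : (TE ^ n) (cE r E) = scale v h1 h2.ne' (cE r E)) :
    (Fm.TE hD ^ n) E = E := by
  have h3 := zpow_Prj r hD E n
  rw [h] at h3
  exact (Prj_inj r _ _ ((Prj_scale_pos v h1 h2).trans h3)).symm

/-- A negative scaling relates to `R`. -/
theorem Prj_scale_neg (E : Fm k) (v : ℝ × ℝ) (h1 : 0 < v.1) (h2 : v.2 < 0) :
    Prj (cE r (Fm.R E)) (scale v h1 h2.ne (cE r E)) := by
  have hR := cE_R r (Fm.R E)
  rw [Fm.R_R] at hR
  rw [hR]
  have g1 : 0 < (v * lamR r (Fm.R E)).1 := mul_pos h1 (lamR_1 r _)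
  have g2 : 0 < (v * lamR r (Fm.R E)).2 := mul_pos_of_neg_of_neg h2 (lamR_2 r _)
  rw [scale_scale v _ h1 h2.ne _ _ g1 g2.ne']
  exact Prj_scale_pos _ _ g2

theorem period_neg (hD : ¬ IsSquare (4 * k + 1)) (E : Fm k) (n : ℤ) (v : ℝ × ℝ)
    (h1 : 0 < v.1) (h2 : v.2 < 0) (h : (TE ^ n) (cE r E) = scale v h1 h2.ne (cE r E)) :
    (Fm.TE hD ^ n) E = Fm.R E := by
  have h3 := zpow_Prj r hD E n
  rw [h] at h3
  exact (Prj_inj r _ _ ((Prj_scale_neg r E v h1 h2).trans h3)).symm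

/-- Every unit is a translation. -/
theorem unit_translation (E : Fm k) (v : ℝ × ℝ) (hv : IsV r v) :
    ∃ n : ℤ, (TE ^ n) (cE r E) = scale v hv.pos (hv.ne r) (cE r E) := by
  obtain ⟨n, hn⟩ := river _ _ (sameLat_unit r E v hv)
  exact ⟨n, hn.symm⟩

/-- The form `E` is primitive. -/
def Fm.Prim (E : Fm k) : Prop := ∀ t : ℤ, E.y ∣ t * (2 * E.m + 1) → E.y ∣ t * E.z → E.y ∣ t

theorem prim_of_squarefree (hsq : Squarefree (4 * k + 1)) (E : Fm k) : E.Prim := by
  have hg : IsCoprime (Int.gcd E.y (2 * E.m + 1) : ℤ) E.z := by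
    rw [Int.isCoprime_iff_gcd_eq_one]
    by_contra hne
    obtain ⟨l, hl, hdvd⟩ := Nat.exists_prime_and_dvd hne
    have hl' : (l : ℤ) ∣ (Int.gcd (Int.gcd E.y (2 * E.m + 1) : ℤ) E.z : ℤ) := by exact_mod_cast hdvd
    have h1 : (l : ℤ) ∣ (Int.gcd E.y (2 * E.m + 1) : ℤ) := hl'.trans (Int.gcd_dvd_left _ _)
    have h2 : (l : ℤ) ∣ E.z := hl'.trans (Int.gcd_dvd_right _ _)
    have h3 : (l : ℤ) ∣ E.y := h1.trans (Int.gcd_dvd_left _ _)
    have h4 : (l : ℤ) ∣ 2 * E.m + 1 := h1.trans (Int.gcd_dvd_right _ _)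
    have h5 : (l : ℤ) * l ∣ 4 * k + 1 := by
      rw [← E.disc]
      apply dvd_add
      · rw [sq]; exact mul_dvd_mul h4 h4
      · rw [mul_assoc]; exact (mul_dvd_mul h3 h2).mul_left 4
    have h6 := hsq _ h5
    rw [Int.isUnit_iff] at h6
    have := hl.two_le
    omega
  intro t h1 h2
  have h3 : E.y ∣ t * (Int.gcd E.y (2 * E.m + 1) : ℤ) := by
    rw [Int.gcd_eq_gcd_ab, mul_add]
    apply dvd_add
    · rw [← mul_assoc, mul_comm t, mul_assoc]; exact dvd_mul_right _ _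
    · rw [← mul_assoc]; exact h1.mul_right _
  obtain ⟨u, w, huw⟩ := hg
  have h4 : t = t * (Int.gcd E.y (2 * E.m + 1) : ℤ) * u + t * E.z * w := by
    linear_combination (-t) * huw
  rw [h4]
  exact dvd_add (h3.mul_right _) (h2.mul_right _)

/-- Core of the converse. -/
theorem isV_core (E : Fm k) (hP : E.Prim) (v : ℝ × ℝ) (h1 : 0 < v.1)
    (a b c d : ℤ) (hdet : a * d - b * c = 1 ∨ a * d - b * c = -1)
    (hx : v * (cE r E).x = (a : ℝ) • (cE r E).x + (b : ℝ) • (cE r E).e)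
    (he : v * (cE r E).e = (c : ℝ) • (cE r E).x + (d : ℝ) • (cE r E).e) : IsV r v := by
  have hx1 := congrArg Prod.fst hx
  have hx2 := congrArg Prod.snd hx
  have he1 := congrArg Prod.fst he
  have he2 := congrArg Prod.snd he
  rw [cE_x, cE_e] at hx1 hx2 he1 he2
  simp only [Prod.fst_mul, Prod.snd_mul, Prod.fst_add, Prod.snd_add, Prod.smul_fst, Prod.smul_snd,
    smul_eq_mul] at hx1 hx2 he1 he2
  have hy : (0 : ℝ) < E.y := by exact_mod_cast E.hy
  have hs := r.hs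
  have hE : (E.m : ℝ) * E.m + E.m + E.y * E.z = k := by exact_mod_cast E.h
  -- y * (v β) two ways
  have key : (((2 * a * E.y * E.m + 2 * b * (2 * E.m * E.m + E.m + E.y * E.z) -
      2 * c * (E.y * E.y) - 2 * d * E.y * E.m + (a * E.y + b * (2 * E.m + 1) - d * E.y) : ℤ) : ℝ)) +
      ((a * E.y + b * (2 * E.m + 1) - d * E.y : ℤ) : ℝ) * r.s = 0 := by
    push_cast
    linear_combination 2 * ((E.m + (1 + r.s) / 2) * (-hx1) + (E.y : ℝ) * he1 - (b : ℝ) / 4 * hs +
      (b : ℝ) * hE)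
  obtain ⟨k1, k2⟩ := r.irr _ _ key
  have k3 : c * E.y = b * E.z := by
    have : 2 * E.y * (c * E.y) = 2 * E.y * (b * E.z) := by
      linear_combination (2 * E.m + 1) * k2 - k1
    exact mul_left_cancel₀ (by have := E.hy; omega) this
  have k4 : E.y ∣ b * (2 * E.m + 1) := ⟨d - a, by linear_combination k2⟩
  have k5 : E.y ∣ b * E.z := ⟨c, by linear_combination -k3⟩
  obtain ⟨b', hb'⟩ := hP b k4 k5
  have hyne := E.hy.ne'
  have hc : c = b' * E.z := by
    apply mul_left_cancel₀ hyne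
    linear_combination k3 + E.z * hb'
  have hd : d = a + b' * (2 * E.m + 1) := by
    apply mul_left_cancel₀ hyne
    linear_combination -k2 + (2 * E.m + 1) * hb'
  refine ⟨h1, a + b' * E.m, b', ?_, ?_⟩
  · have hb'' : (b : ℝ) = E.y * b' := by exact_mod_cast hb'
    rw [hb''] at hx1 hx2
    ext
    · simp only [emb]
      push_cast
      apply mul_right_cancel₀ hy.ne'
      linear_combination hx1
    · simp only [emb]
      push_cast
      apply mul_right_cancel₀ hy.ne'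
      linear_combination hx2
  · have hEh := E.h
    have : (a + b' * E.m) * (a + b' * E.m) + (a + b' * E.m) * b' - k * (b' * b') =
        a * d - b * c := by
      rw [hc, hd, hb']
      linear_combination (b' * b') * hEh
    rw [this]
    exact hdet

/-- Any scaling preserving the lattice is a unit. -/
theorem isV_of_sameLat (E : Fm k) (hP : E.Prim) (v : ℝ × ℝ) (h1 : 0 < v.1) (h2 : v.2 ≠ 0)
    (h : SameLat (cE r E) (scale v h1 h2 (cE r E))) : IsV r v := by
  obtain ⟨a, b, c, d, hdet, hx, he⟩ := h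
  rcases lt_or_gt_of_ne h2 with g | g
  · obtain ⟨a1, a2⟩ := scale_neg v h1 h2 (cE r E) g
    rw [a1] at hx
    rw [a2] at he
    refine isV_core r E hP v h1 c d a b ?_ he hx
    rcases hdet with h | h
    · right; linarith
    · left; linarith
  · obtain ⟨a1, a2⟩ := scale_pos v h1 h2 (cE r E) g
    rw [a1] at hx
    rw [a2] at he
    exact isV_core r E hP v h1 a b c d hdet hx he

theorem unit_of_period (hD : ¬ IsSquare (4 * k + 1)) (E : Fm k) (hP : E.Prim) (n : ℤ)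
    (h : (Fm.TE hD ^ n) E = E ∨ (Fm.TE hD ^ n) E = Fm.R E) :
    ∃ (v : ℝ × ℝ) (hv : IsV r v), (TE ^ n) (cE r E) = scale v hv.pos (hv.ne r) (cE r E) ∧
      ((Fm.TE hD ^ n) E = E → 0 < v.2) ∧ ((Fm.TE hD ^ n) E = Fm.R E → v.2 < 0) := by
  have h3 := (zpow_Prj r hD E n).symm
  have h4 := sameLat_TE_zpow (cE r E) n
  rcases h with h | h
  · rw [h] at h3
    obtain ⟨v, h1, h2, h5⟩ := h3
    rw [h5] at h4
    refine ⟨v, isV_of_sameLat r E hP v h1 h2.ne' h4, h5, fun _ => h2, fun h6 => ?_⟩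
    rw [h] at h6
    exact absurd h6.symm (Fm.R_ne E)
  · rw [h, cE_R] at h3
    obtain ⟨v, h1, h2, h5⟩ := h3
    have g1 : 0 < (v * lamR r E).1 := mul_pos h1 (lamR_1 r _)
    have g2 : (v * lamR r E).2 < 0 := mul_neg_of_pos_of_neg h2 (lamR_2 r _)
    rw [scale_scale v _ h1 h2.ne' _ _ g1 g2.ne] at h5
    rw [h5] at h4
    refine ⟨v * lamR r E, isV_of_sameLat r E hP _ g1 g2.ne h4, h5, fun h6 => ?_, fun _ => g2⟩
    rw [h] at h6
    exact absurd h6 (Fm.R_ne E)

end

end Pool.Agent.Lib.MP_6dddb9_nt
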