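import Pool.Agent.Lib.MP_6dddb9_nt.Points

set_option autoImplicit false

/-! The congruence for the number of forms. -/

namespace Pool.Agent.Lib.MP_6dddb9_nt

open Chain

variable {k : ℤ}

theorem iff_aux1 {P Q : Prop} (h : P ↔ (P ↔ Q)) : Q := by tauto

theorem iff_aux2 {P Q : Prop} (h : ¬ P ↔ (P ↔ Q)) : ¬ Q := by tauto

theorem iff_aux3 {P Q R : Prop} (h : R ↔ (P ↔ Q)) (hP : P) : R ↔ Q := by tauto

theorem iff_aux4 {P Q₁ Q₂ R₁ R₂ : Prop} (h₁ : R₁ ↔ (P ↔ ¬ Q₁)) (h₂ : R₂ ↔ (P ↔ ¬ Q₂)) :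
    (R₁ ↔ R₂) ↔ (Q₁ ↔ Q₂) := by tauto

theorem sign_aux {σ s n : ℤ} (hσ : σ = 1 ∨ σ = -1) (hs : s = 1 ∨ s = -1) (h1 : 0 < s * n)
    (h2 : 0 < σ * n) : σ = s := by
  rcases hσ with h | h <;> rcases hs with h' | h' <;> subst h <;> subst h' <;> omega

theorem sign_aux' {σ s n : ℤ} (hσ : σ = 1 ∨ σ = -1) (hs : s = 1 ∨ s = -1) (h1 : 0 < s * n)
    (h2 : σ * n < 0) : σ = -s := by
  rcases hσ with h | h <;> rcases hs with h' | h' <;> subst h <;> subst h' <;> omega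

theorem mod_odd (P m₁ m₂ t₁ t₂ s l : ℤ) (hs : s = 1 ∨ s = -1) (hl : l = 1 ∨ l = -1)
    (hpar : (Even m₁ ↔ Even m₂) ↔ (Even t₁ ↔ Even t₂))
    (hmod : 4 * P + 2 * m₁ + 2 * m₂ + 1 ≡ s [ZMOD 4]) :
    1 - l + (2 * t₁ + 1 + (2 * t₂ + 1) - 2) ≡ 1 - s * l [ZMOD 4] := by
  simp only [Int.even_iff] at hpar
  unfold Int.ModEq at hmod ⊢
  rcases hs with rfl | rfl <;> rcases hl with rfl | rfl <;> omega

theorem mod_even (P m₁ m₂ iA iF s σ : ℤ) (hs : s = 1 ∨ s = -1) (hm₁ : Even m₁)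
    (hm₂ : Even m₂ ↔ Even iA) (hrel : (Even iF ∧ σ = s) ∨ (¬ Even iF ∧ σ = -s))
    (hmod : 4 * P + 2 * m₁ + 2 * m₂ + 1 ≡ σ [ZMOD 4]) :
    2 * iA + 2 * iF ≡ 1 - s * 1 [ZMOD 4] := by
  simp only [Int.even_iff] at hm₁ hm₂ hrel
  unfold Int.ModEq at hmod ⊢
  rcases hs with rfl | rfl <;> omega

namespace Dat

variable (δ : Dat k)

include δ

theorem chi_B₁ [Fact δ.p.Prime] : chi δ.p δ.B₁ = 1 := by
  unfold chi
  have h1 : ¬ (δ.p : ℤ) ∣ δ.B₁.y := by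
    show ¬ (δ.p : ℤ) ∣ 1
    intro h
    have := Int.le_of_dvd (by norm_num) h
    have := δ.hp.two_le
    omega
  rw [if_neg h1]
  exact legendreSym.at_one _

theorem chi_B₂ [Fact δ.p.Prime] : chi δ.p δ.B₂ = legendreSym δ.p δ.q := by
  unfold chi
  have h1 : (δ.p : ℤ) ∣ δ.B₂.y := by
    show (δ.p : ℤ) ∣ 4 * δ.u + 1
    rw [δ.hpu]
  rw [if_pos h1]
  have hpm := δ.p_mod
  rw [leg_neg _ hpm]
  have h7 : ¬ (δ.p : ℤ) ∣ 2 := by
    intro h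
    have h8 : (δ.p : ℤ) ≤ 2 := Int.le_of_dvd (by norm_num) h
    have := δ.hp.two_le
    omega
  have h8 : legendreSym δ.p 4 = 1 := by
    have : (4 : ℤ) = 2 * 2 := by norm_num
    rw [this, legendreSym.mul, ← sq, legendreSym.sq_one δ.p (leg_ne δ.p h7)]
  have h2 : legendreSym δ.p (4 * δ.B₂.z) = legendreSym δ.p δ.q := by
    apply leg_congr
    show (δ.p : ℤ) ∣ 4 * (δ.v - δ.u) - δ.q
    refine ⟨-1, ?_⟩
    rw [δ.hpu, δ.hqv]; ring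
  rw [← h2, legendreSym.mul, h8, one_mul]

/-- Class character. -/
noncomputable def chC (c : Cl δ.nsq) : ℤ := 
  haveI := Fact.mk δ.hp
  chi δ.p c.out.1

theorem chC_cl [Fact δ.p.Prime] (x : X k) : δ.chC (cl δ.nsq x) = chi δ.p x.1 := by
  have h : cl δ.nsq (cl δ.nsq x).out = cl δ.nsq x := Quotient.out_eq _
  obtain ⟨n, hn⟩ := (cl_eq δ.nsq _ _).1 h
  unfold chC
  have h2 := IEq_U δ.nsq (cl δ.nsq x).out.1 n
  rw [hn] at h2
  have hpD : (δ.p : ℤ) ∣ 4 * k + 1 := by rw [δ.hD']; exact dvd_mul_right _ _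
  exact (chi_congr δ.p δ.p_mod δ.squarefree hpD _ _ h2).symm

/-- Existence of the multiplication map. -/
theorem exists_M : ∃ M : Cl δ.nsq → Cl δ.nsq, Function.Injective M ∧ ∀ c, δ.chC (M c) = -δ.chC c := by
  have := Fact.mk δ.hp
  have := Fact.mk δ.hq
  have hpD : (δ.p : ℤ) ∣ 4 * k + 1 := by rw [δ.hD']; exact dvd_mul_right _ _
  obtain ⟨r, n, w, hr, hrB, hrp, hleg⟩ := exists_r δ.p δ.q δ.p_mod δ.q_mod δ.p_ne_q k δ.hD'
  have hr0 : r ≠ 0 := by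
    rintro rfl
    exact hrp (dvd_zero _)
  have key : ∀ x : X k, ∃ y : X k, IEq (II k n r * x.1.I) y.1.I := by
    intro x
    obtain ⟨E, hE⟩ := exists_form_of_ideal δ.nsq δ.k_pos (II k n r * x.1.I) (r * x.1.y)
      (mul_ne_zero hr0 x.1.hy.ne') (by
        push_cast
        exact Ideal.mul_mem_mul (Ideal.subset_span (by simp)) (Ideal.subset_span (by simp)))
    by_cases h : E.om
    · exact ⟨⟨E, h⟩, hE⟩
    · exact ⟨⟨Fm.R E, (Fm.om_R E).2 h⟩, hE.trans (IEq_R E)⟩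
  choose f hf using key
  refine ⟨fun c => cl δ.nsq (f c.out), ?_, ?_⟩
  · intro c c' hcc
    obtain ⟨n', hn'⟩ := (cl_eq δ.nsq _ _).1 hcc
    have h1 : IEq (f c.out).1.I (f c'.out).1.I := by
      rw [← hn']; exact IEq_U δ.nsq _ _
    have h2 : IEq (II k n r * c.out.1.I) (II k n r * c'.out.1.I) :=
      ((hf _).trans h1).trans (hf _).symm
    have h3 := h2.mul_left (II k (-n - 1) r)
    have h4 : II k (-n - 1) r * II k n r = Ideal.span {((r : ℤ) : Ord k)} := by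
      rw [mul_comm]; exact II_mul_conj hr hrB
    rw [← mul_assoc, ← mul_assoc, h4] at h3
    have hnr : QuadraticAlgebra.norm ((r : ℤ) : Ord k) ≠ 0 := by
      rw [norm_int]; exact mul_ne_zero hr0 hr0
    have h5 := ((IEq.span_mul _ hnr c.out.1.I).symm.trans h3).trans (IEq.span_mul _ hnr c'.out.1.I)
    obtain ⟨m, hm⟩ := U_of_IEq δ.rt δ.nsq _ _ c.out.2 c'.out.2 h5
    have h6 : cl δ.nsq c.out = cl δ.nsq c'.out := (cl_eq δ.nsq _ _).2 ⟨m, hm⟩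
    have e1 : cl δ.nsq c.out = c := Quotient.out_eq _
    have e2 : cl δ.nsq c'.out = c' := Quotient.out_eq _
    rw [← e1, h6, e2]
  · intro c
    show δ.chC (cl δ.nsq (f c.out)) = _
    rw [chC_cl, chi_mul δ.p δ.p_mod δ.squarefree hpD n r w hr hrB hrp hr0 _ _ (hf c.out), hleg]
    rw [neg_one_mul]
    rfl

theorem chC_pm (c : Cl δ.nsq) : δ.chC c = 1 ∨ δ.chC c = -1 := by
  have := Fact.mk δ.hp
  have hpD : (δ.p : ℤ) ∣ 4 * k + 1 := by rw [δ.hD']; exact dvd_mul_right _ _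
  exact chi_pm δ.p δ.p_mod δ.squarefree hpD _

theorem chC_sig (c : Cl δ.nsq) : δ.chC (sig δ.nsq c) = δ.chC c := by
  have := Fact.mk δ.hp
  have hpD : (δ.p : ℤ) ∣ 4 * k + 1 := by rw [δ.hD']; exact dvd_mul_right _ _
  obtain ⟨x, rfl⟩ : ∃ x, cl δ.nsq x = c := ⟨c.out, Quotient.out_eq _⟩
  rw [sig_cl, chC_cl, chC_cl]
  show chi δ.p (Fm.alp x.1) = chi δ.p x.1
  rw [← Fm.R_rho, chi_congr δ.p δ.p_mod δ.squarefree hpD _ _ (IEq_R (Fm.rho x.1))]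
  rfl

theorem prim (E : Fm k) : E.Prim := prim_of_squarefree δ.squarefree E

theorem chi_FX [Fact δ.p.Prime] (B : Fm k) (hB : Base B) : chi δ.p (FX B).1 = chi δ.p B := by
  have hpD : (δ.p : ℤ) ∣ 4 * k + 1 := by rw [δ.hD']; exact dvd_mul_right _ _
  exact chi_congr δ.p δ.p_mod δ.squarefree hpD _ _ (FX_IEq δ.nsq B hB)

/-- The comparison of two symmetric forms. -/
theorem compare (G G' : Fm k) (hG : Fm.alp G = G) (hG' : Fm.alp G' = G')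
    (hne : (2 * G.m + 1) ^ 2 ≠ (2 * G'.m + 1) ^ 2)
    (Θ : ℝ × ℝ) (hK : IsK δ.rt Θ)
    (e1 : Θ.1 * Θ.1 = δ.p * ((G.m + (1 + δ.rt.s) / 2) * (G'.m + (1 + δ.rt.s) / 2)))
    (e2 : Θ.2 * Θ.2 = δ.p * ((G.m + (1 - δ.rt.s) / 2) * (G'.m + (1 - δ.rt.s) / 2))) :
    ∃ σ : ℤ, (σ = 1 ∨ σ = -1) ∧ (2 * G.m + 1) * (2 * G'.m + 1) ≡ σ [ZMOD 4] ∧
      Θ.1 * Θ.2 * (σ * (δ.a * δ.d - δ.b * δ.c)) < 0 := by
  obtain ⟨A, B, rfl⟩ := hK
  set x := 2 * G.m + 1 with hx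
  set x' := 2 * G'.m + 1 with hx'
  have hsq : (x * x') ^ 2 = (δ.a ^ 2 * δ.c ^ 2 - δ.b ^ 2 * δ.d ^ 2) ^ 2 ∧
      (δ.p * δ.q - x ^ 2) * (δ.p * δ.q - x' ^ 2) =
        (δ.a ^ 2 * δ.d ^ 2 - δ.b ^ 2 * δ.c ^ 2) ^ 2 := by
    have hs1 : (δ.a * δ.c + δ.b * δ.d) ^ 2 + (δ.a * δ.d - δ.b * δ.c) ^ 2 = δ.p * δ.q := by
      rw [← δ.hab, ← δ.hcd]; ring
    have hs2 : (δ.a * δ.c - δ.b * δ.d) ^ 2 + (δ.a * δ.d + δ.b * δ.c) ^ 2 = δ.p * δ.q := by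
      rw [← δ.hab, ← δ.hcd]; ring
    have g1 : δ.p * δ.q - (δ.a * δ.c + δ.b * δ.d) ^ 2 = (δ.a * δ.d - δ.b * δ.c) ^ 2 := by
      linear_combination -hs1
    have g2 : δ.p * δ.q - (δ.a * δ.c - δ.b * δ.d) ^ 2 = (δ.a * δ.d + δ.b * δ.c) ^ 2 := by
      linear_combination -hs2
    rcases δ.alp_class G hG with h | h <;> rcases δ.alp_class G' hG' with h' | h'
    · exact absurd (h.1.trans h'.1.symm) hne
    · constructor
      · rw [mul_pow, h.1, h'.1]; ring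
      · rw [h.1, h'.1, g1, g2]; ring
    · constructor
      · rw [mul_pow, h.1, h'.1]; ring
      · rw [h.1, h'.1, g1, g2]; ring
    · exact absurd (h.1.trans h'.1.symm) hne
  obtain ⟨σ, hσ, hxx⟩ : ∃ σ : ℤ, (σ = 1 ∨ σ = -1) ∧
      x * x' = σ * (δ.a ^ 2 * δ.c ^ 2 - δ.b ^ 2 * δ.d ^ 2) := by
    rcases sq_eq_sq_iff_eq_or_eq_neg.1 hsq.1 with h | h
    · exact ⟨1, Or.inl rfl, by rw [h]; ring⟩
    · exact ⟨-1, Or.inr rfl, by rw [h]; ring⟩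
  have hss : δ.rt.s * δ.rt.s = (δ.p : ℤ) * (δ.q : ℤ) := by
    rw [δ.rt.hs]
    have := δ.hD'
    have h2 : (4 * (k : ℝ) + 1) = ((4 * k + 1 : ℤ) : ℝ) := by push_cast; ring
    rw [h2, this]
    push_cast
    ring
  refine ⟨σ, hσ, ?_, ?_⟩
  · rw [hxx]
    obtain ⟨a', ha'⟩ := δ.ha'
    obtain ⟨b', hb'⟩ := δ.hb'
    obtain ⟨c', hc'⟩ := δ.hc'
    obtain ⟨d', hd'⟩ := δ.hd'
    apply Int.ModEq.symm
    rw [Int.modEq_iff_dvd]
    refine ⟨σ * ((a' ^ 2 + a') * (4 * (c' ^ 2 + c') + 1) + (c' ^ 2 + c') -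
      4 * b' ^ 2 * d' ^ 2), ?_⟩
    rw [ha', hb', hc', hd']; ring
  · have hfin := arith_sign δ.p δ.q δ.a δ.b δ.c δ.d (by exact_mod_cast δ.hp.pos)
      (by exact_mod_cast δ.hq.pos) δ.hab δ.hcd δ.ha δ.hb δ.hc δ.hd δ.rt.s (by exact_mod_cast hss)
      δ.rt.hpos δ.rt.hirr x x' σ hσ hxx hsq.2 A B (by
        simp only at e1
        rw [e1, hx, hx']; push_cast; ring) (by
        simp only at e2
        rw [e2, hx, hx']; push_cast; ring)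
    have hfin' : ((A : ℝ) * A - B * B * (δ.p * δ.q)) * (σ * (δ.a * δ.d - δ.b * δ.c)) < 0 := by
      exact_mod_cast hfin
    have : ((A : ℝ) + B * δ.rt.s) * (A - B * δ.rt.s) = A * A - B * B * (δ.p * δ.q) := by
      have h1 : ((A : ℝ) + B * δ.rt.s) * (A - B * δ.rt.s) = A * A - B * B * (δ.rt.s * δ.rt.s) := by
        ring
      rw [h1, hss]; push_cast; ring
    simp only
    rw [this]
    exact hfin'

omit δ in
theorem alp_G (hD : ¬ IsSquare (4 * k + 1)) (B : Fm k) (hB : Base B) (n j : ℤ) (hj : 2 * j - 1 = n)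
    (h : (Fm.U hD ^ n) B = B) : Fm.alp ((Fm.TE hD ^ j) B) = (Fm.TE hD ^ j) B := by
  have hodd : Odd n := ⟨j - 1, by omega⟩
  rw [Fm.U_zpow_odd hD hodd] at h
  have h1 := Fm.TE_zpow_alp hD B (-j)
  rw [neg_neg] at h1
  have h2 : Fm.alp B = Fm.R (Fm.T hD B) := by rw [T_base hD B hB, Fm.R_rho]
  rw [← h1, h2, Fm.TE_zpow_R, ← Fm.TE_apply, ← Equiv.Perm.mul_apply, ← zpow_add_one]
  conv_lhs => rw [← h]
  rw [Fm.TE_zpow_R, Fm.R_R, ← Equiv.Perm.mul_apply, ← zpow_add]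
  congr 2
  omega

omit δ in
theorem eq_or_R (G G' : Fm k) (hG : Fm.alp G = G) (hG' : Fm.alp G' = G')
    (h : (2 * G.m + 1) ^ 2 = (2 * G'.m + 1) ^ 2) : G = G' ∨ G = Fm.R G' := by
  have hz : G.z = G.y := congrArg Fm.y hG
  have hz' : G'.z = G'.y := congrArg Fm.y hG'
  have hyy : G.y = G'.y := by
    have h1 := G.h
    have h2 := G'.h
    rw [hz] at h1
    rw [hz'] at h2
    have h3 : G.y ^ 2 = G'.y ^ 2 := by linarith [sq G.y, sq G'.y]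
    rcases sq_eq_sq_iff_eq_or_eq_neg.1 h3 with h4 | h4
    · exact h4
    · have := G.hy; have := G'.hy; omega
  rcases sq_eq_sq_iff_eq_or_eq_neg.1 h with h1 | h1
  · left
    exact Fm.ext (by omega) hyy (by rw [hz, hz', hyy])
  · right
    refine Fm.ext ?_ ?_ ?_
    · show G.m = -G'.m - 1; omega
    · show G.y = G'.z; rw [hz', hyy]
    · show G.z = G'.y; rw [hz, hyy]

omit δ in
theorem om_iff_of_alp (G : Fm k) (hG : Fm.alp G = G) : G.om ↔ Even G.m := by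
  have hz : G.z = G.y := congrArg Fm.y hG
  unfold Fm.om
  rw [hz, add_assoc, Int.even_add]
  constructor
  · intro h; exact h.2 ⟨G.y, rfl⟩
  · intro h; exact ⟨fun _ => ⟨G.y, rfl⟩, fun _ => h⟩

theorem total [Fact δ.p.Prime] (s : ℤ) (hs : s = 1 ∨ s = -1)
    (hsad : 0 < s * (δ.a * δ.d - δ.b * δ.c)) :
    ((Nat.card (X k) : ℤ) : ZMod 4) = ((1 - s * legendreSym δ.p δ.q : ℤ) : ZMod 4) := by
  obtain ⟨v, hv, hv1, hper, hodd⟩ := exists_eps δ.rt δ.nsq δ.prim δ.B₁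
  have hpD : (δ.p : ℤ) ∣ 4 * k + 1 := by rw [δ.hD']; exact dvd_mul_right _ _
  have hB₁y : (δ.B₁.y : ℝ) = 1 := by
    show ((1 : ℤ) : ℝ) = 1
    norm_num
  have hB₂y : (δ.B₂.y : ℝ) = δ.p := by
    show ((4 * δ.u + 1 : ℤ) : ℝ) = δ.p
    rw [← δ.hpu]; push_cast; rfl
  have hppos : (0 : ℝ) < δ.p := by exact_mod_cast δ.hp.pos
  rcases lt_or_gt_of_ne (hv.ne δ.rt) with g | g
  · -- odd case
    have hoddall : ∀ E : Fm k, Odd (Fm.per δ.nsq E) := fun E => (hodd E).2 g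
    obtain ⟨M, hM, hMχ⟩ := δ.exists_M
    obtain ⟨htot, hclne⟩ := odd_total δ.nsq (FX δ.B₁) (FX δ.B₂) (FX_sym δ.nsq _ δ.base₁)
      (FX_sym δ.nsq _ δ.base₂) δ.FX_ne δ.allF hoddall δ.chC δ.chC_pm δ.chC_sig M hM hMχ
      (by rw [chC_cl, δ.chi_FX _ δ.base₁, chi_B₁])
    rw [chC_cl, δ.chi_FX _ δ.base₂, chi_B₂, FX_per, FX_per] at htot
    obtain ⟨t₁, ht₁⟩ := hoddall δ.B₁
    obtain ⟨t₂, ht₂⟩ := hoddall δ.B₂
    have hj₁ : 2 * ((t₁ : ℤ) + 1) - 1 = (Fm.per δ.nsq δ.B₁ : ℤ) := by rw [ht₁]; push_cast; ring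
    have hj₂ : 2 * ((t₂ : ℤ) + 1) - 1 = (Fm.per δ.nsq δ.B₂ : ℤ) := by rw [ht₂]; push_cast; ring
    obtain ⟨ξ₁, hK₁, hξ₁, hξ₁', a1, a2⟩ := odd_case δ.rt δ.nsq δ.B₁ δ.base₁ _ _ hj₁ v hv.pos g
      (hper δ.B₁)
    obtain ⟨ξ₂, hK₂, hξ₂, hξ₂', b1, b2⟩ := odd_case δ.rt δ.nsq δ.B₂ δ.base₂ _ _ hj₂ v hv.pos g
      (hper δ.B₂)
    have hG₁ := alp_G δ.nsq δ.B₁ δ.base₁ _ _ hj₁ (Fm.U_zpow_per δ.nsq δ.B₁)
    have hG₂ := alp_G δ.nsq δ.B₂ δ.base₂ _ _ hj₂ (Fm.U_zpow_per δ.nsq δ.B₂)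
    have hom₁ := Fm.om_TE_zpow δ.nsq δ.B₁ ((t₁ : ℤ) + 1)
    have hom₂ := Fm.om_TE_zpow δ.nsq δ.B₂ ((t₂ : ℤ) + 1)
    have hI₁ := IEq_TE_zpow δ.nsq δ.B₁ ((t₁ : ℤ) + 1)
    have hI₂ := IEq_TE_zpow δ.nsq δ.B₂ ((t₂ : ℤ) + 1)
    set G₁ := (Fm.TE δ.nsq ^ ((t₁ : ℤ) + 1)) δ.B₁ with hG₁d
    set G₂ := (Fm.TE δ.nsq ^ ((t₂ : ℤ) + 1)) δ.B₂ with hG₂d
    rw [om_iff_of_alp G₁ hG₁] at hom₁
    rw [om_iff_of_alp G₂ hG₂, ← δ.om_B] at hom₂
    have hne : (2 * G₁.m + 1) ^ 2 ≠ (2 * G₂.m + 1) ^ 2 := by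
      intro h
      apply hclne
      have h1 : IEq G₁.I G₂.I := by
        rcases eq_or_R G₁ G₂ hG₁ hG₂ h with h | h
        · rw [h]; exact IEq.refl _
        · rw [h]; exact (IEq_R G₂).symm
      have h2 := ((((FX_IEq δ.nsq δ.B₁ δ.base₁).symm.trans hI₁).trans h1).trans hI₂.symm).trans
        (FX_IEq δ.nsq δ.B₂ δ.base₂)
      exact (cl_eq δ.nsq _ _).2 (U_of_IEq δ.rt δ.nsq _ _ (FX δ.B₁).2 (FX δ.B₂).2 h2)
    have hΘK : IsK δ.rt (v * ((ξ₁.2, ξ₁.1) * (ξ₂.2, ξ₂.1))) :=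
      (IsK.isV δ.rt hv).mul δ.rt ((hK₁.swap δ.rt).mul δ.rt (hK₂.swap δ.rt))
    rw [hB₁y, mul_one] at a1 a2
    rw [hB₂y] at b1 b2
    obtain ⟨σ, hσ, hmod, hsgn⟩ := δ.compare G₁ G₂ hG₁ hG₂ hne _ hΘK (by
      simp only [Prod.fst_mul]
      rw [a1]
      linear_combination (-(v.1 * (ξ₁.2 * ξ₁.2))) * b1) (by
      simp only [Prod.snd_mul]
      rw [a2]
      linear_combination (-(v.2 * (ξ₁.1 * ξ₁.1))) * b2)
    have hΘneg : (v * ((ξ₁.2, ξ₁.1) * (ξ₂.2, ξ₂.1))).1 * (v * ((ξ₁.2, ξ₁.1) * (ξ₂.2, ξ₂.1))).2 < 0 := by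
      simp only [Prod.fst_mul, Prod.snd_mul]
      exact mul_neg_of_pos_of_neg (mul_pos hv.pos (mul_pos hξ₁' hξ₂'))
        (mul_neg_of_neg_of_pos g (mul_pos hξ₁ hξ₂))
    have hσs : σ = s := by
      have h1 : (0 : ℝ) < σ * (δ.a * δ.d - δ.b * δ.c) := by
        by_contra hcon
        push Not at hcon
        have := mul_nonneg_of_nonpos_of_nonpos hΘneg.le hcon
        linarith
      have h2 : 0 < σ * (δ.a * δ.d - δ.b * δ.c) := by exact_mod_cast h1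
      exact sign_aux hσ hs hsad h2
    rw [htot, ZMod.intCast_eq_intCast_iff, ht₁, ht₂]
    -- parity bookkeeping
    have hpar : (Even G₁.m ↔ Even G₂.m) ↔ (Even (t₁ : ℤ) ↔ Even (t₂ : ℤ)) := by
      rw [Int.even_add_one] at hom₁ hom₂
      exact iff_aux4 hom₁ hom₂
    have hleg := legendreSym.eq_one_or_neg_one δ.p (a := (δ.q : ℤ)) (by
      apply leg_ne
      intro h
      have h1 : δ.p ∣ δ.q := by exact_mod_cast h
      rw [Nat.prime_dvd_prime_iff_eq δ.hp δ.hq] at h1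
      exact δ.p_ne_q h1)
    set P := G₁.m * G₂.m with hP
    have hmod' : 4 * P + 2 * G₁.m + 2 * G₂.m + 1 ≡ σ [ZMOD 4] := by
      have : 4 * P + 2 * G₁.m + 2 * G₂.m + 1 = (2 * G₁.m + 1) * (2 * G₂.m + 1) := by
        rw [hP]; ring
      rw [this]; exact hmod
    rw [hσs] at hmod'
    push_cast
    exact mod_odd P _ _ _ _ s _ hs hleg hpar hmod'
  · -- even case
    have hevenall : ∀ E : Fm k, Even (Fm.per δ.nsq E) := fun E => by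
      rw [← Nat.not_odd_iff_even, hodd E]
      exact not_lt.2 g.le
    obtain ⟨A₁, A₂, hA₁, hA₂, hsq₁, hsq₂, hallA⟩ := δ.exists_A
    obtain ⟨htot, ⟨iF, hiF, hUF⟩, ⟨iA, hiA, hUA⟩⟩ := even_total δ.nsq (FX δ.B₁) (FX δ.B₂) A₁ A₂
      (FX_sym δ.nsq _ δ.base₁) δ.allF hA₁ hallA hevenall
    rw [FX_per] at hiF
    -- the Legendre symbol is one
    have hleg : legendreSym δ.p δ.q = 1 := by
      have h1 := chi_congr δ.p δ.p_mod δ.squarefree hpD _ _ (IEq_U δ.nsq (FX δ.B₁).1 iF)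
      rw [hUF, δ.chi_FX _ δ.base₂, δ.chi_FX _ δ.base₁, chi_B₁, chi_B₂] at h1
      exact h1
    have hUB : (Fm.U δ.nsq ^ iF) δ.B₁ = δ.B₂ ∨ (Fm.U δ.nsq ^ iF) δ.B₁ = Fm.R δ.B₂ := by
      have hinv : (Fm.U δ.nsq ^ (-iF)) δ.B₁ = (Fm.U δ.nsq ^ iF) δ.B₁ := by
        have h1 : (Fm.U δ.nsq ^ (2 * iF)) δ.B₁ = δ.B₁ := by rw [hiF]; exact Fm.U_zpow_per δ.nsq δ.B₁
        conv_lhs => rw [← h1]
        rw [← Equiv.Perm.mul_apply, ← zpow_add]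
        congr 2
        ring
      rcases FX_cases δ.B₁ with h1 | h1 <;> rcases FX_cases δ.B₂ with h2 | h2 <;>
        rw [h1, h2, Fm.alp_U] at hUF <;> have h3 := Fm.alp_inj hUF
      · left; rw [← hinv, h3]
      · right; rw [← hinv, h3]
      · right
        rw [Fm.U_R, hinv] at h3
        rw [← Fm.R_R ((Fm.U δ.nsq ^ iF) δ.B₁), h3]
      · left
        rw [Fm.U_R, hinv] at h3
        exact Fm.R_inj h3
    have hTB : (Fm.TE δ.nsq ^ iF) δ.B₁ = δ.B₂ ∨ (Fm.TE δ.nsq ^ iF) δ.B₁ = Fm.R δ.B₂ := by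
      rcases Int.even_or_odd iF with h | h
      · rw [← Fm.U_zpow_even δ.nsq h]; exact hUB
      · rw [Fm.U_zpow_odd δ.nsq h] at hUB
        rcases hUB with h1 | h1
        · right; rw [← h1, Fm.R_R]
        · left; exact Fm.R_inj h1
    obtain ⟨μ, hμK, hμ1, ⟨hμ2, hμ2'⟩, m1, m2, m3⟩ := even_base δ.rt δ.nsq δ.B₁ δ.B₂ δ.base₁ δ.base₂ iF hTB
      v hv.pos g (by rw [hiF]; exact hper δ.B₁)
    obtain ⟨ξ, hξK, hξ1, hξ2, x1, x2⟩ := even_alp δ.rt δ.nsq A₁.1 (congrArg Fm.y hA₁) iA v hv.pos g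
      (by rw [hiA]; exact hper A₁.1)
    have hTA : (Fm.TE δ.nsq ^ iA) A₁.1 = A₂.1 ∨ (Fm.TE δ.nsq ^ iA) A₁.1 = Fm.R A₂.1 := by
      rcases Int.even_or_odd iA with h | h
      · rw [← Fm.U_zpow_even δ.nsq h]; exact Or.inl hUA
      · rw [Fm.U_zpow_odd δ.nsq h] at hUA
        right; rw [← hUA, Fm.R_R]
    have homF := Fm.om_TE_zpow δ.nsq δ.B₁ iF
    have homA := Fm.om_TE_zpow δ.nsq A₁.1 iA
    set G := (Fm.TE δ.nsq ^ iA) A₁.1 with hGd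
    have hG : Fm.alp G = G := by
      rcases hTA with h | h <;> rw [h]
      · exact hA₂
      · have : Fm.alp (Fm.R A₂.1) = Fm.R (Fm.alp A₂.1) := rfl
        rw [this, hA₂]
    have hGsq : (2 * G.m + 1) ^ 2 = (2 * A₂.1.m + 1) ^ 2 := by
      rcases hTA with h | h <;> rw [h]
      show (2 * (-A₂.1.m - 1) + 1) ^ 2 = _
      ring
    have hne : (2 * A₁.1.m + 1) ^ 2 ≠ (2 * G.m + 1) ^ 2 := by
      rw [hGsq, hsq₁, hsq₂]; exact δ.abcd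
    have hA₁m : Even A₁.1.m := (om_iff_of_alp _ hA₁).1 A₁.2
    have hGm : Even G.m ↔ Even iA := by
      rw [om_iff_of_alp G hG] at homA
      exact iff_aux3 homA A₁.2
    have hμp : |μ.1 * μ.2| * (δ.p : ℝ) = 1 := by rw [← hB₂y, m3, hB₁y]
    have hΘK : IsK δ.rt ((((δ.p : ℤ) : ℝ), ((δ.p : ℤ) : ℝ)) * (μ * ξ)) :=
      (IsK.int δ.rt δ.p).mul δ.rt (hμK.mul δ.rt hξK)
    obtain ⟨σ, hσ, hmod, hsgn⟩ := δ.compare A₁.1 G hA₁ hG hne _ hΘK (by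
      simp only [Prod.fst_mul]
      rw [← x1]
      push_cast
      linear_combination (δ.p : ℝ) * δ.p * ξ.1 * ξ.1 * m1 + (δ.p * v.1 * ξ.1 * ξ.1) * hμp) (by
      simp only [Prod.snd_mul]
      rw [← x2]
      push_cast
      linear_combination (δ.p : ℝ) * δ.p * ξ.2 * ξ.2 * m2 + (δ.p * v.2 * ξ.2 * ξ.2) * hμp)
    have hΘ : ((((δ.p : ℤ) : ℝ), ((δ.p : ℤ) : ℝ)) * (μ * ξ)).1 *
        ((((δ.p : ℤ) : ℝ), ((δ.p : ℤ) : ℝ)) * (μ * ξ)).2 = δ.p * δ.p * (μ.1 * μ.2) * (ξ.1 * ξ.2) := by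
      simp only [Prod.fst_mul, Prod.snd_mul]
      push_cast
      ring
    rw [hΘ] at hsgn
    have hξξ : ξ.1 * ξ.2 < 0 := mul_neg_of_pos_of_neg hξ1 hξ2
    have hpp : (0 : ℝ) < δ.p * δ.p := mul_pos hppos hppos
    -- relation between σ, s and the parity of iF
    have hrel : (Even iF ∧ σ = s) ∨ (¬ Even iF ∧ σ = -s) := by
      have hX : ∀ t : ℝ, t * (σ * (δ.a * δ.d - δ.b * δ.c)) < 0 → (t < 0 →
          0 < σ * (δ.a * δ.d - δ.b * δ.c)) ∧ (0 < t → σ * (δ.a * δ.d - δ.b * δ.c) < 0) := by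
        intro t ht
        constructor
        · intro h
          have h1 : (0 : ℝ) < σ * (δ.a * δ.d - δ.b * δ.c) := by
            by_contra hcon
            push Not at hcon
            have := mul_nonneg_of_nonpos_of_nonpos h.le hcon
            linarith
          exact_mod_cast h1
        · intro h
          have h1 : (σ * (δ.a * δ.d - δ.b * δ.c) : ℝ) < 0 := by
            by_contra hcon
            push Not at hcon
            have := mul_nonneg h.le hcon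
            linarith
          exact_mod_cast h1
      obtain ⟨hX1, hX2⟩ := hX _ hsgn
      rcases hTB with h | h
      · left
        have hev : Even iF := by
          rw [h, ← δ.om_B] at homF
          exact iff_aux1 homF
        refine ⟨hev, ?_⟩
        have h3 := hX1 (mul_neg_of_pos_of_neg (mul_pos hpp (mul_pos hμ1 (hμ2 h))) hξξ)
        exact sign_aux hσ hs hsad h3
      · right
        have hev : ¬ Even iF := by
          rw [h, Fm.om_R, ← δ.om_B] at homF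
          exact iff_aux2 homF
        refine ⟨hev, ?_⟩
        have h3 := hX2 (mul_pos_of_neg_of_neg (mul_neg_of_pos_of_neg hpp
          (mul_neg_of_pos_of_neg hμ1 (hμ2' h))) hξξ)
        exact sign_aux' hσ hs hsad h3
    rw [htot, ZMod.intCast_eq_intCast_iff, hleg, FX_per, ← hiF, ← hiA]
    set P := A₁.1.m * G.m with hP
    have hmod' : 4 * P + 2 * A₁.1.m + 2 * G.m + 1 ≡ σ [ZMOD 4] := by
      have : 4 * P + 2 * A₁.1.m + 2 * G.m + 1 = (2 * A₁.1.m + 1) * (2 * G.m + 1) := by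
        rw [hP]; ring
      rw [this]; exact hmod
    exact mod_even P _ _ _ _ s σ hs hA₁m hGm hrel hmod'

end Dat

end Pool.Agent.Lib.MP_6dddb9_nt
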