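import Mathlib

set_option autoImplicit false

/-! Representations of a prime and of a product of two primes as a sum of two squares. -/

namespace Pool.Agent.Lib.MP_6dddb9_nt

theorem two_sq_unique (q c d C F : ℤ) (hq : Prime q) (hq0 : 0 < q) (h1 : c ^ 2 + d ^ 2 = q)
    (h2 : C ^ 2 + F ^ 2 = q) (hc : Odd c) (hd : Even d) (hC : Odd C) (hF : Even F) :
    (C = c ∨ C = -c) ∧ (F = d ∨ F = -d) := by
  have key : ∀ F : ℤ, C ^ 2 + F ^ 2 = q → Even F → q ∣ c * C + d * F →
      (C = c ∨ C = -c) ∧ (F = d ∨ F = -d) := by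
    intro F h2 hF hdvd
    obtain ⟨t, ht⟩ := hdvd
    have h3 : (c * C + d * F) ^ 2 + (c * F - d * C) ^ 2 = q ^ 2 := by
      have : (c * C + d * F) ^ 2 + (c * F - d * C) ^ 2 = (c ^ 2 + d ^ 2) * (C ^ 2 + F ^ 2) := by ring
      rw [this, h1, h2]; ring
    have ht2 : t ^ 2 ≤ 1 := by
      rw [ht] at h3
      have : q ^ 2 * t ^ 2 ≤ q ^ 2 * 1 := by nlinarith [sq_nonneg (c * F - d * C)]
      exact le_of_mul_le_mul_left this (by positivity)
    have ht0 : t ≠ 0 := by
      rintro rfl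
      rw [mul_zero] at ht
      obtain ⟨c', hc'⟩ := hc
      obtain ⟨C', hC'⟩ := hC
      obtain ⟨d', hd'⟩ := hd
      obtain ⟨F', hF'⟩ := hF
      rw [hc', hC', hd', hF'] at ht
      have : 2 * (2 * c' * C' + c' + C' + 2 * d' * F') + 1 = 0 := by linear_combination ht
      omega
    have ht1 : t = 1 ∨ t = -1 := by
      have h5 : t ≤ 1 := by nlinarith
      have h6 : -1 ≤ t := by nlinarith
      omega
    have h7 : c * F - d * C = 0 := by
      have : (c * F - d * C) ^ 2 = 0 := by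
        rcases ht1 with h | h <;> rw [ht, h] at h3 <;> linarith
      exact pow_eq_zero_iff (two_ne_zero) |>.1 this
    have hqne : q ≠ 0 := hq0.ne'
    rcases ht1 with h | h
    · rw [h] at ht
      constructor
      · left
        apply mul_left_cancel₀ hqne
        rw [← h1]
        linear_combination c * ht - d * h7 - c * h1 
      · left
        apply mul_left_cancel₀ hqne
        rw [← h1]
        linear_combination d * ht + c * h7 - d * h1 
    · rw [h] at ht
      constructor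
      · right
        apply mul_left_cancel₀ hqne
        rw [← h1]
        linear_combination c * ht - d * h7 + c * h1
      · right
        apply mul_left_cancel₀ hqne
        rw [← h1]
        linear_combination d * ht + c * h7 + d * h1
  have h3 : q ∣ (c * C + d * F) * (c * C - d * F) := by
    refine ⟨c ^ 2 - F ^ 2, ?_⟩
    linear_combination c ^ 2 * h2 - F ^ 2 * h1
  rcases hq.dvd_or_dvd h3 with h | h
  · exact key F h2 hF h
  · have := key (-F) (by rw [neg_sq]; exact h2) hF.neg (by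
      have : c * C + d * -F = c * C - d * F := by ring
      rw [this]; exact h)
    refine ⟨this.1, ?_⟩
    rcases this.2 with h | h
    · right; linarith
    · left; linarith

theorem rep_pq (p q a b c d X Y : ℤ) (hp : Prime p) (hq : Prime q) (hp0 : 0 < p) (hq0 : 0 < q)
    (h1 : a ^ 2 + b ^ 2 = p) (h2 : c ^ 2 + d ^ 2 = q) (ha : Odd a) (hb : Even b) (hc : Odd c)
    (hd : Even d) (h3 : X ^ 2 + Y ^ 2 = p * q) (hX : Odd X) (hY : Even Y) :
    (X ^ 2 = (a * c + b * d) ^ 2 ∧ Y ^ 2 = (a * d - b * c) ^ 2) ∨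
    (X ^ 2 = (a * c - b * d) ^ 2 ∧ Y ^ 2 = (a * d + b * c) ^ 2) := by
  have hpne : p ≠ 0 := hp0.ne'
  have key : ∀ Y : ℤ, X ^ 2 + Y ^ 2 = p * q → Even Y → p ∣ a * X + b * Y →
      (X ^ 2 = (a * c + b * d) ^ 2 ∧ Y ^ 2 = (a * d - b * c) ^ 2) ∨
      (X ^ 2 = (a * c - b * d) ^ 2 ∧ Y ^ 2 = (a * d + b * c) ^ 2) := by
    intro Y h3 hY hdvd
    obtain ⟨C, hC⟩ := hdvd
    have h4 : (a * X + b * Y) ^ 2 + (b * X - a * Y) ^ 2 = p * (p * q) := by
      have : (a * X + b * Y) ^ 2 + (b * X - a * Y) ^ 2 = (a ^ 2 + b ^ 2) * (X ^ 2 + Y ^ 2) := by ring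
      rw [this, h1, h3]
    have h5 : p ∣ (b * X - a * Y) ^ 2 := by
      refine ⟨p * q - p * C ^ 2, ?_⟩
      rw [hC] at h4
      linear_combination h4
    obtain ⟨F, hF⟩ := hp.dvd_of_dvd_pow h5
    have h6 : C ^ 2 + F ^ 2 = q := by
      rw [hC, hF] at h4
      apply mul_left_cancel₀ hpne
      apply mul_left_cancel₀ hpne
      linear_combination h4
    have hXe : X = a * C + b * F := by
      apply mul_left_cancel₀ hpne
      linear_combination a * hC + b * hF - X * h1
    have hYe : Y = b * C - a * F := by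
      apply mul_left_cancel₀ hpne
      linear_combination b * hC - a * hF - Y * h1
    have hCo : Odd C := by
      by_contra hcon
      rw [Int.not_odd_iff_even] at hcon
      have : Even X := by
        rw [hXe]
        exact (hcon.mul_left a).add (hb.mul_right F)
      exact (Int.not_odd_iff_even.2 this) hX
    have hFe : Even F := by
      by_contra hcon
      rw [Int.not_even_iff_odd] at hcon
      have : Odd Y := by
        rw [hYe]
        exact (hb.mul_right C).sub_odd (ha.mul hcon)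
      exact (Int.not_odd_iff_even.2 hY) this
    obtain ⟨g1, g2⟩ := two_sq_unique q c d C F hq hq0 h2 h6 hc hd hCo hFe
    rcases g1 with g1 | g1 <;> rcases g2 with g2 | g2 <;> rw [hXe, hYe, g1, g2]
    · left; constructor <;> ring
    · right; constructor <;> ring
    · right; constructor <;> ring
    · left; constructor <;> ring
  have h4 : p ∣ (a * X + b * Y) * (a * X - b * Y) := by
    refine ⟨a ^ 2 * q - Y ^ 2, ?_⟩
    linear_combination a ^ 2 * h3 - Y ^ 2 * h1
  rcases hp.dvd_or_dvd h4 with h | h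
  · exact key Y h3 hY h
  · have := key (-Y) (by rw [neg_sq]; exact h3) hY.neg (by
      have : a * X + b * -Y = a * X - b * Y := by ring
      rw [this]; exact h)
    rwa [neg_sq] at this

/-- The sign computation. -/
theorem arith_sign (p q a b c d : ℤ) (hp0 : 0 < p) (hq0 : 0 < q)
    (h1 : a ^ 2 + b ^ 2 = p) (h2 : c ^ 2 + d ^ 2 = q) (ha : 0 < a) (hb : 0 < b) (hc : 0 < c)
    (hd : 0 < d) (s : ℝ) (hs : s * s = p * q) (hs0 : 0 < s) (hirr : Irrational s)
    (x₁ x₂ σ : ℤ) (hσ : σ = 1 ∨ σ = -1) (hx : x₁ * x₂ = σ * (a ^ 2 * c ^ 2 - b ^ 2 * d ^ 2))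
    (hx' : (p * q - x₁ ^ 2) * (p * q - x₂ ^ 2) = (a ^ 2 * d ^ 2 - b ^ 2 * c ^ 2) ^ 2)
    (A B : ℚ) (e1 : (A + B * s) * (A + B * s) = p * ((x₁ + s) / 2 * ((x₂ + s) / 2)))
    (e2 : (A - B * s) * (A - B * s) = p * ((x₁ - s) / 2 * ((x₂ - s) / 2))) :
    (A * A - B * B * (p * q)) * (σ * (a * d - b * c)) < 0 := by
  -- the norm squared
  have f1 : 4 * ((A : ℝ) * A + B * B * (p * q)) = p * (x₁ * x₂ + p * q) := by
    linear_combination 2 * e1 + 2 * e2 + (p - 4 * B * B) * hs
  have f1' : 4 * (A * A + B * B * (p * q)) = p * (x₁ * x₂ + p * q) := by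
    exact_mod_cast f1
  have f2 : (4 * ((A : ℝ) * A - B * B * (p * q))) ^ 2 =
      (p * (a ^ 2 * d ^ 2 - b ^ 2 * c ^ 2)) ^ 2 := by
    have hx'' : ((p : ℝ) * q - x₁ ^ 2) * (p * q - x₂ ^ 2) = (a ^ 2 * d ^ 2 - b ^ 2 * c ^ 2) ^ 2 := by
      exact_mod_cast hx'
    have g : ((A + B * s) * (A + B * s)) * ((A - B * s) * (A - B * s)) =
        (p * ((x₁ + s) / 2 * ((x₂ + s) / 2))) * (p * ((x₁ - s) / 2 * ((x₂ - s) / 2))) := by
      rw [e1, e2]
    have g2 : ((A : ℝ) * A - B * B * (p * q)) ^ 2 =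
        ((A + B * s) * (A + B * s)) * ((A - B * s) * (A - B * s)) := by
      have : (A : ℝ) * A - B * B * (p * q) = (A + B * s) * (A - B * s) := by
        rw [← hs]; ring
      rw [this]; ring
    have g3 : (16 : ℝ) * ((p * ((x₁ + s) / 2 * ((x₂ + s) / 2))) * (p * ((x₁ - s) / 2 * ((x₂ - s) / 2))))
        = p ^ 2 * (((p : ℝ) * q - x₁ ^ 2) * (p * q - x₂ ^ 2)) := by
      rw [← hs]; ring
    calc (4 * ((A : ℝ) * A - B * B * (p * q))) ^ 2 = 16 * ((A : ℝ) * A - B * B * (p * q)) ^ 2 := by ring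
      _ = p ^ 2 * (((p : ℝ) * q - x₁ ^ 2) * (p * q - x₂ ^ 2)) := by rw [g2, g, g3]
      _ = _ := by rw [hx'']; ring
  have f2' : (4 * (A * A - B * B * (p * q))) ^ 2 =
      ((p : ℚ) * (a ^ 2 * d ^ 2 - b ^ 2 * c ^ 2)) ^ 2 := by
    exact_mod_cast f2
  -- no rational square root
  have nosq : ∀ (t : ℚ) (n : ℤ), n ≠ 0 → t ^ 2 = (n : ℚ) ^ 2 * (p * q) → False := by
    intro t n hn ht
    apply hirr
    refine ⟨|t / n|, ?_⟩
    have hn' : (n : ℝ) ≠ 0 := by exact_mod_cast hn
    have h3 : ((|t / n| : ℚ) : ℝ) ^ 2 = s ^ 2 := by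
      push_cast
      rw [sq_abs, div_pow, sq s, hs, div_eq_iff (pow_ne_zero 2 hn')]
      have : (t : ℝ) ^ 2 = (n : ℝ) ^ 2 * (p * q) := by exact_mod_cast ht
      rw [this]; ring
    exact (pow_left_inj₀ (by exact_mod_cast abs_nonneg (t / n)) hs0.le two_ne_zero).1 h3
  have hp0' : (0 : ℚ) < p := by exact_mod_cast hp0
  have hq0' : (0 : ℚ) < q := by exact_mod_cast hq0
  have h1' : (a : ℚ) ^ 2 + b ^ 2 = p := by exact_mod_cast h1
  have h2' : (c : ℚ) ^ 2 + d ^ 2 = q := by exact_mod_cast h2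
  have hx3 : (x₁ : ℚ) * x₂ = σ * (a ^ 2 * c ^ 2 - b ^ 2 * d ^ 2) := by exact_mod_cast hx
  have hadbc : (0 : ℚ) < a * d + b * c := by
    have : 0 < a * d + b * c := by positivity
    exact_mod_cast this
  have hne : a * d - b * c ≠ 0 := by
    intro h0
    apply nosq (a * c + b * d) 1 one_ne_zero
    have h0' : (a : ℚ) * d - b * c = 0 := by exact_mod_cast h0
    push_cast
    rw [← h1', ← h2']
    linear_combination (-(a : ℚ) * d + b * c) * h0'
  have hne' : (0 : ℚ) < ((a : ℚ) * d - b * c) ^ 2 := by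
    have : (a : ℚ) * d - b * c ≠ 0 := by exact_mod_cast hne
    positivity
  rcases sq_eq_sq_iff_eq_or_eq_neg.1 f2' with h | h
  · -- τ = 1
    rcases hσ with hσ | hσ
    · exfalso
      apply nosq (2 * A) a ha.ne'
      rw [hσ] at hx3
      push_cast at hx3
      rw [hx3] at f1'
      have : 8 * A ^ 2 = 2 * (a ^ 2 * (p * q)) := by
        linear_combination f1' + h + (p * (a ^ 2 - b ^ 2) : ℚ) * h2' - (p * q : ℚ) * h1'
      linarith
    · have hval : 4 * (A * A - B * B * (p * q)) = p * ((a * d - b * c) * (a * d + b * c)) := by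
        rw [h]; ring
      rw [hσ]
      push_cast
      have h5 : (A * A - B * B * (p * q)) * (-1 * (a * d - b * c)) * 4 =
          -(p * (a * d + b * c) * (a * d - b * c) ^ 2) := by
        linear_combination (-1 * (a * d - b * c) : ℚ) * hval
      have h6 : 0 < (p : ℚ) * (a * d + b * c) * (a * d - b * c) ^ 2 := by positivity
      linarith
  · rcases hσ with hσ | hσ
    · have hval : 4 * (A * A - B * B * (p * q)) = -(p * ((a * d - b * c) * (a * d + b * c))) := by
        rw [h]; ring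
      rw [hσ]
      push_cast
      have h5 : (A * A - B * B * (p * q)) * (1 * (a * d - b * c)) * 4 =
          -(p * (a * d + b * c) * (a * d - b * c) ^ 2) := by
        linear_combination (1 * (a * d - b * c) : ℚ) * hval
      have h6 : 0 < (p : ℚ) * (a * d + b * c) * (a * d - b * c) ^ 2 := by positivity
      linarith
    · exfalso
      apply nosq (2 * A) b hb.ne'
      rw [hσ] at hx3
      push_cast at hx3
      rw [hx3] at f1'
      have : 8 * A ^ 2 = 2 * (b ^ 2 * (p * q)) := by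
        linear_combination f1' + h - (p * (a ^ 2 - b ^ 2) : ℚ) * h2' - (p * q : ℚ) * h1'
      linarith

end Pool.Agent.Lib.MP_6dddb9_nt
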