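import Pool.Agent.Lib.MP_6dddb9_nt.Units
import Pool.Agent.Lib.MP_6dddb9_nt.Reps

set_option autoImplicit false

/-! The square roots attached to symmetric points of the chains. -/

namespace Pool.Agent.Lib.MP_6dddb9_nt

open Chain

variable {k : ℤ} (r : Rt k)

/-- Elements of the quadratic field, as pairs. -/
def IsK (u : ℝ × ℝ) : Prop := ∃ A B : ℚ, u = ((A : ℝ) + B * r.s, (A : ℝ) - B * r.s)

theorem IsK.mul {u v : ℝ × ℝ} (hu : IsK r u) (hv : IsK r v) : IsK r (u * v) := by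
  obtain ⟨A, B, rfl⟩ := hu
  obtain ⟨C, D, rfl⟩ := hv
  have hs := r.hs
  refine ⟨A * C + B * D * (4 * k + 1), A * D + B * C, ?_⟩
  ext
  · simp only [Prod.fst_mul]
    push_cast
    linear_combination ((B : ℝ) * D) * hs
  · simp only [Prod.snd_mul]
    push_cast
    linear_combination ((B : ℝ) * D) * hs

theorem IsK.swap {u : ℝ × ℝ} (hu : IsK r u) : IsK r (u.2, u.1) := by
  obtain ⟨A, B, rfl⟩ := hu
  refine ⟨A, -B, ?_⟩
  ext
  · push_cast; ring
  · push_cast; ring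

theorem IsK.rat (a : ℚ) : IsK r ((a : ℝ), (a : ℝ)) := ⟨a, 0, by simp⟩

theorem IsK.int (a : ℤ) : IsK r ((a : ℝ), (a : ℝ)) := by
  have := IsK.rat r (a : ℚ)
  simpa using this

theorem IsK.smul {u : ℝ × ℝ} (a : ℚ) (hu : IsK r u) : IsK r ((a : ℝ) • u) := by
  have := (IsK.rat r a).mul r hu
  convert this using 1
  ext
  · simp
  · simp

theorem IsK.add {u v : ℝ × ℝ} (hu : IsK r u) (hv : IsK r v) : IsK r (u + v) := by
  obtain ⟨A, B, rfl⟩ := hu
  obtain ⟨C, D, rfl⟩ := hv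
  refine ⟨A + C, B + D, ?_⟩
  ext
  · simp only [Prod.fst_add]; push_cast; ring
  · simp only [Prod.snd_add]; push_cast; ring

theorem IsK.cE_x (E : Fm k) : IsK r (cE r E).x := IsK.int r E.y

theorem IsK.cE_e (E : Fm k) : IsK r (cE r E).e := by
  refine ⟨E.m + 1 / 2, 1 / 2, ?_⟩
  rw [MP_6dddb9_nt.cE_e]
  ext
  · push_cast; ring
  · push_cast; ring

theorem IsK.emb (a b : ℤ) : IsK r (emb r a b) := by
  refine ⟨a + b / 2, b / 2, ?_⟩
  unfold MP_6dddb9_nt.emb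
  ext
  · push_cast; ring
  · push_cast; ring

theorem IsK.isV {v : ℝ × ℝ} (hv : IsV r v) : IsK r v := by
  obtain ⟨a, b, rfl, _⟩ := hv.ex
  exact IsK.emb r a b

theorem IsK.combo {u v : ℝ × ℝ} (a b : ℤ) (hu : IsK r u) (hv : IsK r v) :
    IsK r ((a : ℝ) • u + (b : ℝ) • v) := by
  have h1 := hu.smul r (a : ℚ)
  have h2 := hv.smul r (b : ℚ)
  have := h1.add r h2
  simpa using this

theorem IsK.chain (E : Fm k) (n : ℤ) :
    IsK r ((TE ^ n) (cE r E)).x ∧ IsK r ((TE ^ n) (cE r E)).e := by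
  obtain ⟨a, b, c, d, _, hx, he⟩ := sameLat_TE_zpow (cE r E) n
  rw [hx, he]
  exact ⟨(IsK.cE_x r E).combo r _ _ (IsK.cE_e r E), (IsK.cE_x r E).combo r _ _ (IsK.cE_e r E)⟩

/-- Determinant of a chain element. -/
def Chain.det (c : Chain) : ℝ := c.x.1 * c.e.2 - c.x.2 * c.e.1

theorem det_T (c : Chain) : (T c).det = c.det := by
  unfold Chain.det
  rcases T_cases c with ⟨_, h1, h2⟩ | ⟨_, h1, h2⟩
  · rw [h1, h2]; simp only [Prod.fst_add, Prod.snd_add]; ring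
  · rw [h1, h2]; simp only [Prod.fst_add, Prod.snd_add]; ring

theorem det_TE_zpow (c : Chain) (n : ℤ) : ((TE ^ n) c).det = c.det := by
  induction n using Int.induction_on generalizing c with
  | zero => rfl
  | succ n ih =>
    rw [zpow_add_one, Equiv.Perm.mul_apply, ih, TE_apply, det_T]
  | pred n ih =>
    rw [zpow_sub_one, Equiv.Perm.mul_apply, ih]
    have h3 : TE⁻¹ c = S c := rfl
    have h4 := det_T (S c)
    rw [T_S] at h4
    rw [h3, ← h4]

theorem det_cE (E : Fm k) : (cE r E).det = -(E.y * r.s) := by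
  unfold Chain.det
  rw [cE_x, cE_e]
  simp only
  ring

/-- Base forms. -/
def Base (B : Fm k) : Prop := B.y = -(2 * B.m + 1)

theorem star_base (B : Fm k) (hB : Base B) : star (cE r B) = T (cE r B) := by
  have h1 := beta1_pos r B
  have hB' : (B.y : ℝ) = -(2 * B.m + 1) := by exact_mod_cast hB
  have h2 : (cE r B).x.2 + (cE r B).e.2 < 0 := by
    rw [cE_x, cE_e]
    simp only
    linarith
  obtain ⟨h3, h4⟩ := T_of_lt _ h2
  apply Chain.ext
  · rw [h3]; rfl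
  · rw [h4, cE_x, cE_e]
    show (-((B.m : ℝ) + (1 - r.s) / 2), -((B.m : ℝ) + (1 + r.s) / 2)) = _
    ext
    · simp only [Prod.fst_add]; linarith
    · simp only [Prod.snd_add]; linarith

/-- Norm of the first vector of a chain element of `cE B` proportional to `cE F`. -/
theorem norm_vec (B F : Fm k) (c : Chain) (hdet : c.det = (cE r B).det) (l : ℝ × ℝ) (h1 : 0 < l.1)
    (h2 : 0 < l.2) (h : cE r F = scale l h1 h2.ne' c) :
    (F.y : ℝ) = l.1 * c.x.1 ∧ (F.y : ℝ) = l.2 * c.x.2 ∧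
    (F.m : ℝ) + (1 + r.s) / 2 = l.1 * c.e.1 ∧ (F.m : ℝ) + (1 - r.s) / 2 = l.2 * c.e.2 ∧
    c.x.1 * c.x.2 = F.y * B.y := by
  obtain ⟨a1, a2⟩ := scale_pos l h1 h2.ne' c h2
  have hx := congrArg Chain.x h
  have he := congrArg Chain.e h
  rw [a1, cE_x] at hx
  rw [a2, cE_e] at he
  have hx1 := congrArg Prod.fst hx
  have hx2 := congrArg Prod.snd hx
  have he1 := congrArg Prod.fst he
  have he2 := congrArg Prod.snd he
  simp only [Prod.fst_mul, Prod.snd_mul] at hx1 hx2 he1 he2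
  refine ⟨hx1, hx2, he1, he2, ?_⟩
  have hFy : (0 : ℝ) < F.y := by exact_mod_cast F.hy
  have hs := r.hpos
  rw [det_cE] at hdet
  unfold Chain.det at hdet
  -- F.y s = l.1 l.2 B.y s
  have h3 : (F.y : ℝ) * r.s = l.1 * l.2 * (B.y * r.s) := by
    have e1 : (F.y : ℝ) * ((F.m : ℝ) + (1 - r.s) / 2) - F.y * ((F.m : ℝ) + (1 + r.s) / 2) =
        l.1 * l.2 * (c.x.1 * c.e.2 - c.x.2 * c.e.1) := by
      have g1 : (F.y : ℝ) * ((F.m : ℝ) + (1 - r.s) / 2) = l.1 * c.x.1 * (l.2 * c.e.2) := by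
        rw [← hx1, ← he2]
      have g2 : (F.y : ℝ) * ((F.m : ℝ) + (1 + r.s) / 2) = l.2 * c.x.2 * (l.1 * c.e.1) := by
        rw [← hx2, ← he1]
      rw [g1, g2]; ring
    rw [hdet] at e1
    linear_combination -e1
  have h4 : (F.y : ℝ) = l.1 * l.2 * B.y := by
    apply mul_right_cancel₀ hs.ne'
    linear_combination h3
  have h5 : (F.y : ℝ) * (c.x.1 * c.x.2) = F.y * (F.y * B.y) := by
    calc (F.y : ℝ) * (c.x.1 * c.x.2) = (l.1 * l.2 * B.y) * (c.x.1 * c.x.2) := by rw [← h4]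
      _ = (l.1 * c.x.1) * (l.2 * c.x.2) * B.y := by ring
      _ = F.y * (F.y * B.y) := by rw [← hx1, ← hx2]; ring
  exact mul_left_cancel₀ hFy.ne' h5

/-- Odd case. -/
theorem odd_case (hD : ¬ IsSquare (4 * k + 1)) (B : Fm k) (hB : Base B) (n j : ℤ) (hj : 2 * j - 1 = n)
    (v : ℝ × ℝ) (h1 : 0 < v.1) (h2 : v.2 < 0)
    (h : (TE ^ n) (cE r B) = scale v h1 h2.ne (cE r B)) :
    ∃ ξ : ℝ × ℝ, IsK r ξ ∧ 0 < ξ.1 ∧ 0 < ξ.2 ∧
      (((Fm.TE hD ^ j) B).m + (1 + r.s) / 2) * B.y = v.1 * (ξ.2 * ξ.2) ∧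
      (((Fm.TE hD ^ j) B).m + (1 - r.s) / 2) * B.y = v.2 * (ξ.1 * ξ.1) := by
  set F := (Fm.TE hD ^ j) B with hF
  set c := (TE ^ j) (cE r B) with hc
  have hPrj := zpow_Prj r hD B j
  rw [← hF, ← hc] at hPrj
  obtain ⟨l, l1, l2, hl⟩ := hPrj
  obtain ⟨e1, e2, e3, e4, e5⟩ := norm_vec r B F c (by rw [hc, det_TE_zpow]) l l1 l2 hl
  -- c = scale v (star c)
  have hstar : star c = (TE ^ (1 - j)) (cE r B) := by
    rw [hc, star_TE_zpow, star_base r B hB, ← TE_apply, ← Equiv.Perm.mul_apply, ← zpow_add_one]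
    congr 2
    ring
  have hcs : c = scale v h1 h2.ne (star c) := by
    rw [hstar, scale_TE_zpow, ← h, ← Equiv.Perm.mul_apply, ← zpow_add, hc]
    congr 2
    omega
  obtain ⟨a1, a2⟩ := scale_neg v h1 h2.ne (star c) h2
  have he := congrArg Chain.e hcs
  rw [a2] at he
  have he1 : c.e.1 = v.1 * c.x.2 := congrArg Prod.fst he
  have he2 : c.e.2 = v.2 * c.x.1 := congrArg Prod.snd he
  have hBy : (0 : ℝ) < B.y := by exact_mod_cast B.hy
  have hFy : (0 : ℝ) < F.y := by exact_mod_cast F.hy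
  refine ⟨c.x, (IsK.chain r B j).1, c.hx1, c.hx2, ?_, ?_⟩
  · rw [e3, he1]
    apply mul_left_cancel₀ c.hx1.ne'
    have : c.x.1 * (l.1 * (v.1 * c.x.2) * B.y) = (l.1 * c.x.1) * (v.1 * c.x.2 * B.y) := by ring
    rw [this, ← e1]
    calc (F.y : ℝ) * (v.1 * c.x.2 * B.y) = v.1 * c.x.2 * (F.y * B.y) := by ring
      _ = _ := by rw [← e5]; ring
  · rw [e4, he2]
    apply mul_left_cancel₀ c.hx2.ne'
    have : c.x.2 * (l.2 * (v.2 * c.x.1) * B.y) = (l.2 * c.x.2) * (v.2 * c.x.1 * B.y) := by ring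
    rw [this, ← e2]
    calc (F.y : ℝ) * (v.2 * c.x.1 * B.y) = v.2 * c.x.1 * (F.y * B.y) := by ring
      _ = _ := by rw [← e5]; ring

theorem star_scale_pos (m : ℝ × ℝ) (h1 : 0 < m.1) (h2 : 0 < m.2) (c : Chain) :
    star (scale m h1 h2.ne' c) = scale (m.2, m.1) h2 h1.ne' (star c) := by
  obtain ⟨a1, a2⟩ := scale_pos m h1 h2.ne' c h2
  obtain ⟨b1, b2⟩ := scale_pos (m.2, m.1) h2 h1.ne' (star c) h1
  apply Chain.ext
  · rw [b1]; show ((scale m h1 h2.ne' c).x.2, (scale m h1 h2.ne' c).x.1) = _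
    rw [a1]; rfl
  · rw [b2]; show (-(scale m h1 h2.ne' c).e.2, -(scale m h1 h2.ne' c).e.1) = _
    rw [a2]
    ext
    · simp only [Prod.snd_mul, Prod.fst_mul, Chain.star]; ring
    · simp only [Prod.snd_mul, Prod.fst_mul, Chain.star]; ring

theorem star_scale_neg (m : ℝ × ℝ) (h1 : 0 < m.1) (h2 : m.2 < 0) (c : Chain) :
    star (scale m h1 h2.ne c) = scale (-m.2, -m.1) (neg_pos.2 h2) (neg_neg_of_pos h1).ne (star c) := by
  obtain ⟨a1, a2⟩ := scale_neg m h1 h2.ne c h2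
  obtain ⟨b1, b2⟩ := scale_neg (-m.2, -m.1) (neg_pos.2 h2) (neg_neg_of_pos h1).ne (star c)
    (neg_neg_of_pos h1)
  apply Chain.ext
  · rw [b1]; show ((scale m h1 h2.ne c).x.2, (scale m h1 h2.ne c).x.1) = _
    rw [a1]
    ext
    · simp only [Prod.snd_mul, Prod.fst_mul, Chain.star]; ring
    · simp only [Prod.snd_mul, Prod.fst_mul, Chain.star]; ring
  · rw [b2]; show (-(scale m h1 h2.ne c).e.2, -(scale m h1 h2.ne c).e.1) = _
    rw [a2]
    ext
    · simp only [Prod.snd_mul, Prod.fst_mul, Chain.star]; ring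
    · simp only [Prod.snd_mul, Prod.fst_mul, Chain.star]; ring

/-- Even case, base forms. -/
theorem even_base (hD : ¬ IsSquare (4 * k + 1)) (B B' : Fm k) (hB : Base B) (hB' : Base B') (i : ℤ)
    (hi : (Fm.TE hD ^ i) B = B' ∨ (Fm.TE hD ^ i) B = Fm.R B')
    (v : ℝ × ℝ) (h1 : 0 < v.1) (h2 : 0 < v.2)
    (h : (TE ^ (2 * i)) (cE r B) = scale v h1 h2.ne' (cE r B)) :
    ∃ μ : ℝ × ℝ, IsK r μ ∧ 0 < μ.1 ∧
      (((Fm.TE hD ^ i) B = B' → 0 < μ.2) ∧ ((Fm.TE hD ^ i) B = Fm.R B' → μ.2 < 0)) ∧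
      μ.1 * μ.1 = |μ.1 * μ.2| * v.1 ∧ μ.2 * μ.2 = |μ.1 * μ.2| * v.2 ∧
      |μ.1 * μ.2| * B'.y = B.y := by
  set c := (TE ^ i) (cE r B) with hc
  have hdet : c.det = (cE r B).det := by rw [hc, det_TE_zpow]
  have hPrj := (zpow_Prj r hD B i).symm
  rw [← hc] at hPrj
  have hne' : B' ≠ Fm.R B' := (Fm.R_ne B').symm
  -- the scaling
  obtain ⟨μ, m1, m2, hμ, hsgn⟩ : ∃ (μ : ℝ × ℝ) (m1 : 0 < μ.1) (m2 : μ.2 ≠ 0),
      c = scale μ m1 m2 (cE r B') ∧
      (((Fm.TE hD ^ i) B = B' → 0 < μ.2) ∧ ((Fm.TE hD ^ i) B = Fm.R B' → μ.2 < 0)) := by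
    rcases hi with hi | hi
    · rw [hi] at hPrj
      obtain ⟨μ, m1, m2, hμ⟩ := hPrj
      exact ⟨μ, m1, m2.ne', hμ, fun _ => m2, fun h6 => absurd (hi.symm.trans h6) hne'⟩
    · rw [hi, cE_R] at hPrj
      obtain ⟨μ, m1, m2, hμ⟩ := hPrj
      have g1 : 0 < (μ * lamR r B').1 := mul_pos m1 (lamR_1 r _)
      have g2 : (μ * lamR r B').2 < 0 := mul_neg_of_pos_of_neg m2 (lamR_2 r _)
      rw [scale_scale μ _ m1 m2.ne' _ _ g1 g2.ne] at hμ
      exact ⟨μ * lamR r B', g1, g2.ne, hμ, fun h6 => absurd (h6.symm.trans hi) hne', fun _ => g2⟩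
  -- T c = scale v (star c)
  have hstar : star c = (TE ^ (1 - i)) (cE r B) := by
    rw [hc, star_TE_zpow, star_base r B hB, ← TE_apply, ← Equiv.Perm.mul_apply, ← zpow_add_one]
    congr 2
    ring
  have hcs : T c = scale v h1 h2.ne' (star c) := by
    rw [hstar, scale_TE_zpow, ← h, ← Equiv.Perm.mul_apply, ← zpow_add, hc, ← TE_apply,
      ← Equiv.Perm.mul_apply, ← zpow_one_add]
    congr 2
    ring
  have hB'y : (0 : ℝ) < B'.y := by exact_mod_cast B'.hy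
  have hs := r.hpos
  rcases lt_or_gt_of_ne m2 with g | g
  · -- negative
    have e1 : star c = scale (-μ.2, -μ.1) (neg_pos.2 g) (neg_neg_of_pos m1).ne (star (cE r B')) := by
      rw [hμ, star_scale_neg μ m1 g]
    have q1 : 0 < (v * (-μ.2, -μ.1)).1 := mul_pos h1 (neg_pos.2 g)
    have q2 : (v * (-μ.2, -μ.1)).2 ≠ 0 := mul_ne_zero h2.ne' (neg_neg_of_pos m1).ne
    rw [e1, scale_scale v _ _ _ _ _ q1 q2, hμ, ← scale_T, star_base r B' hB'] at hcs
    have e2 := scale_inj _ _ _ _ _ _ _ hcs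
    have f1 : μ.1 = v.1 * -μ.2 := congrArg Prod.fst e2
    have f2 : μ.2 = v.2 * -μ.1 := congrArg Prod.snd e2
    have habs : |μ.1 * μ.2| = -(μ.1 * μ.2) := abs_of_neg (mul_neg_of_pos_of_neg m1 g)
    have hdet2 : (scale μ m1 m2 (cE r B')).det = -(μ.1 * μ.2) * (cE r B').det := by
      obtain ⟨s1, s2⟩ := scale_neg μ m1 m2 (cE r B') g
      unfold Chain.det
      rw [s1, s2]
      simp only [Prod.fst_mul, Prod.snd_mul]
      ring
    rw [← hμ, hdet, det_cE, det_cE] at hdet2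
    refine ⟨μ, ?_, m1, hsgn, ?_, ?_, ?_⟩
    · obtain ⟨s1, s2⟩ := scale_neg μ m1 m2 (cE r B') g
      have h5 := (IsK.chain r B i).2
      rw [← hc, hμ, s2] at h5
      have h6 := h5.smul r (1 / B'.y)
      convert h6 using 1
      rw [cE_x]
      ext
      · simp only [Prod.smul_fst, Prod.fst_mul, smul_eq_mul]; push_cast; field_simp
      · simp only [Prod.smul_snd, Prod.snd_mul, smul_eq_mul]; push_cast; field_simp
    · rw [habs]; linear_combination μ.1 * f1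
    · rw [habs]; linear_combination μ.2 * f2
    · rw [habs]
      apply mul_right_cancel₀ hs.ne'
      linear_combination hdet2
  · have e1 : star c = scale (μ.2, μ.1) g m1.ne' (star (cE r B')) := by
      rw [hμ, star_scale_pos μ m1 g]
    have q1 : 0 < (v * (μ.2, μ.1)).1 := mul_pos h1 g
    have q2 : (v * (μ.2, μ.1)).2 ≠ 0 := mul_ne_zero h2.ne' m1.ne'
    rw [e1, scale_scale v _ _ _ _ _ q1 q2, hμ, ← scale_T, star_base r B' hB'] at hcs
    have e2 := scale_inj _ _ _ _ _ _ _ hcs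
    have f1 : μ.1 = v.1 * μ.2 := congrArg Prod.fst e2
    have f2 : μ.2 = v.2 * μ.1 := congrArg Prod.snd e2
    have habs : |μ.1 * μ.2| = μ.1 * μ.2 := abs_of_pos (mul_pos m1 g)
    have hdet2 : (scale μ m1 m2 (cE r B')).det = (μ.1 * μ.2) * (cE r B').det := by
      obtain ⟨s1, s2⟩ := scale_pos μ m1 m2 (cE r B') g
      unfold Chain.det
      rw [s1, s2]
      simp only [Prod.fst_mul, Prod.snd_mul]
      ring
    rw [← hμ, hdet, det_cE, det_cE] at hdet2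
    refine ⟨μ, ?_, m1, hsgn, ?_, ?_, ?_⟩
    · obtain ⟨s1, s2⟩ := scale_pos μ m1 m2 (cE r B') g
      have h5 := (IsK.chain r B i).1
      rw [← hc, hμ, s1] at h5
      have h6 := h5.smul r (1 / B'.y)
      convert h6 using 1
      rw [cE_x]
      ext
      · simp only [Prod.smul_fst, Prod.fst_mul, smul_eq_mul]; push_cast; field_simp
      · simp only [Prod.smul_snd, Prod.snd_mul, smul_eq_mul]; push_cast; field_simp
    · rw [habs]; linear_combination μ.1 * f1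
    · rw [habs]; linear_combination μ.2 * f2
    · rw [habs]
      apply mul_right_cancel₀ hs.ne'
      linear_combination hdet2

/-- Even case, symmetric forms. -/
theorem even_alp (hD : ¬ IsSquare (4 * k + 1)) (A : Fm k) (hA : A.z = A.y) (i : ℤ)
    (v : ℝ × ℝ) (h1 : 0 < v.1) (h2 : 0 < v.2)
    (h : (TE ^ (2 * i)) (cE r A) = scale v h1 h2.ne' (cE r A)) :
    ∃ ξ : ℝ × ℝ, IsK r ξ ∧ 0 < ξ.1 ∧ ξ.2 < 0 ∧
      v.1 * (ξ.1 * ξ.1) = (A.m + (1 + r.s) / 2) * (((Fm.TE hD ^ i) A).m + (1 + r.s) / 2) ∧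
      v.2 * (ξ.2 * ξ.2) = (A.m + (1 - r.s) / 2) * (((Fm.TE hD ^ i) A).m + (1 - r.s) / 2) := by
  set F := (Fm.TE hD ^ i) A with hF
  set c := (TE ^ i) (cE r A) with hc
  have hPrj := zpow_Prj r hD A i
  rw [← hF, ← hc] at hPrj
  obtain ⟨l, l1, l2, hl⟩ := hPrj
  obtain ⟨e1, e2, e3, e4, e5⟩ := norm_vec r A F c (by rw [hc, det_TE_zpow]) l l1 l2 hl
  have hRho : Fm.rho A = Fm.R A := by
    apply Fm.ext
    · rfl
    · exact hA.symm
    · exact hA
  have hst : star (cE r A) = scale (lamR r A) (lamR_1 r A) (lamR_2 r A).ne (cE r A) := by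
    rw [← cE_rho, hRho, cE_R]
  -- scale v (star c) = scale lamR c
  have hkey : scale v h1 h2.ne' (star c) = scale (lamR r A) (lamR_1 r A) (lamR_2 r A).ne c := by
    rw [hc, star_TE_zpow, hst, scale_TE_zpow, scale_TE_zpow]
    have q1 : 0 < (v * lamR r A).1 := mul_pos h1 (lamR_1 r A)
    have q2 : (v * lamR r A).2 ≠ 0 := mul_ne_zero h2.ne' (lamR_2 r A).ne
    have q1' : 0 < (lamR r A * v).1 := mul_pos (lamR_1 r A) h1
    have q2' : (lamR r A * v).2 ≠ 0 := mul_ne_zero (lamR_2 r A).ne h2.ne'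
    rw [scale_scale v _ _ _ _ _ q1 q2, IsV.scale_eq (h1' := q1') (h2' := q2') _ (mul_comm _ _),
      ← scale_scale _ _ (lamR_1 r A) (lamR_2 r A).ne h1 h2.ne', ← h, scale_TE_zpow,
      ← Equiv.Perm.mul_apply, ← zpow_add]
    congr 2
    ring
  obtain ⟨a1, a2⟩ := scale_pos v h1 h2.ne' (star c) h2
  obtain ⟨b1, b2⟩ := scale_neg (lamR r A) (lamR_1 r A) (lamR_2 r A).ne c (lamR_2 r A)
  have hx := congrArg Chain.x hkey
  rw [a1, b1] at hx
  have hx1 : v.1 * c.x.2 = (lamR r A).1 * c.e.1 := congrArg Prod.fst hx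
  have hx2 : v.2 * c.x.1 = (lamR r A).2 * c.e.2 := congrArg Prod.snd hx
  have hb1 := beta1_pos r A
  have hb2 := beta2_neg r A
  have hAz : (A.z : ℝ) = A.y := by exact_mod_cast hA
  have hAy : (0 : ℝ) < A.y := by exact_mod_cast A.hy
  simp only [lamR] at hx1 hx2
  rw [hAz] at hx1 hx2
  set b1' := (A.m : ℝ) + (1 + r.s) / 2 with hb1'
  set b2' := (A.m : ℝ) + (1 - r.s) / 2 with hb2'
  have hx1' : b1' * (v.1 * c.x.2) = A.y * c.e.1 := by
    rw [hx1]; field_simp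
  have hx2' : b2' * (v.2 * c.x.1) = A.y * c.e.2 := by
    have := hb2.ne
    rw [hx2]; field_simp
  have hFy : (0 : ℝ) < F.y := by exact_mod_cast F.hy
  refine ⟨(b1' * c.x.2 / A.y, b2' * c.x.1 / A.y), ?_, ?_, ?_, ?_, ?_⟩
  · have g1 := ((IsK.cE_e r A).mul r ((IsK.chain r A i).1.swap r)).smul r (1 / A.y)
    convert g1 using 1
    rw [cE_e, ← hc, ← hb1', ← hb2']
    ext
    · simp only [Prod.smul_fst, Prod.fst_mul, smul_eq_mul]; push_cast; field_simp
    · simp only [Prod.smul_snd, Prod.snd_mul, smul_eq_mul]; push_cast; field_simp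
  · exact div_pos (mul_pos hb1 c.hx2) hAy
  · exact div_neg_of_neg_of_pos (mul_neg_of_neg_of_pos hb2 c.hx1) hAy
  · simp only
    rw [e3]
    -- v1 * (b1' x2 / y)^2 = b1' * l1 * e1
    have g1 : c.e.1 = b1' * (v.1 * c.x.2) / A.y := by rw [hx1']; field_simp
    have g2 : l.1 = F.y / c.x.1 := by
      rw [eq_div_iff c.hx1.ne']; exact e1.symm
    have g3 : (F.y : ℝ) = c.x.1 * c.x.2 / A.y := by rw [e5]; field_simp
    rw [g1, g2, g3]
    have := c.hx1.ne'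
    field_simp
  · simp only
    rw [e4]
    have g1 : c.e.2 = b2' * (v.2 * c.x.1) / A.y := by rw [hx2']; field_simp
    have g2 : l.2 = F.y / c.x.2 := by
      rw [eq_div_iff c.hx2.ne']; exact e2.symm
    have g3 : (F.y : ℝ) = c.x.1 * c.x.2 / A.y := by rw [e5]; field_simp
    rw [g1, g2, g3]
    have := c.hx2.ne'
    field_simp

end Pool.Agent.Lib.MP_6dddb9_nt
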