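import Pool.Agent.Lib.MP_6dddb9_nt.Count2
import Pool.Agent.Lib.MP_6dddb9_nt.Theta
import Pool.Agent.Lib.MP_6dddb9_nt.Genus
import Pool.Agent.Lib.MP_6dddb9_nt.ExR

set_option autoImplicit false

/-! Symmetric points for discriminant `p q`. -/

namespace Pool.Agent.Lib.MP_6dddb9_nt

variable {k : ℤ}

theorem T_base (hD : ¬ IsSquare (4 * k + 1)) (B : Fm k) (hB : Base B) :
    Fm.T hD B = Fm.rho B := by
  have hy := B.hy
  have hz := B.hz
  unfold Base at hB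
  rcases Fm.T_cases hD B with ⟨h, h1, h2, h3⟩ | ⟨h, h1, h2, h3⟩
  · apply Fm.ext
    · rw [h1]; show B.m + B.y = -B.m - 1; linarith
    · rw [h2]; rfl
    · rw [h3]; show B.z - 2 * B.m - 1 - B.y = B.z; linarith
  · exfalso; linarith

theorem base_of_T (hD : ¬ IsSquare (4 * k + 1)) (B : Fm k) (h : Fm.T hD B = Fm.rho B) :
    Base B ∨ Base (Fm.R B) := by
  have hm : (Fm.T hD B).m = -B.m - 1 := by rw [h]; rfl
  rcases Fm.T_cases hD B with ⟨_, h1, _, _⟩ | ⟨_, h1, _, _⟩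
  · left
    unfold Base
    rw [h1] at hm
    linarith
  · right
    show B.z = -(2 * (-B.m - 1) + 1)
    rw [h1] at hm
    linarith

open Classical in
/-- The symmetric point of second kind attached to a base form. -/
noncomputable def FX (B : Fm k) : X k :=
  if h : B.om then ⟨Fm.alp B, (Fm.om_alp B).2 h⟩
  else ⟨Fm.alp (Fm.R B), (Fm.om_alp _).2 ((Fm.om_R B).2 h)⟩

theorem FX_cases (B : Fm k) : (FX B).1 = Fm.alp B ∨ (FX B).1 = Fm.alp (Fm.R B) := by
  unfold FX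
  split_ifs with h
  · left; rfl
  · right; rfl

theorem FX_sym (hD : ¬ IsSquare (4 * k + 1)) (B : Fm k) (hB : Base B) :
    Fm.U hD (Fm.alp (FX B).1) = (FX B).1 := by
  rcases FX_cases B with h | h <;> rw [h]
  · rw [Fm.alp_alp, Fm.U_apply, T_base hD B hB, Fm.R_rho]
  · rw [Fm.alp_alp, Fm.U_apply, Fm.T_R, T_base hD B hB, Fm.R_rho]
    rfl

theorem FX_per (hD : ¬ IsSquare (4 * k + 1)) (B : Fm k) :
    Fm.per hD (FX B).1 = Fm.per hD B := by
  rcases FX_cases B with h | h <;> rw [h, Fm.per_alp]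
  rw [Fm.per_R]

theorem FX_IEq (hD : ¬ IsSquare (4 * k + 1)) (B : Fm k) (hB : Base B) :
    IEq B.I (FX B).1.I := by
  have h1 : IEq B.I (Fm.rho B).I := by
    rw [← T_base hD B hB]; exact IEq_T hD B
  rcases FX_cases B with h | h <;> rw [h]
  · have h2 := IEq_R (Fm.rho B)
    rw [Fm.R_rho] at h2
    exact h1.trans h2
  · have : Fm.alp (Fm.R B) = Fm.rho B := rfl
    rw [this]; exact h1

/-- Arithmetic data. -/
structure Dat (k : ℤ) where
  p : ℕ
  q : ℕ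
  u : ℤ
  v : ℤ
  hp : p.Prime
  hq : q.Prime
  hpu : (p : ℤ) = 4 * u + 1
  hqv : (q : ℤ) = 4 * v + 1
  huv : u < v
  hk : k = 4 * u * v + u + v
  a : ℤ
  b : ℤ
  c : ℤ
  d : ℤ
  ha : 0 < a
  hb : 0 < b
  hc : 0 < c
  hd : 0 < d
  ha' : Odd a
  hb' : Even b
  hc' : Odd c
  hd' : Even d
  hab : a ^ 2 + b ^ 2 = p
  hcd : c ^ 2 + d ^ 2 = q

namespace Dat

variable (δ : Dat k)

theorem hD' : 4 * k + 1 = δ.p * δ.q := by
  have h3 := δ.hk
  rw [δ.hpu, δ.hqv]; linear_combination 4 * h3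

include δ

theorem u_pos : 0 < δ.u := by
  have := δ.hp.two_le
  have := δ.hpu
  omega

theorem k_pos : 0 < k := by
  have h1 := δ.u_pos
  have h2 := δ.huv
  have h3 := δ.hk
  have h4 : 0 < δ.u * δ.v := mul_pos h1 (h1.trans h2)
  linarith

theorem p_ne_q : δ.p ≠ δ.q := by
  intro h
  have h1 := δ.hpu
  have h2 := δ.hqv
  have h3 := δ.huv
  rw [h] at h1
  omega

theorem p_mod : δ.p % 4 = 1 := by
  have := δ.hpu; omega

theorem q_mod : δ.q % 4 = 1 := by
  have := δ.hqv; omega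

theorem squarefree : Squarefree (4 * k + 1) := by
  have hcop : Nat.Coprime δ.p δ.q := (Nat.coprime_primes δ.hp δ.hq).2 δ.p_ne_q
  have h1 : Squarefree (δ.p * δ.q) := by
    rw [Nat.squarefree_mul hcop]
    exact ⟨δ.hp.squarefree, δ.hq.squarefree⟩
  rw [δ.hD']
  have := Int.squarefree_natCast.2 h1
  push_cast at this
  exact this

theorem nsq : ¬ IsSquare (4 * k + 1) := by
  rintro ⟨t, ht⟩
  have h1 := δ.squarefree t ⟨1, by rw [ht, mul_one]⟩
  rw [Int.isUnit_iff] at h1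
  have h2 := δ.k_pos
  rcases h1 with h | h <;> rw [h] at ht <;> omega

/-- The real square root. -/
noncomputable def rt : Rt k where
  s := Real.sqrt (4 * k + 1)
  hs := by
    apply Real.mul_self_sqrt
    have : (0 : ℤ) ≤ 4 * k + 1 := by have := δ.k_pos; omega
    exact_mod_cast this
  hpos := by
    apply Real.sqrt_pos.2
    have : (0 : ℤ) < 4 * k + 1 := by have := δ.k_pos; omega
    exact_mod_cast this
  hirr := by
    have h1 : (4 * (k : ℝ) + 1) = ((4 * k + 1 : ℤ) : ℝ) := by push_cast; ring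
    rw [h1, irrational_sqrt_intCast_iff]
    exact ⟨δ.nsq, by have := δ.k_pos; omega⟩

/-- First base form. -/
def B₁ : Fm k := ⟨-1, 1, k, one_pos, δ.k_pos, by ring⟩

/-- Second base form. -/
def B₂ : Fm k := ⟨-(2 * δ.u + 1), 4 * δ.u + 1, δ.v - δ.u, by have := δ.u_pos; omega,
  by have := δ.huv; omega, by have := δ.hk; linear_combination -this⟩

theorem base₁ : Base δ.B₁ := by show (1 : ℤ) = -(2 * -1 + 1); norm_num

theorem base₂ : Base δ.B₂ := by
  show 4 * δ.u + 1 = -(2 * -(2 * δ.u + 1) + 1); ring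

theorem om_B : δ.B₁.om ↔ δ.B₂.om := by
  show Even (-1 + 1 + k) ↔ Even (-(2 * δ.u + 1) + (4 * δ.u + 1) + (δ.v - δ.u))
  have e1 : -1 + 1 + k = 2 * (2 * (δ.u * δ.v)) + (δ.u + δ.v) := by
    have := δ.hk; linear_combination this
  have e2 : -(2 * δ.u + 1) + (4 * δ.u + 1) + (δ.v - δ.u) = δ.u + δ.v := by ring
  rw [e1, e2, Int.even_add]
  simp

theorem B_ne : δ.B₁.y ≠ δ.B₂.y := by
  show (1 : ℤ) ≠ 4 * δ.u + 1
  have := δ.u_pos
  omega

/-- Classification of base forms. -/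
theorem base_class (B : Fm k) (hB : Base B) : B = δ.B₁ ∨ B = δ.B₂ := by
  unfold Base at hB
  have hp : Prime (δ.p : ℤ) := Nat.prime_iff_prime_int.1 δ.hp
  have hq : Prime (δ.q : ℤ) := Nat.prime_iff_prime_int.1 δ.hq
  have hd := B.disc
  have hy := B.hy
  have hz := B.hz
  have h1 : B.y * (B.y + 4 * B.z) = δ.p * δ.q := by
    rw [← δ.hD', ← hd]
    have : 2 * B.m + 1 = -B.y := by linarith
    rw [this]; ring
  have hm : ∀ y z : ℤ, B.y = y → B.z = z → -(2 * B.m + 1) = y := fun y z h _ => by rw [← h, ← hB]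
  have hpp := δ.hp.two_le
  have hqq := δ.hq.two_le
  have hpu := δ.hpu
  have hqv := δ.hqv
  have huv := δ.huv
  -- y divides pq
  rcases hp.dvd_or_dvd (⟨δ.q, h1⟩ : (δ.p : ℤ) ∣ B.y * (B.y + 4 * B.z)) with h | h
  · obtain ⟨t, ht⟩ := h
    rw [ht] at h1
    have h2 : t * (δ.p * t + 4 * B.z) = δ.q := by
      apply mul_left_cancel₀ hp.ne_zero
      linear_combination h1
    have ht0 : 0 < t := by
      by_contra hcon
      push Not at hcon
      rw [ht] at hy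
      nlinarith
    have h3 : t = 1 := by
      have h4 : t.natAbs ∣ δ.q := by
        rw [← Int.natCast_dvd_natCast, Int.natCast_natAbs, abs_dvd]
        exact ⟨_, h2.symm⟩
      rcases (Nat.dvd_prime δ.hq).1 h4 with h5 | h5
      · omega
      · exfalso
        have h6 : t = δ.q := by omega
        rw [h6] at h2
        have h7 : (δ.q : ℤ) * (δ.p * δ.q + 4 * B.z - 1) = 0 := by linear_combination h2
        rcases mul_eq_zero.1 h7 with h8 | h8
        · omega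
        · have : (0 : ℤ) < δ.p * δ.q := by positivity
          omega
    right
    rw [h3] at h2 ht
    apply Fm.ext
    · show B.m = -(2 * δ.u + 1); omega
    · show B.y = 4 * δ.u + 1; omega
    · show B.z = δ.v - δ.u; omega
  · obtain ⟨t, ht⟩ := h
    rw [ht] at h1
    have h2 : B.y * t = δ.q := by
      apply mul_left_cancel₀ hp.ne_zero
      linear_combination h1
    have h4 : B.y.natAbs ∣ δ.q := by
      rw [← Int.natCast_dvd_natCast, Int.natCast_natAbs, abs_dvd]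
      exact ⟨_, h2.symm⟩
    rcases (Nat.dvd_prime δ.hq).1 h4 with h5 | h5
    · left
      have h6 : B.y = 1 := by omega
      have h7 : t = δ.q := by rw [h6] at h2; omega
      rw [h6, h7, ← δ.hD'] at ht
      apply Fm.ext
      · show B.m = -1; omega
      · exact h6
      · show B.z = k; omega
    · exfalso
      have h6 : B.y = δ.q := by omega
      rw [h6] at h2 ht
      have h7 : t = 1 := by
        have : (δ.q : ℤ) * (t - 1) = 0 := by linear_combination h2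
        rcases mul_eq_zero.1 this with h8 | h8
        · omega
        · omega
      rw [h7] at ht
      omega

theorem allF (x : X k) (h : Fm.U δ.nsq (Fm.alp x.1) = x.1) :
    x.1 = (FX δ.B₁).1 ∨ x.1 = (FX δ.B₂).1 := by
  have h1 : Fm.T δ.nsq (Fm.alp x.1) = Fm.rho (Fm.alp x.1) := by
    rw [Fm.U_apply] at h
    have := congrArg Fm.R h
    rw [Fm.R_R] at this
    rw [this]
    rfl
  have hom := x.2
  have key : ∀ B : Fm k, Base B → ∀ x : X k, x.1 = Fm.alp B ∨ x.1 = Fm.alp (Fm.R B) →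
      x.1 = (FX B).1 := by
    intro B _ x hx
    have hom := x.2
    unfold FX
    rcases hx with hx | hx
    · rw [hx] at hom
      rw [Fm.om_alp] at hom
      rw [dif_pos hom]; exact hx
    · rw [hx] at hom
      rw [Fm.om_alp, Fm.om_R] at hom
      rw [dif_neg hom]; exact hx
  rcases base_of_T δ.nsq _ h1 with h2 | h2
  · rcases δ.base_class _ h2 with h3 | h3
    · left; exact key _ δ.base₁ x (Or.inl (by rw [← h3]; rfl))
    · right; exact key _ δ.base₂ x (Or.inl (by rw [← h3]; rfl))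
  · rcases δ.base_class _ h2 with h3 | h3
    · left; exact key _ δ.base₁ x (Or.inr (by rw [← h3, Fm.R_R]; rfl))
    · right; exact key _ δ.base₂ x (Or.inr (by rw [← h3, Fm.R_R]; rfl))

theorem FX_ne : (FX δ.B₁).1 ≠ (FX δ.B₂).1 := by
  intro h
  have h1 := FX_cases δ.B₁
  have h2 := FX_cases δ.B₂
  have hu := δ.u_pos
  have huv := δ.huv
  have hk : k = 4 * δ.u * δ.v + δ.u + δ.v := δ.hk
  rcases h1 with h1 | h1 <;> rcases h2 with h2 | h2 <;> rw [h1, h2] at h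
  · have := congrArg Fm.m h
    change (-1 : ℤ) = -(2 * δ.u + 1) at this
    omega
  · have := congrArg Fm.m h
    change (-1 : ℤ) = -(-(2 * δ.u + 1)) - 1 at this
    omega
  · have := congrArg Fm.m h
    change -(-1 : ℤ) - 1 = -(2 * δ.u + 1) at this
    omega
  · have := congrArg Fm.m h
    change -(-1 : ℤ) - 1 = -(-(2 * δ.u + 1)) - 1 at this
    omega

/-- Symmetric forms of the first kind. -/
theorem alp_class (E : Fm k) (h : Fm.alp E = E) :
    ((2 * E.m + 1) ^ 2 = (δ.a * δ.c + δ.b * δ.d) ^ 2 ∧ (2 * E.y) ^ 2 = (δ.a * δ.d - δ.b * δ.c) ^ 2) ∨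
    ((2 * E.m + 1) ^ 2 = (δ.a * δ.c - δ.b * δ.d) ^ 2 ∧ (2 * E.y) ^ 2 = (δ.a * δ.d + δ.b * δ.c) ^ 2) := by
  have hz : E.z = E.y := congrArg Fm.y h
  have hd := E.disc
  rw [hz, δ.hD'] at hd
  exact rep_pq δ.p δ.q δ.a δ.b δ.c δ.d (2 * E.m + 1) (2 * E.y) (Nat.prime_iff_prime_int.1 δ.hp)
    (Nat.prime_iff_prime_int.1 δ.hq) (by exact_mod_cast δ.hp.pos) (by exact_mod_cast δ.hq.pos)
    δ.hab δ.hcd δ.ha' δ.hb' δ.hc' δ.hd' (by linear_combination hd) ⟨E.m, rfl⟩ ⟨E.y, by ring⟩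

/-- Existence of a symmetric form with given squares. -/
theorem exists_alp (x y : ℤ) (hx : Odd x) (hy : Even y) (hy0 : y ≠ 0) (h : x ^ 2 + y ^ 2 = δ.p * δ.q) :
    ∃ A : X k, Fm.alp A.1 = A.1 ∧ (2 * A.1.m + 1) ^ 2 = x ^ 2 := by
  obtain ⟨t, ht⟩ := hx
  obtain ⟨w, hw⟩ := hy
  have hw0 : w ≠ 0 := by rintro rfl; exact hy0 (by rw [hw]; rfl)
  have hkk := δ.hD'
  -- choose m even
  obtain ⟨m, hm, hm'⟩ : ∃ m : ℤ, Even m ∧ (2 * m + 1) ^ 2 = x ^ 2 := by
    rcases Int.even_or_odd t with h1 | h1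
    · exact ⟨t, h1, by rw [ht]⟩
    · obtain ⟨s, hs⟩ := h1
      exact ⟨-t - 1, ⟨-s - 1, by rw [hs]; ring⟩, by rw [ht]; ring⟩
  have hyy : |w| * |w| = w * w := abs_mul_abs_self w
  refine ⟨⟨⟨m, |w|, |w|, abs_pos.2 hw0, abs_pos.2 hw0, ?_⟩, ?_⟩, rfl, hm'⟩
  · rw [hyy]
    have : 4 * (m * m + m + w * w) = 4 * k := by
      rw [hw] at h
      linear_combination hm' + h - hkk
    linarith
  · show Even (m + |w| + |w|)
    rw [add_assoc]
    exact hm.add ⟨|w|, rfl⟩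

omit δ in
theorem alp_unique (x y : X k) (hx : Fm.alp x.1 = x.1) (hy : Fm.alp y.1 = y.1)
    (h : (2 * x.1.m + 1) ^ 2 = (2 * y.1.m + 1) ^ 2) : x.1 = y.1 := by
  have hzx : x.1.z = x.1.y := congrArg Fm.y hx
  have hzy : y.1.z = y.1.y := congrArg Fm.y hy
  have hox : Even x.1.m := by
    have := x.2
    unfold Fm.om at this
    rw [hzx, add_assoc, Int.even_add] at this
    exact this.2 ⟨x.1.y, rfl⟩
  have hoy : Even y.1.m := by
    have := y.2
    unfold Fm.om at this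
    rw [hzy, add_assoc, Int.even_add] at this
    exact this.2 ⟨y.1.y, rfl⟩
  have hm : x.1.m = y.1.m := by
    obtain ⟨s, hs⟩ := hox
    obtain ⟨t, ht⟩ := hoy
    rcases sq_eq_sq_iff_eq_or_eq_neg.1 h with h1 | h1
    · omega
    · omega
  have hyy : x.1.y = y.1.y := by
    have h1 := x.1.h
    have h2 := y.1.h
    rw [hzx] at h1
    rw [hzy] at h2
    have h3 : x.1.y ^ 2 = y.1.y ^ 2 := by rw [hm] at h1; linarith [sq x.1.y, sq y.1.y]
    rcases sq_eq_sq_iff_eq_or_eq_neg.1 h3 with h4 | h4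
    · exact h4
    · have := x.1.hy; have := y.1.hy; omega
  exact Fm.ext hm hyy (by rw [hzx, hzy, hyy])

theorem abcd : (δ.a * δ.c + δ.b * δ.d) ^ 2 ≠ (δ.a * δ.c - δ.b * δ.d) ^ 2 := by
  intro h
  have h1 : 4 * (δ.a * δ.c * (δ.b * δ.d)) = 0 := by linear_combination h
  have h2 : 0 < δ.a * δ.c * (δ.b * δ.d) :=
    mul_pos (mul_pos δ.ha δ.hc) (mul_pos δ.hb δ.hd)
  omega

theorem exists_A : ∃ A₁ A₂ : X k, Fm.alp A₁.1 = A₁.1 ∧ Fm.alp A₂.1 = A₂.1 ∧
    (2 * A₁.1.m + 1) ^ 2 = (δ.a * δ.c + δ.b * δ.d) ^ 2 ∧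
    (2 * A₂.1.m + 1) ^ 2 = (δ.a * δ.c - δ.b * δ.d) ^ 2 ∧
    (∀ x : X k, Fm.alp x.1 = x.1 → x.1 = A₁.1 ∨ x.1 = A₂.1) := by
  have ho1 : Odd (δ.a * δ.c + δ.b * δ.d) := (δ.ha'.mul δ.hc').add_even (δ.hb'.mul_right _)
  have ho2 : Odd (δ.a * δ.c - δ.b * δ.d) := (δ.ha'.mul δ.hc').sub_even (δ.hb'.mul_right _)
  have he1 : Even (δ.a * δ.d - δ.b * δ.c) := (δ.hd'.mul_left _).sub (δ.hb'.mul_right _)
  have he2 : Even (δ.a * δ.d + δ.b * δ.c) := (δ.hd'.mul_left _).add (δ.hb'.mul_right _)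
  have hs1 : (δ.a * δ.c + δ.b * δ.d) ^ 2 + (δ.a * δ.d - δ.b * δ.c) ^ 2 = δ.p * δ.q := by
    rw [← δ.hab, ← δ.hcd]; ring
  have hs2 : (δ.a * δ.c - δ.b * δ.d) ^ 2 + (δ.a * δ.d + δ.b * δ.c) ^ 2 = δ.p * δ.q := by
    rw [← δ.hab, ← δ.hcd]; ring
  have hn1 : δ.a * δ.d - δ.b * δ.c ≠ 0 := by
    intro h0
    rw [h0] at hs1
    apply δ.nsq
    rw [δ.hD', ← hs1]
    exact ⟨δ.a * δ.c + δ.b * δ.d, by ring⟩
  have hn2 : δ.a * δ.d + δ.b * δ.c ≠ 0 := by
    have := mul_pos δ.ha δ.hd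
    have := mul_pos δ.hb δ.hc
    omega
  obtain ⟨A₁, h1, h1'⟩ := δ.exists_alp _ _ ho1 he1 hn1 hs1
  obtain ⟨A₂, h2, h2'⟩ := δ.exists_alp _ _ ho2 he2 hn2 hs2
  refine ⟨A₁, A₂, h1, h2, h1', h2', fun x hx => ?_⟩
  rcases δ.alp_class x.1 hx with h | h
  · left; exact alp_unique x A₁ hx h1 (by rw [h.1, h1'])
  · right; exact alp_unique x A₂ hx h2 (by rw [h.1, h2'])

end Dat

end Pool.Agent.Lib.MP_6dddb9_nt
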